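import Pool.Agent.H785R2.ABC.A12
import Pool.Agent.H785R2.ABC.A345
import Pool.Agent.H510R2.Div

set_option autoImplicit false

/-! The product of the prime factors `> D` of an integer: counting, and prime factors which divide only one of several integers. -/

namespace Pool.Agent.HP25.PS

open Finset

/-- the product of the primes larger than `D` which divide `n` -/
def rr (D n : ℕ) : ℕ := ∏ p ∈ n.primeFactors.filter (fun p => D < p), p

lemma rr_pos (D n : ℕ) : 0 < rr D n :=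
  prod_pos fun _ hp => (Nat.prime_of_mem_primeFactors (mem_filter.1 hp).1).pos

lemma rr_dvd (D n : ℕ) : rr D n ∣ n :=
  (Finset.prod_dvd_prod_of_subset _ _ _ (filter_subset _ _)).trans (Nat.prod_primeFactors_dvd n)

lemma rad_le (D n : ℕ) : Pool.Agent.H785R2.ABC.rad n ≤ D.factorial * rr D n := by
  unfold Pool.Agent.H785R2.ABC.rad rr
  rw [← prod_filter_mul_prod_filter_not n.primeFactors (fun p => D < p), mul_comm]
  apply Nat.mul_le_mul_right
  refine Nat.le_of_dvd D.factorial_pos ?_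
  refine Finset.prod_primes_dvd _ ?_ ?_
  · intro p hp
    exact (Nat.prime_of_mem_primeFactors (mem_filter.1 hp).1).prime
  · intro p hp
    rw [mem_filter] at hp
    exact Nat.dvd_factorial (Nat.prime_of_mem_primeFactors hp.1).pos (not_lt.1 hp.2)

/-- few integers have a small value of `rr` -/
theorem count (D : ℕ) (ε : ℝ) (hε : 0 < ε) : ∃ C : ℝ, 0 < C ∧ ∀ X : ℕ, 1 ≤ X → ∀ R : ℝ, 0 ≤ R →
    (((Icc 1 X).filter fun n => (rr D n : ℝ) ≤ R).card : ℝ) ≤ C * (X : ℝ) ^ ε * R := by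
  obtain ⟨C, hC, h⟩ := Pool.Agent.H785R2.ABC.stmtA4_of (Pool.Agent.H785R2.ABC.stmtA3_of Pool.Agent.H785R2.ABC.stmtA2) ε hε
  refine ⟨C * D.factorial, by positivity, fun X hX R hR => ?_⟩
  have h1 := h X hX (D.factorial * R) (by positivity)
  have h2 : (Icc 1 X).filter (fun n => (rr D n : ℝ) ≤ R) ⊆
      (Icc 1 X).filter fun d => (Pool.Agent.H785R2.ABC.rad d : ℝ) ≤ D.factorial * R := by
    intro n hn
    rw [mem_filter] at hn ⊢
    refine ⟨hn.1, ?_⟩
    have h3 : (Pool.Agent.H785R2.ABC.rad n : ℝ) ≤ (D.factorial : ℝ) * rr D n := by exact_mod_cast rad_le D n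
    exact h3.trans (mul_le_mul_of_nonneg_left hn.2 (by positivity))
  calc (((Icc 1 X).filter fun n => (rr D n : ℝ) ≤ R).card : ℝ) ≤ _ := by exact_mod_cast card_le_card h2
    _ ≤ C * (X : ℝ) ^ ε * (D.factorial * R) := h1
    _ = _ := by ring

/-- **The prime factors**: each of the integers has a prime factor `> D` which divides none of the others. -/
def Sep {M : ℕ} (D : ℕ) (t : Fin M → ℤ) : Prop :=
  ∀ l, ∃ p : ℕ, p.Prime ∧ D < p ∧ (p : ℤ) ∣ t l ∧ ∀ l', l' ≠ l → ¬ (p : ℤ) ∣ t l'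

theorem sep_of {M : ℕ} (D : ℕ) (t : Fin M → ℤ) (h1 : ∀ l, 1 < rr D (t l).natAbs)
    (h2 : ∀ l l', l ≠ l' → Nat.gcd (rr D (t l).natAbs) (t l').natAbs ^ M ≤ rr D (t l).natAbs) : Sep D t := by
  intro l
  by_contra hcon
  push Not at hcon
  obtain ⟨R, hR⟩ : ∃ R, R = rr D (t l).natAbs := ⟨_, rfl⟩
  have hR1 : 1 < R := by rw [hR]; exact h1 l
  obtain ⟨P, hP⟩ : ∃ P, P = ∏ l' ∈ univ.erase l, Nat.gcd R (t l').natAbs := ⟨_, rfl⟩
  have hP0 : 0 < P := by
    rw [hP]
    exact prod_pos fun l' _ => Nat.gcd_pos_of_pos_left _ (by omega)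
  have hdvd : R ∣ P := by
    rw [hR]
    unfold rr
    refine Finset.prod_primes_dvd _ ?_ ?_
    · intro p hp
      exact (Nat.prime_of_mem_primeFactors (mem_filter.1 hp).1).prime
    · intro p hp
      rw [mem_filter] at hp
      have hpp := Nat.prime_of_mem_primeFactors hp.1
      have hpt : (p : ℤ) ∣ t l := Int.natCast_dvd.2 (Nat.dvd_of_mem_primeFactors hp.1)
      obtain ⟨l', hl', hd⟩ := hcon p hpp hp.2 hpt
      rw [hP]
      refine dvd_trans ?_ (dvd_prod_of_mem _ (mem_erase.2 ⟨hl', mem_univ _⟩))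
      apply Nat.dvd_gcd
      · rw [hR]
        exact dvd_prod_of_mem _ (mem_filter.2 hp)
      · exact Int.natCast_dvd.1 hd
  have hle : R ≤ P := Nat.le_of_dvd hP0 hdvd
  have hM : 1 ≤ M := by
    have := l.2
    omega
  have h3 : P ^ M ≤ R ^ (M - 1) := by
    rw [hP, ← prod_pow]
    calc ∏ l' ∈ univ.erase l, Nat.gcd R (t l').natAbs ^ M ≤ ∏ l' ∈ univ.erase l, R := by
          apply prod_le_prod' 
          intro l' hl'
          rw [mem_erase] at hl'
          rw [hR]
          exact h2 l l' (Ne.symm hl'.1)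
      _ = R ^ (M - 1) := by rw [prod_const, card_erase_of_mem (mem_univ _), card_univ, Fintype.card_fin]
  have h4 : R ^ M ≤ R ^ (M - 1) := (Nat.pow_le_pow_left hle M).trans h3
  have h5 : R ^ (M - 1) < R ^ M := Nat.pow_lt_pow_right hR1 (by omega)
  omega

end Pool.Agent.HP25.PS
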