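import Pool.Agent.HP25.PS.A

set_option autoImplicit false

/-! Random real numbers such that the integers close to them are well distributed with respect to divisibility: with high
probability the integers close to several independent numbers of this kind are separated by large prime factors. -/

namespace Pool.Agent.HP25.PS

open Finset MeasureTheory ProbabilityTheory

/-- the integers close to a random number with the law `μ` are divisible by `r` with a small probability -/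
structure Tame (μ : Measure ℝ) (X c C : ℝ) : Prop where
  bdd : μ {z | C * X < |z|} = 0
  pt : ∀ (s : ℤ) (h : ℝ), 1 ≤ h → μ.real {z | |(s : ℝ) - z| ≤ h} ≤ C * h * X ^ (-c)
  dv : ∀ (r : ℕ) (h : ℝ), 1 ≤ r → 1 ≤ h →
    μ.real {z | ∃ t : ℤ, |(t : ℝ) - z| ≤ h ∧ (r : ℤ) ∣ t} ≤ C * h * ((r : ℝ) ^ (-c) + X ^ (-c))

lemma small_meas (h : ℝ) (Q : ℤ → Prop) : MeasurableSet {z : ℝ | ∃ t : ℤ, |(t : ℝ) - z| ≤ h ∧ Q t} := by
  have : {z : ℝ | ∃ t : ℤ, |(t : ℝ) - z| ≤ h ∧ Q t} = ⋃ t : ℤ, {z : ℝ | |(t : ℝ) - z| ≤ h ∧ Q t} := by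
    ext z; simp
  rw [this]
  refine MeasurableSet.iUnion fun t => ?_
  have h1 : MeasurableSet {z : ℝ | |(t : ℝ) - z| ≤ h} := measurableSet_le (by fun_prop) measurable_const
  exact h1.inter (MeasurableSet.const _)

lemma pair_meas (h : ℝ) (Q : ℤ → ℤ → Prop) :
    MeasurableSet {z : ℝ × ℝ | ∃ t t' : ℤ, |(t : ℝ) - z.1| ≤ h ∧ |(t' : ℝ) - z.2| ≤ h ∧ Q t t'} := by
  have : {z : ℝ × ℝ | ∃ t t' : ℤ, |(t : ℝ) - z.1| ≤ h ∧ |(t' : ℝ) - z.2| ≤ h ∧ Q t t'} =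
      ⋃ t : ℤ, ⋃ t' : ℤ, {z : ℝ × ℝ | |(t : ℝ) - z.1| ≤ h ∧ |(t' : ℝ) - z.2| ≤ h ∧ Q t t'} := by
    ext z; simp
  rw [this]
  refine MeasurableSet.iUnion fun t => MeasurableSet.iUnion fun t' => ?_
  have h1 : MeasurableSet {z : ℝ × ℝ | |(t : ℝ) - z.1| ≤ h} := measurableSet_le (by fun_prop) measurable_const
  have h2 : MeasurableSet {z : ℝ × ℝ | |(t' : ℝ) - z.2| ≤ h} := measurableSet_le (by fun_prop) measurable_const
  exact h1.inter (h2.inter (MeasurableSet.const _))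

/-- the integers close to a bounded number -/
lemma natAbs_le {C X h z : ℝ} (hz : |z| ≤ C * X) (hh : h ≤ C * X) {t : ℤ} (ht : |(t : ℝ) - z| ≤ h) : (t.natAbs : ℝ) ≤ 2 * C * X := by
  have h1 : ((t.natAbs : ℕ) : ℝ) = |(t : ℝ)| := by
    rw [Nat.cast_natAbs, Int.cast_abs]
  rw [h1]
  have h2 : (t : ℝ) = ((t : ℝ) - z) + z := by ring
  rw [h2]
  linarith [abs_add_le ((t : ℝ) - z) z]

/-- one number: a large product of large prime factors -/
theorem single (D : ℕ) (c C : ℝ) (hc : 0 < c) (hc1 : c ≤ 1) (hC : 1 ≤ C) : ∃ C' : ℝ, 0 < C' ∧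
    ∀ (μ : Measure ℝ) [IsProbabilityMeasure μ] (X : ℝ), 1 ≤ X → Tame μ X c C →
      μ.real {z | ∃ t : ℤ, |(t : ℝ) - z| ≤ X ^ (c / 8) ∧ (rr D t.natAbs : ℝ) ≤ X ^ (c / 4)} ≤ C' * X ^ (-(c / 2)) := by
  classical
  obtain ⟨C₁, hC₁, hcount⟩ := count D (c / 8) (by positivity)
  refine ⟨(4 * C * C₁ + 1) * C, by positivity, fun μ _ X hX hT => ?_⟩
  have hX0 : 0 < X := by linarith
  obtain ⟨h, hh⟩ : ∃ h, h = X ^ (c / 8) := ⟨_, rfl⟩
  have hh1 : 1 ≤ h := by rw [hh]; exact Real.one_le_rpow hX (by positivity)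
  have hhX : h ≤ C * X := by
    calc h ≤ X ^ (1 : ℝ) := by rw [hh]; exact Real.rpow_le_rpow_of_exponent_le hX (by linarith)
      _ = X := Real.rpow_one X
      _ ≤ C * X := by nlinarith
  obtain ⟨R, hR⟩ : ∃ R, R = X ^ (c / 4) := ⟨_, rfl⟩
  have hR1 : 1 ≤ R := by rw [hR]; exact Real.one_le_rpow hX (by positivity)
  rw [← hh, ← hR]
  obtain ⟨Y, hY⟩ : ∃ Y : ℕ, Y = ⌊2 * C * X⌋₊ := ⟨_, rfl⟩
  have hY1 : 1 ≤ Y := by rw [hY]; exact Nat.le_floor (by push_cast; nlinarith)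
  have hYX : (Y : ℝ) ≤ 2 * C * X := by rw [hY]; exact Nat.floor_le (by positivity)
  obtain ⟨T, hTd⟩ : ∃ T : Finset ℤ, T = (Icc (-(Y : ℤ)) Y).filter (fun t => (rr D t.natAbs : ℝ) ≤ R) := ⟨_, rfl⟩
  -- the number of integers
  have hcard : (T.card : ℝ) ≤ 2 * (C₁ * (Y : ℝ) ^ (c / 8) * R) + 1 := by
    obtain ⟨F, hF⟩ : ∃ F, F = (Icc 1 Y).filter fun n => (rr D n : ℝ) ≤ R := ⟨_, rfl⟩
    have h1 : T ⊆ (F.image (fun n : ℕ => (n : ℤ)) ∪ F.image (fun n : ℕ => -(n : ℤ))) ∪ {0} := by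
      intro t ht
      rw [hTd, mem_filter, mem_Icc] at ht
      obtain ⟨⟨ht1, ht2⟩, ht3⟩ := ht
      rw [mem_union, mem_union, mem_image, mem_image, mem_singleton]
      rcases lt_trichotomy t 0 with h0 | h0 | h0
      · refine Or.inl (Or.inr ⟨t.natAbs, ?_, by omega⟩)
        rw [hF, mem_filter, mem_Icc]
        exact ⟨⟨by omega, by omega⟩, ht3⟩
      · exact Or.inr h0
      · refine Or.inl (Or.inl ⟨t.natAbs, ?_, by omega⟩)
        rw [hF, mem_filter, mem_Icc]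
        exact ⟨⟨by omega, by omega⟩, ht3⟩
    have h2 : T.card ≤ F.card + F.card + 1 :=
      (card_le_card h1).trans ((card_union_le _ _).trans (add_le_add ((card_union_le _ _).trans
        (add_le_add card_image_le card_image_le)) (by rw [card_singleton])))
    have h3 : (F.card : ℝ) ≤ C₁ * (Y : ℝ) ^ (c / 8) * R := by rw [hF]; exact hcount Y hY1 R (by linarith)
    have h4 : (T.card : ℝ) ≤ F.card + F.card + 1 := by exact_mod_cast h2
    linarith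
  have hcov : {z : ℝ | ∃ t : ℤ, |(t : ℝ) - z| ≤ h ∧ (rr D t.natAbs : ℝ) ≤ R} ⊆
      {z | C * X < |z|} ∪ ⋃ t ∈ T, {z | |(t : ℝ) - z| ≤ h} := by
    rintro z ⟨t, ht, hr⟩
    by_cases hz : C * X < |z|
    · exact Or.inl hz
    · right
      rw [not_lt] at hz
      have h1 := natAbs_le hz hhX ht
      have h2 : t.natAbs ≤ Y := by rw [hY]; exact Nat.le_floor h1
      rw [Set.mem_iUnion₂]
      refine ⟨t, ?_, ht⟩
      rw [hTd, mem_filter, mem_Icc]
      exact ⟨⟨by omega, by omega⟩, hr⟩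
  have hb : μ.real {z | C * X < |z|} = 0 := by rw [measureReal_def, hT.bdd]; rfl
  have hY8 : (Y : ℝ) ^ (c / 8) ≤ 2 * C * X ^ (c / 8) := by
    calc (Y : ℝ) ^ (c / 8) ≤ (2 * C * X) ^ (c / 8) := Real.rpow_le_rpow (Nat.cast_nonneg _) hYX (by positivity)
      _ = (2 * C) ^ (c / 8) * X ^ (c / 8) := Real.mul_rpow (by positivity) hX0.le
      _ ≤ (2 * C) ^ (1 : ℝ) * X ^ (c / 8) := by
          apply mul_le_mul_of_nonneg_right _ (by positivity)
          exact Real.rpow_le_rpow_of_exponent_le (by linarith) (by linarith)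
      _ = _ := by rw [Real.rpow_one]
  have e1 : X ^ (c / 8) * X ^ (c / 4) = X ^ (3 * c / 8) := by rw [← Real.rpow_add hX0]; congr 1; ring
  have e2 : X ^ (3 * c / 8) * (X ^ (c / 8) * X ^ (-c)) = X ^ (-(c / 2)) := by
    rw [← Real.rpow_add hX0, ← Real.rpow_add hX0]; congr 1; ring
  have h5 : (1 : ℝ) ≤ X ^ (3 * c / 8) := Real.one_le_rpow hX (by positivity)
  calc μ.real {z | ∃ t : ℤ, |(t : ℝ) - z| ≤ h ∧ (rr D t.natAbs : ℝ) ≤ R}
      ≤ μ.real ({z | C * X < |z|} ∪ ⋃ t ∈ T, {z | |(t : ℝ) - z| ≤ h}) := measureReal_mono hcov (measure_ne_top _ _)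
    _ ≤ μ.real {z | C * X < |z|} + μ.real (⋃ t ∈ T, {z | |(t : ℝ) - z| ≤ h}) := measureReal_union_le _ _
    _ ≤ 0 + ∑ t ∈ T, μ.real {z | |(t : ℝ) - z| ≤ h} := by
        rw [hb]
        exact add_le_add le_rfl (measureReal_biUnion_finset_le _ _)
    _ ≤ 0 + ∑ t ∈ T, C * h * X ^ (-c) := by
        apply add_le_add le_rfl
        exact sum_le_sum fun t _ => hT.pt t h hh1
    _ = (T.card : ℝ) * (C * h * X ^ (-c)) := by rw [zero_add, sum_const, nsmul_eq_mul]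
    _ ≤ (2 * (C₁ * (2 * C * X ^ (c / 8)) * R) + 1) * (C * h * X ^ (-c)) := by
        apply mul_le_mul_of_nonneg_right _ (by positivity)
        refine hcard.trans ?_
        have : 0 ≤ R := by linarith
        gcongr
    _ = (4 * C * C₁ * X ^ (3 * c / 8) + 1) * (C * (X ^ (c / 8) * X ^ (-c))) := by
        rw [← e1, hR, hh]; ring
    _ ≤ (4 * C * C₁ * X ^ (3 * c / 8) + X ^ (3 * c / 8)) * (C * (X ^ (c / 8) * X ^ (-c))) := by gcongr
    _ = (4 * C * C₁ + 1) * C * (X ^ (3 * c / 8) * (X ^ (c / 8) * X ^ (-c))) := by ring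
    _ = _ := by rw [e2]

/-- two numbers: no large common factor -/
theorem pair (D M : ℕ) (hM : 1 ≤ M) (c C : ℝ) (hc : 0 < c) (hc1 : c ≤ 1) (hC : 1 ≤ C) : ∃ C' : ℝ, 0 < C' ∧
    ∀ (μ ν : Measure ℝ) [IsProbabilityMeasure μ] [IsProbabilityMeasure ν] (X : ℝ), 1 ≤ X → Tame μ X c C → Tame ν X c C →
      (μ.prod ν).real {z : ℝ × ℝ | ∃ t t' : ℤ, |(t : ℝ) - z.1| ≤ X ^ (c ^ 2 / (16 * M)) ∧ |(t' : ℝ) - z.2| ≤ X ^ (c ^ 2 / (16 * M)) ∧
        (X ^ (c / 4) < (rr D t.natAbs : ℝ) ∧ rr D t.natAbs < Nat.gcd (rr D t.natAbs) t'.natAbs ^ M)} ≤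
        C' * X ^ (-(c ^ 2 / (16 * M))) := by
  classical
  have hM0 : (0 : ℝ) < M := by exact_mod_cast hM
  have hM1 : (1 : ℝ) ≤ M := by exact_mod_cast hM
  obtain ⟨κ, hκ⟩ : ∃ κ, κ = c ^ 2 / (16 * (M : ℝ)) := ⟨_, rfl⟩
  have hκ0 : 0 < κ := by rw [hκ]; positivity
  have hκ1 : κ ≤ 1 := by
    rw [hκ, div_le_one (by positivity)]
    nlinarith
  obtain ⟨C₁, hC₁, hdiv⟩ := Pool.Agent.H510R2.divisor_bound κ hκ0
  refine ⟨12 * C ^ 2 * C₁, by positivity, fun μ ν _ _ X hX hμ hν => ?_⟩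
  rw [← hκ]
  have hX0 : 0 < X := by linarith
  obtain ⟨h, hh⟩ : ∃ h, h = X ^ κ := ⟨_, rfl⟩
  have hh1 : 1 ≤ h := by rw [hh]; exact Real.one_le_rpow hX hκ0.le
  have hhX : h ≤ C * X := by
    calc h ≤ X ^ (1 : ℝ) := by rw [hh]; exact Real.rpow_le_rpow_of_exponent_le hX hκ1
      _ = X := Real.rpow_one X
      _ ≤ C * X := by nlinarith
  rw [← hh]
  set E : Set (ℝ × ℝ) := {z : ℝ × ℝ | ∃ t t' : ℤ, |(t : ℝ) - z.1| ≤ h ∧ |(t' : ℝ) - z.2| ≤ h ∧
        (X ^ (c / 4) < (rr D t.natAbs : ℝ) ∧ rr D t.natAbs < Nat.gcd (rr D t.natAbs) t'.natAbs ^ M)} with hE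
  have hEm : MeasurableSet E := pair_meas h _
  obtain ⟨B, hB⟩ : ∃ B, B = 12 * C ^ 2 * C₁ * X ^ (-κ) := ⟨_, rfl⟩
  have hB0 : 0 ≤ B := by rw [hB]; positivity
  have hsec : ∀ x : ℝ, |x| ≤ C * X → ν.real (Prod.mk x ⁻¹' E) ≤ B := by
    intro x hx
    obtain ⟨T, hT⟩ : ∃ T : Finset ℤ, T = (Icc ⌈x - h⌉ ⌊x + h⌋).filter (fun t => t ≠ 0) := ⟨_, rfl⟩
    obtain ⟨G, hG⟩ : ∃ G : ℤ → Finset ℕ, G = fun t => t.natAbs.divisors.filter (fun g => X ^ (c / 4) < (g : ℝ) ^ M) := ⟨_, rfl⟩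
    have hTc : (T.card : ℝ) ≤ 3 * h := by
      have h1 : T.card ≤ (Icc ⌈x - h⌉ ⌊x + h⌋).card := by rw [hT]; exact card_filter_le _ _
      rw [Int.card_Icc] at h1
      have h2 : ((⌊x + h⌋ + 1 - ⌈x - h⌉).toNat : ℝ) ≤ 3 * h := by
        rcases le_total 0 (⌊x + h⌋ + 1 - ⌈x - h⌉) with h3 | h3
        · have h4 : (((⌊x + h⌋ + 1 - ⌈x - h⌉).toNat : ℤ) : ℝ) = ((⌊x + h⌋ + 1 - ⌈x - h⌉ : ℤ) : ℝ) := by
            rw [Int.toNat_of_nonneg h3]
          have h5 := Int.floor_le (x + h)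
          have h6 := Int.le_ceil (x - h)
          push_cast at h4
          rw [h4]
          linarith
        · rw [Int.toNat_eq_zero.2 h3]
          push_cast
          linarith
      exact le_trans (by exact_mod_cast h1) h2
    have hsub : Prod.mk x ⁻¹' E ⊆ ⋃ t ∈ T, ⋃ g ∈ G t, {z : ℝ | ∃ t' : ℤ, |(t' : ℝ) - z| ≤ h ∧ (g : ℤ) ∣ t'} := by
      rintro y ⟨t, t', h1, h2, h3, h4⟩
      rw [Set.mem_iUnion₂]
      have ht0 : t ≠ 0 := by
        rintro rfl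
        have h5 : rr D (0 : ℤ).natAbs = 1 := by simp [rr]
        rw [h5] at h3
        have := Real.one_le_rpow hX (by positivity : 0 ≤ c / 4)
        push_cast at h3
        linarith
      refine ⟨t, ?_, ?_⟩
      · rw [hT, mem_filter, mem_Icc]
        rw [abs_le] at h1
        exact ⟨⟨Int.ceil_le.2 (by linarith), Int.le_floor.2 (by linarith)⟩, ht0⟩
      · rw [Set.mem_iUnion₂]
        refine ⟨Nat.gcd (rr D t.natAbs) t'.natAbs, ?_, t', h2, ?_⟩
        · rw [hG]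
          simp only [mem_filter, Nat.mem_divisors]
          refine ⟨⟨(Nat.gcd_dvd_left _ _).trans (rr_dvd _ _), by omega⟩, h3.trans ?_⟩
          exact_mod_cast h4
        · rw [Int.natCast_dvd]
          exact Nat.gcd_dvd_right _ _
    have hg : ∀ t ∈ T, |(t : ℝ) - x| ≤ h → ∀ g ∈ G t, ν.real {z : ℝ | ∃ t' : ℤ, |(t' : ℝ) - z| ≤ h ∧ (g : ℤ) ∣ t'} ≤
        2 * C * h * X ^ (-(4 * κ)) := by
      intro t ht _ g hg
      rw [hG] at hg
      simp only [mem_filter, Nat.mem_divisors] at hg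
      obtain ⟨⟨hg1, hg2⟩, hg3⟩ := hg
      have hgpos : 1 ≤ g := Nat.pos_of_dvd_of_pos hg1 (Nat.pos_of_ne_zero hg2)
      have hg0 : (0 : ℝ) < g := by exact_mod_cast hgpos
      refine (hν.dv g h hgpos hh1).trans ?_
      have h1 : (g : ℝ) ^ (-c) ≤ X ^ (-(4 * κ)) := by
        have h2 : X ^ (c / 4 / M) ≤ g := by
          have h3 : (X ^ (c / 4)) ^ (1 / (M : ℝ)) ≤ ((g : ℝ) ^ M) ^ (1 / (M : ℝ)) :=
            Real.rpow_le_rpow (by positivity) hg3.le (by positivity)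
          rw [← Real.rpow_mul hX0.le, ← Real.rpow_natCast, ← Real.rpow_mul hg0.le] at h3
          have e1 : c / 4 * (1 / (M : ℝ)) = c / 4 / M := by ring
          have e2 : (M : ℝ) * (1 / M) = 1 := by field_simp
          rw [e1, e2, Real.rpow_one] at h3
          exact h3
        calc (g : ℝ) ^ (-c) ≤ (X ^ (c / 4 / M)) ^ (-c) := Real.rpow_le_rpow_of_nonpos (by positivity) h2 (by linarith)
          _ = X ^ (-(4 * κ)) := by
              rw [← Real.rpow_mul hX0.le]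
              congr 1
              rw [hκ]
              field_simp
              ring
      have h2 : X ^ (-c) ≤ X ^ (-(4 * κ)) := by
        apply Real.rpow_le_rpow_of_exponent_le hX
        have : 4 * κ ≤ c := by
          have e : 4 * κ = c * (c / (4 * M)) := by rw [hκ]; field_simp; ring
          rw [e]
          have h3 : c / (4 * M) ≤ 1 := by rw [div_le_one (by positivity)]; linarith
          nlinarith
        linarith
      calc C * h * ((g : ℝ) ^ (-c) + X ^ (-c)) ≤ C * h * (X ^ (-(4 * κ)) + X ^ (-(4 * κ))) := by gcongr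
        _ = _ := by ring
    have hGc : ∀ t ∈ T, |(t : ℝ) - x| ≤ h → ((G t).card : ℝ) ≤ 2 * C * C₁ * X ^ κ := by
      intro t ht hta
      have h1 : (G t).card ≤ t.natAbs.divisors.card := by rw [hG]; exact card_filter_le _ _
      rw [hT, mem_filter] at ht
      have h2 := hdiv t.natAbs (Int.natAbs_pos.2 ht.2)
      have h3 := natAbs_le hx hhX hta
      calc ((G t).card : ℝ) ≤ (t.natAbs.divisors.card : ℝ) := by exact_mod_cast h1
        _ ≤ C₁ * (t.natAbs : ℝ) ^ κ := h2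
        _ ≤ C₁ * (2 * C * X) ^ κ := by gcongr
        _ = C₁ * ((2 * C) ^ κ * X ^ κ) := by rw [Real.mul_rpow (by positivity) hX0.le]
        _ ≤ C₁ * ((2 * C) ^ (1 : ℝ) * X ^ κ) := by
            gcongr
            · linarith
        _ = _ := by rw [Real.rpow_one]; ring
    have hTh : ∀ t ∈ T, |(t : ℝ) - x| ≤ h := by
      intro t ht
      rw [hT, mem_filter, mem_Icc] at ht
      rw [abs_le]
      have h1 := Int.ceil_le.1 ht.1.1
      have h2 := Int.le_floor.1 ht.1.2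
      constructor <;> linarith
    calc ν.real (Prod.mk x ⁻¹' E) ≤ ν.real (⋃ t ∈ T, ⋃ g ∈ G t, {z : ℝ | ∃ t' : ℤ, |(t' : ℝ) - z| ≤ h ∧ (g : ℤ) ∣ t'}) :=
          measureReal_mono hsub (measure_ne_top _ _)
      _ ≤ ∑ t ∈ T, ν.real (⋃ g ∈ G t, {z : ℝ | ∃ t' : ℤ, |(t' : ℝ) - z| ≤ h ∧ (g : ℤ) ∣ t'}) := measureReal_biUnion_finset_le _ _
      _ ≤ ∑ t ∈ T, 2 * C * C₁ * X ^ κ * (2 * C * h * X ^ (-(4 * κ))) := by
          apply sum_le_sum
          intro t ht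
          refine (measureReal_biUnion_finset_le _ _).trans ?_
          refine (sum_le_sum fun g hg' => hg t ht (hTh t ht) g hg').trans ?_
          rw [sum_const, nsmul_eq_mul]
          exact mul_le_mul_of_nonneg_right (hGc t ht (hTh t ht)) (by positivity)
      _ = (T.card : ℝ) * (2 * C * C₁ * X ^ κ * (2 * C * h * X ^ (-(4 * κ)))) := by rw [sum_const, nsmul_eq_mul]
      _ ≤ 3 * h * (2 * C * C₁ * X ^ κ * (2 * C * h * X ^ (-(4 * κ)))) := mul_le_mul_of_nonneg_right hTc (by positivity)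
      _ = B := by
          rw [hB, hh]
          have e : X ^ κ * (X ^ κ * (X ^ κ * X ^ (-(4 * κ)))) = X ^ (-κ) := by
            rw [← Real.rpow_add hX0, ← Real.rpow_add hX0, ← Real.rpow_add hX0]
            congr 1
            ring
          rw [← e]
          ring
  have hfin : (μ.prod ν) E ≤ ENNReal.ofReal B := by
    rw [Measure.prod_apply hEm]
    have hae : ∀ᵐ x ∂μ, ν (Prod.mk x ⁻¹' E) ≤ ENNReal.ofReal B := by
      have h1 : ∀ᵐ x ∂μ, ¬ (C * X < |x|) := by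
        rw [ae_iff]
        simpa using hμ.bdd
      filter_upwards [h1] with x hx
      rw [← ENNReal.ofReal_toReal (measure_ne_top ν (Prod.mk x ⁻¹' E))]
      exact ENNReal.ofReal_le_ofReal (hsec x (not_lt.1 hx))
    calc ∫⁻ x, ν (Prod.mk x ⁻¹' E) ∂μ ≤ ∫⁻ _, ENNReal.ofReal B ∂μ := lintegral_mono_ae hae
      _ = ENNReal.ofReal B := by rw [lintegral_const, measure_univ, mul_one]
  rw [measureReal_def]
  calc ((μ.prod ν) E).toReal ≤ (ENNReal.ofReal B).toReal := ENNReal.toReal_mono ENNReal.ofReal_ne_top hfin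
    _ = B := ENNReal.toReal_ofReal hB0
    _ = _ := hB

/-- **Independent numbers**: the integers close to them are separated by large prime factors. -/
theorem multi (D M : ℕ) (hM : 1 ≤ M) (c C : ℝ) (hc : 0 < c) (hc1 : c ≤ 1) (hC : 1 ≤ C) : ∃ C' : ℝ, 0 < C' ∧
    ∀ {Ω : Type*} [MeasurableSpace Ω] (P : Measure Ω) [IsProbabilityMeasure P] (Z : Fin M → Ω → ℝ), (∀ l, Measurable (Z l)) →
      (∀ l l', l ≠ l' → IndepFun (Z l) (Z l') P) → ∀ X : ℝ, 1 ≤ X → (∀ l, Tame (P.map (Z l)) X c C) →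
      P.real {ω | ∃ t : Fin M → ℤ, (∀ l, |(t l : ℝ) - Z l ω| ≤ X ^ (c ^ 2 / (16 * M))) ∧ ¬ Sep D t} ≤
        C' * X ^ (-(c ^ 2 / (16 * M))) := by
  classical
  have hM0 : (0 : ℝ) < M := by exact_mod_cast hM
  have hM1 : (1 : ℝ) ≤ M := by exact_mod_cast hM
  obtain ⟨C₁, hC₁, h1⟩ := single D c C hc hc1 hC
  obtain ⟨C₂, hC₂, h2⟩ := pair D M hM c C hc hc1 hC
  refine ⟨M * C₁ + M * (M * C₂), by positivity, ?_⟩
  intro Ω _ P _ Z hZ hind X hX hT
  have hX0 : 0 < X := by linarith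
  obtain ⟨κ, hκ⟩ : ∃ κ, κ = c ^ 2 / (16 * (M : ℝ)) := ⟨_, rfl⟩
  rw [← hκ] at h2 ⊢
  have hκ0 : 0 < κ := by rw [hκ]; positivity
  have hκ8 : κ ≤ c / 8 := by
    rw [hκ, div_le_iff₀ (by positivity)]
    nlinarith
  obtain ⟨S, hS⟩ : ∃ S : Set ℝ, S = {z | ∃ t : ℤ, |(t : ℝ) - z| ≤ X ^ (c / 8) ∧ (rr D t.natAbs : ℝ) ≤ X ^ (c / 4)} := ⟨_, rfl⟩
  obtain ⟨E, hE⟩ : ∃ E : Set (ℝ × ℝ), E = {z : ℝ × ℝ | ∃ t t' : ℤ, |(t : ℝ) - z.1| ≤ X ^ κ ∧ |(t' : ℝ) - z.2| ≤ X ^ κ ∧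
        (X ^ (c / 4) < (rr D t.natAbs : ℝ) ∧ rr D t.natAbs < Nat.gcd (rr D t.natAbs) t'.natAbs ^ M)} := ⟨_, rfl⟩
  have hSm : MeasurableSet S := by rw [hS]; exact small_meas _ _
  have hEm : MeasurableSet E := by rw [hE]; exact pair_meas _ _
  have hprob : ∀ l, IsProbabilityMeasure (P.map (Z l)) := fun l => Measure.isProbabilityMeasure_map (hZ l).aemeasurable
  have hcov : {ω | ∃ t : Fin M → ℤ, (∀ l, |(t l : ℝ) - Z l ω| ≤ X ^ κ) ∧ ¬ Sep D t} ⊆
      (⋃ l ∈ (univ : Finset (Fin M)), Z l ⁻¹' S) ∪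
        ⋃ l ∈ (univ : Finset (Fin M)), ⋃ l' ∈ univ.erase l, (fun ω => (Z l ω, Z l' ω)) ⁻¹' E := by
    rintro ω ⟨t, ht, hsep⟩
    by_contra hcon
    rw [Set.mem_union, not_or, Set.mem_iUnion₂, Set.mem_iUnion₂] at hcon
    obtain ⟨hc1', hc2⟩ := hcon
    have hbig : ∀ l, X ^ (c / 4) < (rr D (t l).natAbs : ℝ) := by
      intro l
      by_contra hlt
      rw [not_lt] at hlt
      apply hc1'
      refine ⟨l, mem_univ _, ?_⟩
      rw [Set.mem_preimage, hS]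
      exact ⟨t l, (ht l).trans (Real.rpow_le_rpow_of_exponent_le hX hκ8), hlt⟩
    apply hsep
    apply sep_of
    · intro l
      have h3 := hbig l
      have h4 := Real.one_le_rpow hX (by positivity : 0 ≤ c / 4)
      have h5 : (1 : ℝ) < (rr D (t l).natAbs : ℝ) := by linarith
      exact_mod_cast h5
    · intro l l' hll
      by_contra hlt
      rw [not_le] at hlt
      apply hc2
      refine ⟨l, mem_univ _, ?_⟩
      rw [Set.mem_iUnion₂]
      refine ⟨l', mem_erase.2 ⟨hll.symm, mem_univ _⟩, ?_⟩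
      rw [Set.mem_preimage, hE]
      exact ⟨t l, t l', ht l, ht l', hbig l, hlt⟩
  have hs1 : ∀ l, P.real (Z l ⁻¹' S) ≤ C₁ * X ^ (-κ) := by
    intro l
    have := hprob l
    have h3 := h1 (P.map (Z l)) X hX (hT l)
    rw [← hS, map_measureReal_apply (hZ l) hSm] at h3
    refine h3.trans (mul_le_mul_of_nonneg_left ?_ hC₁.le)
    exact Real.rpow_le_rpow_of_exponent_le hX (by linarith)
  have hs2 : ∀ l l', l ≠ l' → P.real ((fun ω => (Z l ω, Z l' ω)) ⁻¹' E) ≤ C₂ * X ^ (-κ) := by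
    intro l l' hll
    have := hprob l
    have := hprob l'
    have h3 := h2 (P.map (Z l)) (P.map (Z l')) X hX (hT l) (hT l')
    rw [← hE, ← (indepFun_iff_map_prod_eq_prod_map_map (hZ l).aemeasurable (hZ l').aemeasurable).1 (hind l l' hll),
      map_measureReal_apply ((hZ l).prodMk (hZ l')) hEm] at h3
    exact h3
  have hpos : 0 ≤ C₂ * X ^ (-κ) := by positivity
  calc P.real {ω | ∃ t : Fin M → ℤ, (∀ l, |(t l : ℝ) - Z l ω| ≤ X ^ κ) ∧ ¬ Sep D t}
      ≤ P.real ((⋃ l ∈ (univ : Finset (Fin M)), Z l ⁻¹' S) ∪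
        ⋃ l ∈ (univ : Finset (Fin M)), ⋃ l' ∈ univ.erase l, (fun ω => (Z l ω, Z l' ω)) ⁻¹' E) := measureReal_mono hcov (measure_ne_top _ _)
    _ ≤ P.real (⋃ l ∈ (univ : Finset (Fin M)), Z l ⁻¹' S) +
        P.real (⋃ l ∈ (univ : Finset (Fin M)), ⋃ l' ∈ univ.erase l, (fun ω => (Z l ω, Z l' ω)) ⁻¹' E) := measureReal_union_le _ _
    _ ≤ ∑ l : Fin M, C₁ * X ^ (-κ) + ∑ l : Fin M, M * (C₂ * X ^ (-κ)) := by
        apply add_le_add
        · refine (measureReal_biUnion_finset_le _ _).trans (sum_le_sum fun l _ => hs1 l)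
        · refine (measureReal_biUnion_finset_le _ _).trans (sum_le_sum fun l _ => ?_)
          refine (measureReal_biUnion_finset_le _ _).trans ?_
          calc ∑ l' ∈ univ.erase l, P.real ((fun ω => (Z l ω, Z l' ω)) ⁻¹' E)
              ≤ ∑ l' ∈ univ.erase l, C₂ * X ^ (-κ) := by
                apply sum_le_sum
                intro l' hl'
                exact hs2 l l' (Ne.symm (mem_erase.1 hl').1)
            _ ≤ ∑ l' : Fin M, C₂ * X ^ (-κ) := sum_le_sum_of_subset_of_nonneg (erase_subset _ _) fun _ _ _ => hpos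
            _ = _ := by rw [sum_const, card_univ, Fintype.card_fin, nsmul_eq_mul]
    _ = _ := by
        rw [sum_const, sum_const, card_univ, Fintype.card_fin, nsmul_eq_mul, nsmul_eq_mul]
        ring

end Pool.Agent.HP25.PS
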