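import Pool.Agent.HP25.PS.B
import Pool.Agent.HP25.FA.C

set_option autoImplicit false

/-! Multiples of random real numbers whose law has a Fourier transform of polynomial decay satisfy the condition `Tame`. -/

namespace Pool.Agent.HP25.PS

open Finset MeasureTheory
open Pool.Agent.H807R2.Dav
open Pool.Agent.HP25.FD (Decay ee_charFun ee_integrable)
open Pool.Agent.HP25.FA (ker ker_nonneg ker_le ker_low ker_cont ker_eq)

lemma decay_le (ν : Measure ℝ) [IsProbabilityMeasure ν] (C δ δ' : ℝ) (hδ' : 0 < δ') (hle : δ' ≤ δ) (h : Decay ν C δ) :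
    Decay ν (max C 1) δ' := by
  intro t
  rcases le_total 1 |t| with ht | ht
  · refine le_trans ?_ ((h t).trans (le_max_left _ _))
    exact mul_le_mul_of_nonneg_left (Real.rpow_le_rpow_of_exponent_le ht hle) (norm_nonneg _)
  · refine le_trans ?_ (le_max_right _ _)
    have h1 : ‖charFun ν t‖ ≤ 1 := by
      have := norm_charFun_le (μ := ν) t
      simpa using this
    have h2 : |t| ^ δ' ≤ 1 := Real.rpow_le_one (abs_nonneg _) ht hδ'.le
    exact mul_le_one₀ h1 (Real.rpow_nonneg (abs_nonneg _) _) h2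

lemma sum_pow (δ : ℝ) (hδ : 0 < δ) (hδ1 : δ ≤ 1 / 2) (K : ℕ) :
    ∑ j ∈ range K, (if j = 0 then 0 else (j : ℝ) ^ (-δ)) ≤ 4 * (K : ℝ) ^ (1 - δ) := by
  induction K with
  | zero =>
    have h0 : (0 : ℝ) ≤ ((0 : ℕ) : ℝ) ^ (1 - δ) := Real.rpow_nonneg (Nat.cast_nonneg _) _
    rw [range_zero, sum_empty]
    linarith
  | succ K ih =>
    rw [sum_range_succ]
    rcases Nat.eq_zero_or_pos K with rfl | hK
    · rw [range_zero, sum_empty, if_pos rfl]
      have h0 : (0 : ℝ) ≤ ((0 + 1 : ℕ) : ℝ) ^ (1 - δ) := Real.rpow_nonneg (Nat.cast_nonneg _) _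
      linarith
    · rw [if_neg (by omega)]
      have hK0 : (0 : ℝ) < K := by exact_mod_cast hK
      have hK1 : (1 : ℝ) ≤ K := by exact_mod_cast hK
      have h1 : ((K : ℝ) / (K + 1)) ^ (1 - δ) ≤ 1 + (1 - δ) * (-(1 / ((K : ℝ) + 1))) := by
        have e : (K : ℝ) / (K + 1) = 1 + -(1 / ((K : ℝ) + 1)) := by field_simp; ring
        rw [e]
        apply rpow_one_add_le_one_add_mul_self
        · have : 1 / ((K : ℝ) + 1) ≤ 1 := by rw [div_le_one (by positivity)]; linarith
          linarith
        · linarith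
        · linarith
      have h2 : (K : ℝ) ^ (1 - δ) = ((K : ℝ) / (K + 1)) ^ (1 - δ) * ((K : ℝ) + 1) ^ (1 - δ) := by
        rw [← Real.mul_rpow (by positivity) (by positivity)]
        congr 1
        field_simp
      have h3 : ((K : ℝ) + 1) ^ (1 - δ) = ((K : ℝ) + 1) * ((K : ℝ) + 1) ^ (-δ) := by
        rw [show (1 : ℝ) - δ = 1 + -δ by ring, Real.rpow_add (by positivity), Real.rpow_one]
      have h4 : (K : ℝ) ^ (-δ) ≤ 2 * ((K : ℝ) + 1) ^ (-δ) := by
        have h5 : (2 * (K : ℝ)) ^ (-δ) ≤ ((K : ℝ) + 1) ^ (-δ) :=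
          Real.rpow_le_rpow_of_nonpos (by positivity) (by linarith) (by linarith)
        have h6 : (2 * (K : ℝ)) ^ (-δ) = (2 : ℝ) ^ (-δ) * (K : ℝ) ^ (-δ) := Real.mul_rpow (by norm_num) hK0.le
        have h7 : (1 / 2 : ℝ) ≤ (2 : ℝ) ^ (-δ) := by
          calc (1 / 2 : ℝ) = (2 : ℝ) ^ (-1 : ℝ) := by rw [Real.rpow_neg_one]; norm_num
            _ ≤ _ := Real.rpow_le_rpow_of_exponent_le (by norm_num) (by linarith)
        have h8 : 0 < (K : ℝ) ^ (-δ) := Real.rpow_pos_of_pos hK0 _
        rw [h6] at h5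
        nlinarith
      obtain ⟨u, hu⟩ : ∃ u, u = ((K : ℝ) + 1) ^ (-δ) := ⟨_, rfl⟩
      have hu0 : 0 < u := by rw [hu]; positivity
      have h9 : (K : ℝ) ^ (1 - δ) ≤ (K + 1 - (1 - δ)) * u := by
        rw [h2, h3, ← hu]
        calc ((K : ℝ) / (K + 1)) ^ (1 - δ) * (((K : ℝ) + 1) * u) ≤ (1 + (1 - δ) * (-(1 / ((K : ℝ) + 1)))) * (((K : ℝ) + 1) * u) := by
              apply mul_le_mul_of_nonneg_right h1 (by positivity)
          _ = _ := by field_simp; ring
      push_cast
      rw [h3, ← hu]
      rw [← hu] at h4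
      nlinarith

/-- the basic estimate -/
lemma basic (ν : Measure ℝ) [IsProbabilityMeasure ν] (C δ : ℝ) (hδ : 0 < δ) (hδ1 : δ ≤ 1 / 2) (hdec : Decay ν C δ)
    (θ : ℝ) (hθ : 0 < θ) (β : ℝ) (K : ℕ) (hK : 1 ≤ K) :
    ν.real {x | ∃ n : ℤ, |θ * x - β - n| ≤ 1 / (8 * K)} ≤ 4 / K + 32 * C * (K * θ) ^ (-δ) := by
  have hK0 : (0 : ℝ) < K := by exact_mod_cast hK
  have hC0 : 0 ≤ C := le_trans (by positivity) (hdec 0)
  have hint : Integrable (fun x => ker K (4 * K * (θ * x - β))) ν := by
    apply Integrable.of_bound (C := 1)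
    · exact ((ker_cont K).comp (by fun_prop)).aestronglyMeasurable
    · filter_upwards with x
      rw [Real.norm_eq_abs, abs_of_nonneg (ker_nonneg _ _)]
      exact ker_le _ _
  have h1 := mul_meas_ge_le_integral_of_nonneg (μ := ν) (f := fun x => ker K (4 * K * (θ * x - β)))
    (Filter.Eventually.of_forall fun x => ker_nonneg _ _) hint (1 / 16)
  have h2 : {x | ∃ n : ℤ, |θ * x - β - n| ≤ 1 / (8 * K)} ⊆ {x | 1 / 16 ≤ ker K (4 * K * (θ * x - β))} := by
    rintro x ⟨n, hn⟩
    have h3 : ker K (4 * K * (θ * x - β)) = ker K (4 * K * (θ * x - β - n)) := by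
      unfold ker
      congr 3
      apply sum_congr rfl
      intro a _
      have h4 : (a : ℝ) * (4 * K * (θ * x - β) / (4 * K)) = a * (4 * K * (θ * x - β - n) / (4 * K)) + ((a * n : ℤ) : ℝ) := by
        push_cast
        field_simp
        ring
      rw [h4, Pool.Agent.H807R2.Dav.ee_add_int]
    show 1 / 16 ≤ ker K (4 * K * (θ * x - β))
    rw [h3]
    apply ker_low K hK
    rw [abs_mul, abs_of_pos (by positivity : (0 : ℝ) < 4 * K)]
    calc 4 * (K : ℝ) * |θ * x - β - n| ≤ 4 * K * (1 / (8 * K)) := by gcongr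
      _ = 1 / 2 := by field_simp; norm_num
  have h3 := measureReal_mono (μ := ν) h2 (measure_ne_top ν _)
  -- the integral
  have h4 : ‖((∫ x, ker K (4 * K * (θ * x - β)) ∂ν : ℝ) : ℂ)‖ ≤ 1 / (4 * (K : ℝ) ^ 2) * (K + K * (2 * (C * θ ^ (-δ) * (4 * (K : ℝ) ^ (1 - δ))))) := by
    have e1 : ((∫ x, ker K (4 * K * (θ * x - β)) ∂ν : ℝ) : ℂ) =
        1 / (4 * (K : ℂ) ^ 2) * ∑ a ∈ range K, ∑ a' ∈ range K, ee (-(((a : ℝ) - a') * β)) * ∫ x, ee ((((a : ℝ) - a') * θ) * x) ∂ν := by
      rw [← integral_complex_ofReal]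
      simp only [ker_eq]
      have e2 : ∀ x : ℝ, 1 / (4 * (K : ℂ) ^ 2) * ∑ a ∈ range K, ∑ a' ∈ range K, ee (((a : ℝ) - a') * (4 * K * (θ * x - β) / (4 * K))) =
          1 / (4 * (K : ℂ) ^ 2) * ∑ a ∈ range K, ∑ a' ∈ range K, ee (-(((a : ℝ) - a') * β)) * ee ((((a : ℝ) - a') * θ) * x) := by
        intro x
        congr 1
        apply sum_congr rfl
        intro a _
        apply sum_congr rfl
        intro a' _
        rw [← ee_add]
        congr 1
        field_simp
        ring
      simp only [e2]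
      rw [integral_const_mul, integral_finsetSum]
      · congr 1
        apply sum_congr rfl
        intro a _
        rw [integral_finsetSum]
        · apply sum_congr rfl
          intro a' _
          rw [integral_const_mul]
        · intro a' _
          exact (ee_integrable ν _).const_mul _
      · intro a _
        apply integrable_finsetSum
        intro a' _
        exact (ee_integrable ν _).const_mul _
    rw [e1, norm_mul]
    have e3 : ‖(1 / (4 * (K : ℂ) ^ 2))‖ = 1 / (4 * (K : ℝ) ^ 2) := by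
      rw [norm_div, norm_one, norm_mul, norm_pow, Complex.norm_natCast]
      norm_num
    rw [e3]
    apply mul_le_mul_of_nonneg_left _ (by positivity)
    refine (norm_sum_le _ _).trans ?_
    have e4 : ∀ a ∈ range K, ‖∑ a' ∈ range K, ee (-(((a : ℝ) - a') * β)) * ∫ x, ee ((((a : ℝ) - a') * θ) * x) ∂ν‖ ≤
        1 + 2 * (C * θ ^ (-δ) * (4 * (K : ℝ) ^ (1 - δ))) := by
      intro a ha
      rw [mem_range] at ha
      obtain ⟨w, hw⟩ : ∃ w : ℕ → ℝ, w = fun j : ℕ => if j = 0 then 0 else (j : ℝ) ^ (-δ) := ⟨_, rfl⟩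
      have hw0 : ∀ j, 0 ≤ w j := by
        intro j
        rw [hw]
        dsimp only
        split_ifs
        · exact le_rfl
        · positivity
      have e5 : ∀ a' ∈ range K, ‖ee (-(((a : ℝ) - a') * β)) * ∫ x, ee ((((a : ℝ) - a') * θ) * x) ∂ν‖ ≤
          (if a' = a then 1 else 0) + C * θ ^ (-δ) * (w (a - a') + w (a' - a)) := by
        intro a' _
        rw [norm_mul, norm_ee, one_mul]
        by_cases haa : a' = a
        · rw [if_pos haa]
          have h5 : ‖∫ x, ee ((((a : ℝ) - a') * θ) * x) ∂ν‖ ≤ 1 := by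
            rw [haa]
            simp only [sub_self, zero_mul, ee_zero]
            rw [integral_const]
            simp
          have h6 : 0 ≤ C * θ ^ (-δ) * (w (a - a') + w (a' - a)) := by
            have := hw0 (a - a')
            have := hw0 (a' - a)
            positivity
          linarith
        · rw [if_neg haa, zero_add, ee_charFun]
          obtain ⟨j, hj, hj0, hjw⟩ : ∃ j : ℕ, |(a : ℝ) - a'| = j ∧ j ≠ 0 ∧ (j : ℝ) ^ (-δ) ≤ w (a - a') + w (a' - a) := by
            rcases lt_or_gt_of_ne haa with h5 | h5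
            · refine ⟨a - a', ?_, by omega, ?_⟩
              · rw [Nat.cast_sub h5.le, abs_of_nonneg]
                have : (a' : ℝ) ≤ a := by exact_mod_cast h5.le
                linarith
              · have h6 : w (a - a') = ((a - a' : ℕ) : ℝ) ^ (-δ) := by
                  rw [hw]
                  dsimp only
                  rw [if_neg (by omega)]
                rw [← h6]
                linarith [hw0 (a' - a)]
            · refine ⟨a' - a, ?_, by omega, ?_⟩
              · rw [Nat.cast_sub (by omega), abs_of_nonpos]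
                · ring
                have : (a : ℝ) ≤ a' := by exact_mod_cast (by omega : a ≤ a')
                linarith
              · have h6 : w (a' - a) = ((a' - a : ℕ) : ℝ) ^ (-δ) := by
                  rw [hw]
                  dsimp only
                  rw [if_neg (by omega)]
                rw [← h6]
                linarith [hw0 (a - a')]
          have hj1 : (0 : ℝ) < j := by exact_mod_cast Nat.pos_of_ne_zero hj0
          obtain ⟨τ, hτ⟩ : ∃ τ, τ = 2 * Real.pi * (((a : ℝ) - a') * θ) := ⟨_, rfl⟩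
          rw [← hτ]
          have h7 : j * θ ≤ |τ| := by
            rw [hτ, abs_mul (2 * Real.pi), abs_of_pos (by positivity : 0 < 2 * Real.pi), abs_mul _ θ, abs_of_pos hθ, hj]
            have h9 : 1 ≤ 2 * Real.pi := by linarith [Real.pi_gt_three]
            have : 0 < (j : ℝ) * θ := by positivity
            nlinarith
          have h10 := hdec τ
          have h11 : 0 < j * θ := by positivity
          have h12 : (j * θ) ^ δ ≤ |τ| ^ δ := Real.rpow_le_rpow h11.le h7 hδ.le
          have h13 : 0 < (j * θ) ^ δ := Real.rpow_pos_of_pos h11 _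
          have h14 : ‖charFun ν τ‖ ≤ C * (j * θ) ^ (-δ) := by
            rw [Real.rpow_neg h11.le, ← div_eq_mul_inv, le_div_iff₀ h13]
            refine le_trans ?_ h10
            exact mul_le_mul_of_nonneg_left h12 (norm_nonneg _)
          calc ‖charFun ν τ‖ ≤ C * (j * θ) ^ (-δ) := h14
            _ = C * θ ^ (-δ) * (j : ℝ) ^ (-δ) := by rw [Real.mul_rpow hj1.le hθ.le]; ring
            _ ≤ _ := by apply mul_le_mul_of_nonneg_left hjw (by positivity)
      have hsum := sum_pow δ hδ hδ1 K
      have e6 : ∑ a' ∈ range K, w (a - a') ≤ 4 * (K : ℝ) ^ (1 - δ) := by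
        refine le_trans ?_ hsum
        have h5 : ∑ a' ∈ range K, w (a - a') = ∑ a' ∈ range a, w (a - a') := by
          symm
          apply sum_subset (range_subset_range.2 ha.le)
          intro x _ hx
          rw [mem_range, not_lt] at hx
          rw [Nat.sub_eq_zero_of_le hx, hw]
          simp
        rw [h5]
        have h6 : ∑ a' ∈ range a, w (a - a') = ∑ j ∈ range a, w (j + 1) := by
          rw [← sum_range_reflect]
          apply sum_congr rfl
          intro j hj
          rw [mem_range] at hj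
          congr 1
          omega
        rw [h6]
        have h7 : ∑ j ∈ range (a + 1), w j = ∑ j ∈ range a, w (j + 1) + w 0 := sum_range_succ' _ _
        have h8 : w 0 = 0 := by rw [hw]; simp
        rw [h8, add_zero] at h7
        rw [← h7]
        rw [hw] at hw0 ⊢
        exact sum_le_sum_of_subset_of_nonneg (range_subset_range.2 (by omega)) fun j _ _ => hw0 j
      have e7 : ∑ a' ∈ range K, w (a' - a) ≤ 4 * (K : ℝ) ^ (1 - δ) := by
        refine le_trans ?_ hsum
        have h5 : ∑ a' ∈ range K, w (a' - a) = ∑ a' ∈ Ico a K, w (a' - a) := by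
          symm
          apply sum_subset
          · intro x hx
            rw [mem_Ico] at hx
            exact mem_range.2 hx.2
          · intro x hx hx'
            rw [mem_range] at hx
            rw [mem_Ico, not_and_or] at hx'
            rw [Nat.sub_eq_zero_of_le (by omega), hw]
            simp
        rw [h5, sum_Ico_eq_sum_range]
        have h6 : ∑ k ∈ range (K - a), w (a + k - a) = ∑ k ∈ range (K - a), w k := by
          apply sum_congr rfl
          intro k _
          congr 1
          omega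
        rw [h6]
        rw [hw] at hw0 ⊢
        exact sum_le_sum_of_subset_of_nonneg (range_subset_range.2 (by omega)) fun j _ _ => hw0 j
      calc ‖∑ a' ∈ range K, ee (-(((a : ℝ) - a') * β)) * ∫ x, ee ((((a : ℝ) - a') * θ) * x) ∂ν‖
          ≤ ∑ a' ∈ range K, ((if a' = a then 1 else 0) + C * θ ^ (-δ) * (w (a - a') + w (a' - a))) :=
            (norm_sum_le _ _).trans (sum_le_sum e5)
        _ = 1 + C * θ ^ (-δ) * (∑ a' ∈ range K, w (a - a') + ∑ a' ∈ range K, w (a' - a)) := by
            rw [sum_add_distrib, ← mul_sum, sum_add_distrib, sum_ite_eq' (range K) a, if_pos (mem_range.2 ha)]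
        _ ≤ 1 + C * θ ^ (-δ) * (4 * (K : ℝ) ^ (1 - δ) + 4 * (K : ℝ) ^ (1 - δ)) := by gcongr
        _ = _ := by ring
    calc ∑ a ∈ range K, ‖∑ a' ∈ range K, ee (-(((a : ℝ) - a') * β)) * ∫ x, ee ((((a : ℝ) - a') * θ) * x) ∂ν‖
        ≤ ∑ a ∈ range K, (1 + 2 * (C * θ ^ (-δ) * (4 * (K : ℝ) ^ (1 - δ)))) := sum_le_sum e4
      _ = _ := by rw [sum_const, card_range, nsmul_eq_mul]; ring
  rw [Complex.norm_real] at h4
  have h5 := (le_abs_self _).trans h4
  have h6 : ν.real {x | ∃ n : ℤ, |θ * x - β - n| ≤ 1 / (8 * K)} ≤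
      16 * (1 / (4 * (K : ℝ) ^ 2) * (K + K * (2 * (C * θ ^ (-δ) * (4 * (K : ℝ) ^ (1 - δ)))))) := by linarith
  refine h6.trans (le_of_eq ?_)
  have e8 : (K : ℝ) ^ (1 - δ) = K * (K : ℝ) ^ (-δ) := by
    rw [show (1 : ℝ) - δ = 1 + -δ by ring, Real.rpow_add hK0, Real.rpow_one]
  rw [e8, Real.mul_rpow hK0.le hθ.le]
  field_simp
  ring

/-- **Multiples of random numbers of positive Fourier dimension** -/
theorem tame_decay (C δ A : ℝ) (hδ : 0 < δ) : ∃ c C' : ℝ, 0 < c ∧ c ≤ 1 ∧ 1 ≤ C' ∧
    ∀ (ν : Measure ℝ) [IsProbabilityMeasure ν], Decay ν C δ → ν {x | A < |x|} = 0 → ∀ lam : ℝ, 1 ≤ lam →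
      Tame (ν.map (fun x => lam * x)) lam c C' := by
  obtain ⟨c, hc⟩ : ∃ c, c = min δ (1 / 2) := ⟨_, rfl⟩
  have hc0 : 0 < c := by rw [hc]; exact lt_min hδ (by norm_num)
  have hcδ : c ≤ δ := by rw [hc]; exact min_le_left _ _
  have hc2 : c ≤ 1 / 2 := by rw [hc]; exact min_le_right _ _
  obtain ⟨C₁, hC₁⟩ : ∃ C₁, C₁ = max C 1 := ⟨_, rfl⟩
  have hC1 : 1 ≤ C₁ := by rw [hC₁]; exact le_max_right _ _
  refine ⟨c, max A (64 + 512 * C₁), hc0, by linarith, le_trans (by linarith) (le_max_right _ _), fun ν _ hdec hA lam hlam => ?_⟩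
  have hlam0 : 0 < lam := by linarith
  have hdec' : Decay ν C₁ c := by rw [hC₁]; exact decay_le ν C δ c hc0 hcδ hdec
  obtain ⟨C', hC'⟩ : ∃ C', C' = max A (64 + 512 * C₁) := ⟨_, rfl⟩
  have hC'1 : 64 + 512 * C₁ ≤ C' := by rw [hC']; exact le_max_right _ _
  have hC'A : A ≤ C' := by rw [hC']; exact le_max_left _ _
  have hC'0 : 0 < C' := by linarith
  rw [← hC']
  have hmeas : Measurable (fun x : ℝ => lam * x) := by fun_prop
  -- the general estimate
  have key : ∀ (r h β : ℝ), 1 ≤ r → 1 ≤ h → r ≤ r → ν.real {x | ∃ n : ℤ, |lam * x - β - r * n| ≤ h} ≤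
      C' * h * (r ^ (-c) + lam ^ (-c)) := by
    intro r h β hr hh _
    have hr0 : 0 < r := by linarith
    have hh0 : 0 < h := by linarith
    rcases lt_or_ge r (8 * h) with h1 | h1
    · have h2 : r ^ (-(1 : ℝ)) ≤ r ^ (-c) := Real.rpow_le_rpow_of_exponent_le hr (by linarith)
      rw [Real.rpow_neg_one] at h2
      have h3 : 1 ≤ 8 * h * r⁻¹ := by
        rw [← div_eq_mul_inv, one_le_div hr0]
        exact h1.le
      have h4 : 0 ≤ lam ^ (-c) := by positivity
      calc ν.real {x | ∃ n : ℤ, |lam * x - β - r * n| ≤ h} ≤ 1 := measureReal_le_one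
        _ ≤ 8 * h * r⁻¹ := h3
        _ ≤ 8 * h * r ^ (-c) := by gcongr
        _ ≤ C' * h * r ^ (-c) := by gcongr; linarith
        _ ≤ _ := by
            apply mul_le_mul_of_nonneg_left _ (by positivity)
            linarith
    · obtain ⟨K, hK⟩ : ∃ K : ℕ, K = ⌊r / (8 * h)⌋₊ := ⟨_, rfl⟩
      have hq1 : 1 ≤ r / (8 * h) := by rw [one_le_div (by positivity)]; exact h1
      have hK1 : 1 ≤ K := by rw [hK]; exact Nat.le_floor (by exact_mod_cast hq1)
      have hKle : (K : ℝ) ≤ r / (8 * h) := by rw [hK]; exact Nat.floor_le (by positivity)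
      have hKge : r / (8 * h) < K + 1 := by rw [hK]; exact Nat.lt_floor_add_one _
      have hKr : (1 : ℝ) ≤ K := by exact_mod_cast hK1
      have hK0 : (0 : ℝ) < K := by linarith
      have hK16 : r / (16 * h) ≤ K := by
        have : r / (16 * h) = r / (8 * h) / 2 := by field_simp; norm_num
        rw [this]
        linarith
      have hb := basic ν C₁ c hc0 hc2 hdec' (lam / r) (by positivity) (β / r) K hK1
      have hsub : {x | ∃ n : ℤ, |lam * x - β - r * n| ≤ h} ⊆ {x | ∃ n : ℤ, |lam / r * x - β / r - n| ≤ 1 / (8 * K)} := by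
        rintro x ⟨n, hn⟩
        refine ⟨n, ?_⟩
        have e : lam / r * x - β / r - n = (lam * x - β - r * n) / r := by field_simp
        rw [e, abs_div, abs_of_pos hr0, div_le_iff₀ hr0]
        refine hn.trans ?_
        rw [div_mul_eq_mul_div, one_mul, le_div_iff₀ (by positivity)]
        rw [le_div_iff₀ (by positivity)] at hKle
        linarith
      have h2 : 4 / (K : ℝ) ≤ 64 * h * r ^ (-c) := by
        calc 4 / (K : ℝ) ≤ 4 / (r / (16 * h)) := by gcongr
          _ = 64 * h * r ^ (-(1 : ℝ)) := by rw [Real.rpow_neg_one]; field_simp; norm_num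
          _ ≤ _ := by
              gcongr 64 * h * ?_
              exact Real.rpow_le_rpow_of_exponent_le hr (by linarith)
      have h3 : (K * (lam / r)) ^ (-c) ≤ 16 * h * lam ^ (-c) := by
        have h4 : lam / (16 * h) ≤ K * (lam / r) := by
          calc lam / (16 * h) = r / (16 * h) * (lam / r) := by field_simp
            _ ≤ _ := by gcongr
        calc (K * (lam / r)) ^ (-c) ≤ (lam / (16 * h)) ^ (-c) :=
              Real.rpow_le_rpow_of_nonpos (by positivity) h4 (by linarith)
          _ = (16 * h) ^ c * lam ^ (-c) := by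
              rw [Real.div_rpow hlam0.le (by positivity), Real.rpow_neg (by positivity : (0 : ℝ) ≤ 16 * h)]
              field_simp
          _ ≤ (16 * h) ^ (1 : ℝ) * lam ^ (-c) := by
              apply mul_le_mul_of_nonneg_right _ (by positivity)
              exact Real.rpow_le_rpow_of_exponent_le (by linarith) (by linarith)
          _ = _ := by rw [Real.rpow_one]
      calc ν.real {x | ∃ n : ℤ, |lam * x - β - r * n| ≤ h} ≤ _ := measureReal_mono hsub (measure_ne_top _ _)
        _ ≤ 4 / K + 32 * C₁ * (K * (lam / r)) ^ (-c) := hb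
        _ ≤ 64 * h * r ^ (-c) + 32 * C₁ * (16 * h * lam ^ (-c)) := by gcongr
        _ ≤ C' * h * r ^ (-c) + C' * h * lam ^ (-c) := by
            have h5 : 0 ≤ r ^ (-c) := by positivity
            have h6 : 0 ≤ lam ^ (-c) := by positivity
            have h7 : 64 * h * r ^ (-c) ≤ C' * h * r ^ (-c) := by gcongr; linarith
            have h8 : 32 * C₁ * (16 * h * lam ^ (-c)) ≤ C' * h * lam ^ (-c) := by
              calc 32 * C₁ * (16 * h * lam ^ (-c)) = (512 * C₁) * h * lam ^ (-c) := by ring
                _ ≤ _ := by gcongr; linarith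
            linarith
        _ = _ := by ring
  refine ⟨?_, ?_, ?_⟩
  · rw [Measure.map_apply hmeas (measurableSet_lt measurable_const (by fun_prop))]
    refine measure_mono_null ?_ hA
    intro x hx
    simp only [Set.mem_preimage, Set.mem_ofPred_eq, abs_mul, abs_of_pos hlam0] at hx ⊢
    have h1 : C' < |x| := by
      rw [mul_comm] at hx
      exact lt_of_mul_lt_mul_left hx hlam0.le
    linarith
  · intro s h hh
    have hm : MeasurableSet {z : ℝ | |(s : ℝ) - z| ≤ h} := measurableSet_le (by fun_prop) measurable_const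
    rw [map_measureReal_apply hmeas hm]
    -- take a large modulus
    have h1 : ∀ r : ℝ, 1 ≤ r → ν.real ((fun x => lam * x) ⁻¹' {z : ℝ | |(s : ℝ) - z| ≤ h}) ≤ C' * h * (r ^ (-c) + lam ^ (-c)) := by
      intro r hr
      refine (measureReal_mono ?_ (measure_ne_top _ _)).trans (key r h s hr hh le_rfl)
      intro x hx
      simp only [Set.mem_preimage, Set.mem_ofPred_eq] at hx ⊢
      refine ⟨0, ?_⟩
      push_cast
      rw [mul_zero, sub_zero, abs_sub_comm]
      exact hx
    -- the limit
    have h2 : Filter.Tendsto (fun r : ℝ => C' * h * (r ^ (-c) + lam ^ (-c))) Filter.atTop (nhds (C' * h * (0 + lam ^ (-c)))) :=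
      ((tendsto_rpow_neg_atTop hc0).add_const _).const_mul _
    rw [zero_add] at h2
    exact ge_of_tendsto h2 (by filter_upwards [Filter.eventually_ge_atTop 1] with r hr using h1 r hr)
  · intro r h hr hh
    rw [map_measureReal_apply hmeas (small_meas h _)]
    have h1 := key r h 0 (by exact_mod_cast hr) hh le_rfl
    refine (measureReal_mono ?_ (measure_ne_top _ _)).trans h1
    intro x hx
    simp only [Set.mem_preimage, Set.mem_ofPred_eq] at hx ⊢
    obtain ⟨t, ht, n, hn⟩ := hx
    refine ⟨n, ?_⟩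
    rw [hn] at ht
    push_cast at ht
    rw [sub_zero, abs_sub_comm]
    exact ht

end Pool.Agent.HP25.PS
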