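import Pool.Agent.HP25.PS.C

set_option autoImplicit false

/-! Independent random numbers of positive Fourier dimension: almost surely, the integers close to their multiples are separated
by large prime factors. -/

namespace Pool.Agent.HP25.PS

open Finset MeasureTheory ProbabilityTheory Filter
open Pool.Agent.HP25.FD (Decay)

/-- the probability that integers close to independent random numbers are not separated, and the exponent of the windows -/
theorem prob_sep (C δ A : ℝ) (hδ : 0 < δ) : ∃ κ : ℕ → ℝ, (∀ M, 0 < κ M) ∧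
    ∀ D M : ℕ, ∃ C₂ : ℝ, 0 < C₂ ∧ ∀ {Ω : Type*} [MeasurableSpace Ω] (P : Measure Ω) [IsProbabilityMeasure P] (X : Fin M → Ω → ℝ),
      (∀ l, Measurable (X l)) → (∀ l l', l ≠ l' → IndepFun (X l) (X l') P) → (∀ l, Decay (P.map (X l)) C δ) →
      (∀ l, ∀ᵐ ω ∂P, |X l ω| ≤ A) → ∀ lam : ℝ, 1 ≤ lam →
        P {ω | ∃ t : Fin M → ℤ, (∀ l, |(t l : ℝ) - lam * X l ω| ≤ lam ^ κ M) ∧ ¬ Sep D t} ≤
          ENNReal.ofReal (C₂ * lam ^ (-κ M)) := by
  classical
  obtain ⟨c, C', hc, hc1, hC', htame⟩ := tame_decay C δ A hδ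
  refine ⟨fun M => c ^ 2 / (16 * ((max M 1 : ℕ) : ℝ)), fun M => ?_, fun D M => ?_⟩
  · have : (0 : ℝ) < ((max M 1 : ℕ) : ℝ) := by exact_mod_cast (by omega : 0 < max M 1)
    positivity
  rcases Nat.eq_zero_or_pos M with rfl | hM
  · refine ⟨1, one_pos, fun P _ X _ _ _ _ lam _ => ?_⟩
    have : ∀ s : Set _, (∀ ω, ω ∉ s) → P s ≤ ENNReal.ofReal (1 * lam ^ (-(c ^ 2 / (16 * ((max 0 1 : ℕ) : ℝ))))) := by
      intro s hs
      rw [Set.eq_empty_of_forall_notMem hs, measure_empty]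
      exact zero_le
    apply this
    rintro ω ⟨t, _, h⟩
    exact h fun l => l.elim0
  have hmax : max M 1 = M := max_eq_left hM
  simp only [hmax]
  obtain ⟨C₂, hC₂, hm⟩ := multi D M hM c C' hc hc1 hC'
  refine ⟨C₂, hC₂, fun P _ X hX hind hdec hA lam hlam => ?_⟩
  have h1 := hm P (fun l ω => lam * X l ω) (fun l => (hX l).const_mul _) (fun l l' hll => ?_) lam hlam (fun l => ?_)
  · rw [measureReal_def] at h1
    rw [← ENNReal.ofReal_toReal (measure_ne_top P {ω | ∃ t : Fin M → ℤ, (∀ l, |(t l : ℝ) - lam * X l ω| ≤ lam ^ (c ^ 2 / (16 * (M : ℝ)))) ∧ ¬ Sep D t})]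
    exact ENNReal.ofReal_le_ofReal h1
  · exact (hind l l' hll).comp (φ := fun x : ℝ => lam * x) (ψ := fun x : ℝ => lam * x) (by fun_prop) (by fun_prop)
  · have : IsProbabilityMeasure (P.map (X l)) := Measure.isProbabilityMeasure_map (hX _).aemeasurable
    have h2 := htame (P.map (X l)) (hdec _) ?_ lam hlam
    · rw [Measure.map_map (by fun_prop) (hX _)] at h2
      exact h2
    · rw [Measure.map_apply (hX _) (measurableSet_lt measurable_const (by fun_prop))]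
      have h3 := hA l
      rw [ae_iff] at h3
      refine measure_mono_null ?_ h3
      intro ω hω
      simp only [Set.mem_preimage, Set.mem_ofPred_eq, not_le] at hω ⊢
      exact hω

/-- almost surely all integers close to the multiples of different numbers of the sequence are separated -/
theorem ae_sep_of {C δ A : ℝ} {κ : ℕ → ℝ} (hκ : ∀ M, 0 < κ M)
    (hp : ∀ D M : ℕ, ∃ C₂ : ℝ, 0 < C₂ ∧ ∀ {Ω : Type} [MeasurableSpace Ω] (P : Measure Ω) [IsProbabilityMeasure P] (X : Fin M → Ω → ℝ),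
      (∀ l, Measurable (X l)) → (∀ l l', l ≠ l' → IndepFun (X l) (X l') P) → (∀ l, Decay (P.map (X l)) C δ) →
      (∀ l, ∀ᵐ ω ∂P, |X l ω| ≤ A) → ∀ lam : ℝ, 1 ≤ lam →
        P {ω | ∃ t : Fin M → ℤ, (∀ l, |(t l : ℝ) - lam * X l ω| ≤ lam ^ κ M) ∧ ¬ Sep D t} ≤
          ENNReal.ofReal (C₂ * lam ^ (-κ M))) :
    ∀ {Ω : Type} [MeasurableSpace Ω] (P : Measure Ω) [IsProbabilityMeasure P] (X : ℕ → Ω → ℝ), (∀ l, Measurable (X l)) →
      (∀ l l', l ≠ l' → IndepFun (X l) (X l') P) → (∀ l, Decay (P.map (X l)) C δ) → (∀ l, ∀ᵐ ω ∂P, |X l ω| ≤ A) →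
      ∀ lam : ℕ → ℝ, (∀ k, 1 ≤ lam k) → (∀ u : ℝ, 0 < u → Summable fun k => lam k ^ (-u)) →
      ∀ᵐ ω ∂P, ∀ (M : ℕ) (φ : Fin M → ℕ), Function.Injective φ → ∀ D : ℕ, ∀ᶠ k in atTop, ∀ t : Fin M → ℤ,
        (∀ l, |(t l : ℝ) - lam k * X (φ l) ω| ≤ lam k ^ κ M) → Sep D t := by
  classical
  intro Ω _ P _ X hX hind hdec hA lam hlam hsum
  rw [ae_all_iff]
  intro M
  rw [ae_all_iff]
  intro φ
  by_cases hφ : Function.Injective φ
  swap
  · filter_upwards with ω h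
    exact absurd h hφ
  suffices h : ∀ᵐ ω ∂P, ∀ D : ℕ, ∀ᶠ k in atTop, ∀ t : Fin M → ℤ,
        (∀ l, |(t l : ℝ) - lam k * X (φ l) ω| ≤ lam k ^ κ M) → Sep D t by
    filter_upwards [h] with ω hω _
    exact hω
  rw [ae_all_iff]
  intro D
  obtain ⟨C₂, hC₂, hm⟩ := hp D M
  have hb : ∀ k, P {ω | ∃ t : Fin M → ℤ, (∀ l, |(t l : ℝ) - lam k * X (φ l) ω| ≤ lam k ^ κ M) ∧ ¬ Sep D t} ≤
      ENNReal.ofReal (C₂ * lam k ^ (-κ M)) :=
    fun k => hm P (fun l => X (φ l)) (fun l => hX _) (fun l l' hll => hind _ _ fun h => hll (hφ h)) (fun l => hdec _)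
      (fun l => hA _) (lam k) (hlam k)
  have hs : ∑' k, P {ω | ∃ t : Fin M → ℤ, (∀ l, |(t l : ℝ) - lam k * X (φ l) ω| ≤ lam k ^ κ M) ∧ ¬ Sep D t} ≠ ⊤ := by
    refine ne_top_of_le_ne_top ?_ (ENNReal.tsum_le_tsum hb)
    exact ((hsum _ (hκ M)).mul_left C₂).tsum_ofReal_ne_top
  filter_upwards [ae_eventually_notMem hs] with ω hω
  filter_upwards [hω] with k hk t ht
  by_contra hsep
  exact hk ⟨t, ht, hsep⟩

end Pool.Agent.HP25.PS
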