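import Pool.Agent.HP25.PS.B
import Pool.Agent.TH872.Sq.W2

set_option autoImplicit false

/-! Integers with random digits: the law of the integer satisfies `Tame`, and vectors of such integers are separated by large
primes with high probability, also if their coordinates are moved in windows. -/

namespace Pool.Agent.HP25.PS

open Finset MeasureTheory ProbabilityTheory
open Pool.Agent.TH872.Sq (Dig P P_nonneg P_le P_split P_sum ex_split_real eta_le sum_split)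

/-- the law of the integer with `K` random digits -/
noncomputable def dig (b : ℕ) (w : ℕ → ℕ → ℝ) (K : ℕ) : Measure ℝ :=
  ∑ n ∈ range (b ^ K), ENNReal.ofReal (P b w 0 K n) • Measure.dirac (n : ℝ)

lemma dig_apply {b : ℕ} {η : ℝ} {w : ℕ → ℕ → ℝ} (hw : Dig b η w) (K : ℕ) (S : Set ℝ) [DecidablePred fun n : ℕ => (n : ℝ) ∈ S] :
    dig b w K S = ENNReal.ofReal (∑ n ∈ (range (b ^ K)).filter (fun n : ℕ => (n : ℝ) ∈ S), P b w 0 K n) := by
  unfold dig
  rw [Measure.finsetSum_apply, sum_filter, ENNReal.ofReal_sum_of_nonneg]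
  · refine sum_congr rfl fun n _ => ?_
    rw [Measure.smul_apply, Measure.dirac_apply, smul_eq_mul]
    by_cases h : (n : ℝ) ∈ S
    · simp [h]
    · simp [h]
  · intro n _
    split_ifs
    · exact P_nonneg hw _ _ _
    · exact le_rfl

lemma dig_real {b : ℕ} {η : ℝ} {w : ℕ → ℕ → ℝ} (hw : Dig b η w) (K : ℕ) (S : Set ℝ) [DecidablePred fun n : ℕ => (n : ℝ) ∈ S] :
    (dig b w K).real S = ∑ n ∈ (range (b ^ K)).filter (fun n : ℕ => (n : ℝ) ∈ S), P b w 0 K n := by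
  rw [measureReal_def, dig_apply hw, ENNReal.toReal_ofReal (sum_nonneg fun n _ => P_nonneg hw _ _ _)]

lemma dig_prob {b : ℕ} (hb : 0 < b) {η : ℝ} {w : ℕ → ℕ → ℝ} (hw : Dig b η w) (K : ℕ) : IsProbabilityMeasure (dig b w K) := by
  classical
  refine ⟨?_⟩
  rw [dig_apply hw]
  simp [P_sum hb hw]

lemma card_win (h : ℝ) (hh : 1 ≤ h) : ((Icc (-⌊h⌋) ⌊h⌋ : Finset ℤ).card : ℝ) ≤ 3 * h := by
  have h1 : (0 : ℤ) ≤ ⌊h⌋ := Int.floor_nonneg.2 (by linarith)
  rw [Int.card_Icc]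
  have h2 : (((⌊h⌋ + 1 - -⌊h⌋).toNat : ℕ) : ℝ) = ((⌊h⌋ + 1 - -⌊h⌋ : ℤ) : ℝ) := by
    have : (((⌊h⌋ + 1 - -⌊h⌋).toNat : ℕ) : ℤ) = (⌊h⌋ + 1 - -⌊h⌋ : ℤ) := Int.toNat_of_nonneg (by omega)
    exact_mod_cast this
  rw [h2]
  push_cast
  have := Int.floor_le h
  linarith

lemma mem_win {h : ℝ} {j : ℤ} (hj : |(j : ℝ)| ≤ h) : j ∈ Icc (-⌊h⌋) ⌊h⌋ := by
  rw [abs_le] at hj
  rw [mem_Icc]
  refine ⟨?_, Int.le_floor.2 hj.2⟩
  have : -j ≤ ⌊h⌋ := Int.le_floor.2 (by push_cast; linarith [hj.1])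
  omega

lemma sum_biUnion_le' {ι α : Type*} [DecidableEq α] (s : Finset ι) (f : ι → Finset α) (g : α → ℝ) (hg : ∀ a, 0 ≤ g a) :
    ∑ a ∈ s.biUnion f, g a ≤ ∑ i ∈ s, ∑ a ∈ f i, g a := by
  classical
  induction s using Finset.induction_on with
  | empty => simp
  | insert i s hi ih =>
    rw [biUnion_insert, sum_insert hi]
    have h1 := sum_union_inter (s₁ := f i) (s₂ := s.biUnion f) (f := g)
    have h2 : 0 ≤ ∑ a ∈ f i ∩ s.biUnion f, g a := sum_nonneg fun a _ => hg a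
    linarith

/-- divisibility of an integer with random digits -/
lemma dig_dvd {b : ℕ} (hb : 0 < b) {η : ℝ} {w : ℕ → ℕ → ℝ} (hw : Dig b η w) (K m r : ℕ) (hm : m ≤ K) (hr : b ^ m ≤ r) (j : ℤ) :
    ∑ n ∈ (range (b ^ K)).filter (fun n : ℕ => (r : ℤ) ∣ (n : ℤ) + j), P b w 0 K n ≤ (1 - η) ^ m := by
  classical
  obtain ⟨q, rfl⟩ := Nat.exists_eq_add_of_le hm
  have h1 := ex_split_real b hb w 0 m q (fun n => if (r : ℤ) ∣ (n : ℤ) + j then 1 else 0)
  have hη : 0 ≤ 1 - η := by have := eta_le hw; linarith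
  rw [sum_filter]
  have h2 : ∑ a ∈ range (b ^ (m + q)), (if (r : ℤ) ∣ (a : ℤ) + j then P b w 0 (m + q) a else 0) =
      ∑ x ∈ range (b ^ (m + q)), P b w 0 (m + q) x * (if (r : ℤ) ∣ (x : ℤ) + j then 1 else 0) := by
    refine sum_congr rfl fun a _ => ?_
    split_ifs <;> simp
  rw [h2, h1]
  have h3 : ∑ u ∈ range (b ^ m), P b w 0 m u * ∑ v ∈ range (b ^ q), P b w (0 + m) q v *
        (if (r : ℤ) ∣ ((u + b ^ m * v : ℕ) : ℤ) + j then 1 else 0) =
      ∑ v ∈ range (b ^ q), P b w (0 + m) q v * ∑ u ∈ range (b ^ m), P b w 0 m u *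
        (if (r : ℤ) ∣ ((u + b ^ m * v : ℕ) : ℤ) + j then 1 else 0) := by
    simp only [mul_sum]
    rw [sum_comm]
    refine sum_congr rfl fun v _ => sum_congr rfl fun u _ => ?_
    ring
  rw [h3]
  calc _ ≤ ∑ v ∈ range (b ^ q), P b w (0 + m) q v * (1 - η) ^ m := ?_
    _ = (1 - η) ^ m := by rw [← sum_mul, P_sum hb hw, one_mul]
  refine sum_le_sum fun v _ => mul_le_mul_of_nonneg_left ?_ (P_nonneg hw _ _ _)
  by_cases hex : ∃ u ∈ range (b ^ m), (r : ℤ) ∣ ((u + b ^ m * v : ℕ) : ℤ) + j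
  · obtain ⟨u, hu, hur⟩ := hex
    rw [sum_eq_single u]
    · rw [if_pos hur, mul_one]
      exact P_le hw _ _ _
    · intro u' hu' hne
      rw [if_neg, mul_zero]
      intro hd
      apply hne
      rw [mem_range] at hu hu'
      have h4 : (r : ℤ) ∣ ((u' : ℤ) - u) := by
        have h7 := dvd_sub hd hur
        have h8 : ((u' + b ^ m * v : ℕ) : ℤ) + j - (((u + b ^ m * v : ℕ) : ℤ) + j) = (u' : ℤ) - u := by
          push_cast
          ring
        rwa [h8] at h7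
      have h5 : |(u' : ℤ) - u| < r := by
        rw [abs_lt]
        constructor <;> omega
      have h6 := Int.eq_zero_of_abs_lt_dvd h4 h5
      omega
    · intro h
      exact absurd hu h
  · push Not at hex
    rw [sum_eq_zero]
    · positivity
    · intro u hu
      rw [if_neg (hex u hu), mul_zero]

/-- the exponent -/
lemma exists_c (b : ℕ) (hb : 2 ≤ b) (η : ℝ) (hη : 0 < η) : ∃ c : ℝ, 0 < c ∧ c ≤ 1 ∧ 1 - η ≤ (b : ℝ) ^ (-c) := by
  have hb1 : (1 : ℝ) < b := by exact_mod_cast (by omega : 1 < b)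
  have hl : 0 < Real.log b := Real.log_pos hb1
  refine ⟨min 1 (η / Real.log b), by positivity, min_le_left _ _, ?_⟩
  rw [Real.rpow_def_of_pos (by linarith)]
  have h1 := Real.add_one_le_exp (Real.log b * -(min 1 (η / Real.log b)))
  have h2 : Real.log b * min 1 (η / Real.log b) ≤ η := by
    calc Real.log b * min 1 (η / Real.log b) ≤ Real.log b * (η / Real.log b) := mul_le_mul_of_nonneg_left (min_le_right _ _) hl.le
      _ = η := by field_simp
  linarith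

theorem tame_dig (b : ℕ) (hb : 2 ≤ b) (η : ℝ) (hη : 0 < η) : ∃ c C : ℝ, 0 < c ∧ c ≤ 1 ∧ 1 ≤ C ∧
    ∀ w : ℕ → ℕ → ℝ, Dig b η w → ∀ K : ℕ, Tame (dig b w K) ((b : ℝ) ^ K) c C := by
  classical
  obtain ⟨c, hc, hc1, hcb⟩ := exists_c b hb η hη
  have hb1 : (1 : ℝ) ≤ b := by exact_mod_cast (by omega : 1 ≤ b)
  have hb0 : (0 : ℝ) < b := by linarith
  refine ⟨c, 3 * b, hc, hc1, by linarith, fun w hw K => ?_⟩
  have hη1 : 0 ≤ 1 - η := by have := eta_le hw; linarith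
  have hpow : ∀ m : ℕ, (1 - η) ^ m ≤ ((b : ℝ) ^ m) ^ (-c) := by
    intro m
    rw [← Real.rpow_natCast (b : ℝ) m, ← Real.rpow_mul hb0.le, mul_comm, Real.rpow_mul hb0.le, Real.rpow_natCast]
    exact pow_le_pow_left₀ hη1 hcb m
  have hX0 : 0 ≤ ((b : ℝ) ^ K) ^ (-c) := by positivity
  refine ⟨?_, fun s h hh => ?_, fun r h hr hh => ?_⟩
  · rw [dig_apply hw, ENNReal.ofReal_eq_zero]
    apply le_of_eq
    apply sum_eq_zero
    intro n hn
    rw [mem_filter, mem_range] at hn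
    exfalso
    have h1 : ((n : ℕ) : ℝ) < (b : ℝ) ^ K := by exact_mod_cast hn.1
    have h2 : 3 * (b : ℝ) * (b : ℝ) ^ K < |(n : ℝ)| := hn.2
    rw [abs_of_nonneg (Nat.cast_nonneg n)] at h2
    have h3 : (0 : ℝ) < (b : ℝ) ^ K := by positivity
    nlinarith
  · rw [dig_real hw]
    calc ∑ n ∈ (range (b ^ K)).filter (fun n : ℕ => (n : ℝ) ∈ {z : ℝ | |(s : ℝ) - z| ≤ h}), P b w 0 K n
        ≤ ∑ _n ∈ (range (b ^ K)).filter (fun n : ℕ => (n : ℝ) ∈ {z : ℝ | |(s : ℝ) - z| ≤ h}), ((b : ℝ) ^ K) ^ (-c) :=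
          sum_le_sum fun n _ => (P_le hw 0 K n).trans (hpow K)
      _ = (((range (b ^ K)).filter (fun n : ℕ => (n : ℝ) ∈ {z : ℝ | |(s : ℝ) - z| ≤ h})).card : ℝ) * ((b : ℝ) ^ K) ^ (-c) := by
          rw [sum_const, nsmul_eq_mul]
      _ ≤ (3 * h) * ((b : ℝ) ^ K) ^ (-c) := by
          refine mul_le_mul_of_nonneg_right (le_trans ?_ (card_win h hh)) hX0
          norm_cast
          apply card_le_card_of_injOn (fun n : ℕ => s - (n : ℤ))
          · intro n hn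
            have h1 := (mem_filter.1 (mem_coe.1 hn)).2
            rw [Set.mem_ofPred_eq] at h1
            exact mem_coe.2 (mem_win (by push_cast; exact h1))
          · intro n _ n' _ h1
            have h2 : s - (n : ℤ) = s - (n' : ℤ) := h1
            omega
      _ ≤ 3 * b * h * ((b : ℝ) ^ K) ^ (-c) := by
          apply mul_le_mul_of_nonneg_right _ hX0
          nlinarith
  · rw [dig_real hw]
    -- the digits used
    obtain ⟨m, hmK, hmr, hm⟩ : ∃ m : ℕ, m ≤ K ∧ b ^ m ≤ r ∧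
        (1 - η) ^ m ≤ b * ((r : ℝ) ^ (-c) + ((b : ℝ) ^ K) ^ (-c)) := by
      have hr0 : (0 : ℝ) < r := by exact_mod_cast hr
      have hrc : 0 ≤ (r : ℝ) ^ (-c) := Real.rpow_nonneg hr0.le _
      rcases le_total K (Nat.log b r) with hK | hK
      · refine ⟨K, le_rfl, (Nat.pow_le_pow_right (by omega) hK).trans (Nat.pow_log_le_self b (by omega)), ?_⟩
        refine (hpow K).trans ?_
        nlinarith
      · refine ⟨Nat.log b r, hK, Nat.pow_log_le_self b (by omega), ?_⟩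
        refine (hpow _).trans ?_
        have h1 : (r : ℝ) ≤ (b : ℝ) ^ (Nat.log b r) * b := by
          have := Nat.lt_pow_succ_log_self (by omega : 1 < b) r
          have h2 : (r : ℝ) < (b : ℝ) ^ (Nat.log b r + 1) := by exact_mod_cast this
          rw [pow_succ] at h2
          exact h2.le
        have h3 : ((b : ℝ) ^ (Nat.log b r) * b) ^ (-c) ≤ (r : ℝ) ^ (-c) :=
          Real.rpow_le_rpow_of_nonpos hr0 h1 (by linarith)
        rw [Real.mul_rpow (by positivity) hb0.le] at h3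
        have h4 : (b : ℝ) ^ (-c) * b ^ c = 1 := by
          rw [← Real.rpow_add hb0]
          simp
        have h5 : (b : ℝ) ^ c ≤ b := by
          calc (b : ℝ) ^ c ≤ (b : ℝ) ^ (1 : ℝ) := Real.rpow_le_rpow_of_exponent_le hb1 hc1
            _ = b := Real.rpow_one _
        have h6 : (0 : ℝ) < (b : ℝ) ^ c := Real.rpow_pos_of_pos hb0 _
        have h7 : 0 ≤ ((b : ℝ) ^ (Nat.log b r)) ^ (-c) := by positivity
        calc ((b : ℝ) ^ (Nat.log b r)) ^ (-c) = (((b : ℝ) ^ (Nat.log b r)) ^ (-c) * (b : ℝ) ^ (-c)) * (b : ℝ) ^ c := by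
              rw [mul_assoc, h4, mul_one]
          _ ≤ (r : ℝ) ^ (-c) * b := mul_le_mul h3 h5 h6.le hrc
          _ ≤ _ := by nlinarith
    have hsub : (range (b ^ K)).filter (fun n : ℕ => (n : ℝ) ∈ {z : ℝ | ∃ t : ℤ, |(t : ℝ) - z| ≤ h ∧ (r : ℤ) ∣ t}) ⊆
        (Icc (-⌊h⌋) ⌊h⌋).biUnion fun j => (range (b ^ K)).filter (fun n : ℕ => (r : ℤ) ∣ (n : ℤ) + j) := by
      intro n hn
      rw [mem_filter] at hn
      obtain ⟨hn1, t, ht1, ht2⟩ := hn
      rw [mem_biUnion]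
      refine ⟨t - n, mem_win (by push_cast; exact ht1), mem_filter.2 ⟨hn1, ?_⟩⟩
      convert ht2 using 1
      ring
    calc ∑ n ∈ (range (b ^ K)).filter (fun n : ℕ => (n : ℝ) ∈ {z : ℝ | ∃ t : ℤ, |(t : ℝ) - z| ≤ h ∧ (r : ℤ) ∣ t}), P b w 0 K n
        ≤ ∑ n ∈ (Icc (-⌊h⌋) ⌊h⌋).biUnion fun j => (range (b ^ K)).filter (fun n : ℕ => (r : ℤ) ∣ (n : ℤ) + j), P b w 0 K n :=
          sum_le_sum_of_subset_of_nonneg hsub fun n _ _ => P_nonneg hw _ _ _
      _ ≤ ∑ j ∈ Icc (-⌊h⌋) ⌊h⌋, ∑ n ∈ (range (b ^ K)).filter (fun n : ℕ => (r : ℤ) ∣ (n : ℤ) + j), P b w 0 K n :=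
          sum_biUnion_le' _ _ _ fun n => P_nonneg hw _ _ _
      _ ≤ ∑ _j ∈ Icc (-⌊h⌋) ⌊h⌋, (1 - η) ^ m := sum_le_sum fun j _ => dig_dvd (by omega) hw K m r hmK hmr j
      _ = ((Icc (-⌊h⌋) ⌊h⌋ : Finset ℤ).card : ℝ) * (1 - η) ^ m := by rw [sum_const, nsmul_eq_mul]
      _ ≤ (3 * h) * (b * ((r : ℝ) ^ (-c) + ((b : ℝ) ^ K) ^ (-c))) := by
          refine mul_le_mul (card_win h hh) hm (by positivity) (by linarith)
      _ = _ := by ring

end Pool.Agent.HP25.PS
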