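import Pool.Agent.HP25.PS.F

set_option autoImplicit false

/-! Vectors of integers with random digits are separated by large prime factors with high probability. -/

namespace Pool.Agent.HP25.PS

open Finset MeasureTheory ProbabilityTheory
open Pool.Agent.TH872.Sq (Dig P P_nonneg)

/-- the exponent of the windows -/
noncomputable def kap (c : ℝ) (M : ℕ) : ℝ := c ^ 2 / (16 * ((max M 1 : ℕ) : ℝ))

lemma kap_pos {c : ℝ} (hc : 0 < c) (M : ℕ) : 0 < kap c M := by
  have : (0 : ℝ) < ((max M 1 : ℕ) : ℝ) := by exact_mod_cast (by omega : 0 < max M 1)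
  unfold kap
  positivity

theorem digits_sep {b : ℕ} (hb : 2 ≤ b) {η c C' : ℝ} (hc : 0 < c) (hc1 : c ≤ 1) (hC' : 1 ≤ C')
    (htame : ∀ w : ℕ → ℕ → ℝ, Dig b η w → ∀ K : ℕ, Tame (dig b w K) ((b : ℝ) ^ K) c C') :
    ∀ D M : ℕ, ∃ C : ℝ, 0 < C ∧ ∀ w : Fin M → ℕ → ℕ → ℝ, (∀ l, Dig b η (w l)) → ∀ K : ℕ,
      ∀ B : Finset (Fin M → ℕ), (∀ x ∈ B, (∀ l, x l < b ^ K) ∧
        ∃ t : Fin M → ℤ, (∀ l, |(t l : ℝ) - x l| ≤ (b : ℝ) ^ (kap c M * K)) ∧ ¬ Sep D t) →
        ∑ x ∈ B, ∏ l, P b (w l) 0 K (x l) ≤ C * (b : ℝ) ^ (-(kap c M * K)) := by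
  classical
  intro D M
  have hb0 : (0 : ℝ) < b := by exact_mod_cast (by omega : 0 < b)
  have hb1 : (1 : ℝ) ≤ b := by exact_mod_cast (by omega : 1 ≤ b)
  unfold kap
  rcases Nat.eq_zero_or_pos M with rfl | hM
  · refine ⟨1, one_pos, fun w hw K B hB => ?_⟩
    have : B = ∅ := by
      rw [eq_empty_iff_forall_notMem]
      intro x hx
      obtain ⟨_, t, _, ht⟩ := hB x hx
      exact ht fun l => l.elim0
    rw [this, sum_empty]
    positivity
  have hmax : max M 1 = M := max_eq_left hM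
  simp only [hmax]
  obtain ⟨C₂, hC₂, hm⟩ := multi D M hM c C' hc hc1 hC'
  refine ⟨C₂, hC₂, fun w hw K B hB => ?_⟩
  have hprob : ∀ l, IsProbabilityMeasure (dig b (w l) K) := fun l => dig_prob (by omega) (hw l) K
  have h1 := hm (Measure.pi fun l => dig b (w l) K) (fun l ω => ω l) (fun l => measurable_pi_apply l) (fun l l' hll => ?_)
    ((b : ℝ) ^ K) (one_le_pow₀ hb1) (fun l => ?_)
  · have hX : ∀ u : ℝ, ((b : ℝ) ^ K) ^ u = (b : ℝ) ^ (u * K) := by
      intro u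
      rw [← Real.rpow_natCast, ← Real.rpow_mul hb0.le, mul_comm]
    rw [hX, hX, neg_mul] at h1
    refine le_trans ?_ h1
    -- the finite set of vectors
    obtain ⟨T, hT⟩ : ∃ T : Finset (Fin M → ℝ), T = B.image fun x l => ((x l : ℕ) : ℝ) := ⟨_, rfl⟩
    have hsub : (T : Set (Fin M → ℝ)) ⊆ {ω | ∃ t : Fin M → ℤ, (∀ l, |(t l : ℝ) - ω l| ≤
        (b : ℝ) ^ (c ^ 2 / (16 * (M : ℝ)) * K)) ∧ ¬ Sep D t} := by
      intro ω hω
      rw [hT, coe_image] at hω
      obtain ⟨x, hx, rfl⟩ := hω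
      exact (hB x (mem_coe.1 hx)).2
    refine le_trans (le_of_eq ?_) (measureReal_mono hsub)
    rw [← sum_measureReal_singleton, hT, sum_image]
    · refine sum_congr rfl fun x hx => ?_
      rw [measureReal_def, Measure.pi_singleton, ENNReal.toReal_prod]
      refine prod_congr rfl fun l _ => ?_
      rw [← measureReal_def, dig_real (hw l)]
      have h2 : (range (b ^ K)).filter (fun n : ℕ => (n : ℝ) ∈ ({((x l : ℕ) : ℝ)} : Set ℝ)) = {x l} := by
        ext n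
        rw [mem_filter, mem_range, mem_singleton, Set.mem_singleton_iff, Nat.cast_inj]
        constructor
        · exact fun h => h.2
        · rintro rfl
          exact ⟨(hB x hx).1 l, rfl⟩
      rw [h2, sum_singleton]
    · intro x _ x' _ h
      funext l
      have h4 : ((x l : ℕ) : ℝ) = x' l := congrFun h l
      exact_mod_cast h4
  · have := iIndepFun_pi (μ := fun l : Fin M => dig b (w l) K) (X := fun _ x => x) (fun l => aemeasurable_id)
    exact this.indepFun hll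
  · have h2 := (measurePreserving_eval (fun l : Fin M => dig b (w l) K) l).map_eq
    have h3 : (fun ω : Fin M → ℝ => ω l) = Function.eval l := rfl
    rw [h3, h2]
    exact htame (w l) (hw l) K

/-- the law of an integer valued random variable with the probabilities of random digits -/
lemma map_eq_dig {b : ℕ} (hb : 0 < b) {η : ℝ} {w : ℕ → ℕ → ℝ} (hw : Dig b η w) (K : ℕ) {Ω : Type*} [MeasurableSpace Ω]
    (Q : Measure Ω) [IsProbabilityMeasure Q] (X : Ω → ℕ) (hX : Measurable X)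
    (h : ∀ n, n < b ^ K → Q.real {ω | X ω = n} = P b w 0 K n) : Q.map (fun ω => ((X ω : ℕ) : ℝ)) = dig b w K := by
  classical
  have hcast : Measurable fun n : ℕ => (n : ℝ) := measurable_from_top
  have hE : ∀ S : Set Ω, Q {ω | ω ∈ S ∧ b ^ K ≤ X ω} = 0 := by
    intro S
    have h1 : Q {ω | X ω < b ^ K} = 1 := by
      have h2 : {ω | X ω < b ^ K} = ⋃ n ∈ range (b ^ K), {ω | X ω = n} := by
        ext ω; simp
      rw [h2, measure_biUnion_finset]
      · have h3 : ∀ n ∈ range (b ^ K), Q {ω | X ω = n} = ENNReal.ofReal (P b w 0 K n) := by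
          intro n hn
          rw [← h n (mem_range.1 hn), measureReal_def, ENNReal.ofReal_toReal (measure_ne_top _ _)]
        rw [sum_congr rfl h3, ← ENNReal.ofReal_sum_of_nonneg fun n _ => P_nonneg hw _ _ _,
          Pool.Agent.TH872.Sq.P_sum hb hw, ENNReal.ofReal_one]
      · intro n _ n' _ hnn
        rw [Function.onFun, Set.disjoint_left]
        intro ω h3 h4
        exact hnn (h3.symm.trans h4)
      · intro n _
        exact hX (measurableSet_singleton n)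
    have h2 : Q {ω | X ω < b ^ K}ᶜ = 0 := by
      have h3 : MeasurableSet {ω | X ω < b ^ K} := hX (measurableSet_Iio (a := b ^ K))
      rw [prob_compl_eq_zero_iff h3]
      exact h1
    refine measure_mono_null ?_ h2
    rintro ω ⟨_, h3⟩ h4
    exact absurd h4 (not_lt.2 h3)
  ext S hS
  have hm : Measurable fun ω => ((X ω : ℕ) : ℝ) := hcast.comp hX
  rw [Measure.map_apply hm hS, dig_apply hw]
  have h1 : Q ((fun ω => ((X ω : ℕ) : ℝ)) ⁻¹' S) =
      Q (⋃ n ∈ (range (b ^ K)).filter (fun n : ℕ => (n : ℝ) ∈ S), {ω | X ω = n}) := by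
    apply le_antisymm
    · have h2 : (fun ω => ((X ω : ℕ) : ℝ)) ⁻¹' S ⊆
          (⋃ n ∈ (range (b ^ K)).filter (fun n : ℕ => (n : ℝ) ∈ S), {ω | X ω = n}) ∪
            {ω | ω ∈ (Set.univ : Set Ω) ∧ b ^ K ≤ X ω} := by
        intro ω hω
        by_cases h3 : X ω < b ^ K
        · left
          simp only [Set.mem_iUnion]
          exact ⟨X ω, mem_filter.2 ⟨mem_range.2 h3, hω⟩, rfl⟩
        · right
          exact ⟨trivial, not_lt.1 h3⟩
      refine (measure_mono h2).trans ((measure_union_le _ _).trans ?_)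
      rw [hE, add_zero]
    · apply measure_mono
      intro ω hω
      simp only [Set.mem_iUnion] at hω
      obtain ⟨n, hn, hn2⟩ := hω
      have h3 : X ω = n := hn2
      rw [Set.mem_preimage, h3]
      exact (mem_filter.1 hn).2
  rw [h1, measure_biUnion_finset]
  · rw [ENNReal.ofReal_sum_of_nonneg fun n _ => P_nonneg hw _ _ _]
    refine sum_congr rfl fun n hn => ?_
    rw [← h n (mem_range.1 (mem_filter.1 hn).1), measureReal_def, ENNReal.ofReal_toReal (measure_ne_top _ _)]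
  · intro n _ n' _ hnn
    rw [Function.onFun, Set.disjoint_left]
    intro ω h3 h4
    exact hnn (h3.symm.trans h4)
  · intro n _
    exact hX (measurableSet_singleton n)

/-- The same exponents as in `digits_sep`, for random variables. -/
theorem digits_prob {b : ℕ} (hb : 2 ≤ b) {η c C' : ℝ} (hc : 0 < c) (hc1 : c ≤ 1) (hC' : 1 ≤ C')
    (htame : ∀ w : ℕ → ℕ → ℝ, Dig b η w → ∀ K : ℕ, Tame (dig b w K) ((b : ℝ) ^ K) c C') :
    ∀ D M : ℕ, ∃ C : ℝ, 0 < C ∧ ∀ {Ω : Type} [MeasurableSpace Ω] (Q : Measure Ω) [IsProbabilityMeasure Q] (K : ℕ)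
      (X : Fin M → Ω → ℕ), (∀ l, Measurable (X l)) → (∀ l l', l ≠ l' → IndepFun (X l) (X l') Q) →
      ∀ w : Fin M → ℕ → ℕ → ℝ, (∀ l, Dig b η (w l)) →
      (∀ l n, n < b ^ K → Q.real {ω | X l ω = n} = P b (w l) 0 K n) →
        Q {ω | ∃ t : Fin M → ℤ, (∀ l, |(t l : ℝ) - X l ω| ≤ (b : ℝ) ^ (kap c M * K)) ∧ ¬ Sep D t} ≤
          ENNReal.ofReal (C * (b : ℝ) ^ (-(kap c M * K))) := by
  classical
  intro D M
  have hb0 : (0 : ℝ) < b := by exact_mod_cast (by omega : 0 < b)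
  have hb1 : (1 : ℝ) ≤ b := by exact_mod_cast (by omega : 1 ≤ b)
  unfold kap
  rcases Nat.eq_zero_or_pos M with rfl | hM
  · refine ⟨1, one_pos, fun Q _ K X hX hind w hw hlaw => ?_⟩
    have : ∀ s : Set _, (∀ ω, ω ∉ s) → Q s ≤ ENNReal.ofReal (1 * (b : ℝ) ^ (-(c ^ 2 / (16 * ((max 0 1 : ℕ) : ℝ)) * K))) := by
      intro s hs
      rw [Set.eq_empty_of_forall_notMem hs, measure_empty]
      exact zero_le
    apply this
    rintro ω ⟨t, _, h⟩
    exact h fun l => l.elim0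
  have hmax : max M 1 = M := max_eq_left hM
  simp only [hmax]
  obtain ⟨C₂, hC₂, hm⟩ := multi D M hM c C' hc hc1 hC'
  refine ⟨C₂, hC₂, fun Q _ K X hX hind w hw hlaw => ?_⟩
  have hcast : Measurable fun n : ℕ => (n : ℝ) := measurable_from_top
  have h1 := hm Q (fun l ω => ((X l ω : ℕ) : ℝ)) (fun l => hcast.comp (hX l)) (fun l l' hll => ?_)
    ((b : ℝ) ^ K) (one_le_pow₀ hb1) (fun l => ?_)
  · have hXe : ∀ u : ℝ, ((b : ℝ) ^ K) ^ u = (b : ℝ) ^ (u * K) := by
      intro u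
      rw [← Real.rpow_natCast, ← Real.rpow_mul hb0.le, mul_comm]
    rw [hXe, hXe, neg_mul, measureReal_def] at h1
    rw [← ENNReal.ofReal_toReal (measure_ne_top Q {ω | ∃ t : Fin M → ℤ, (∀ l, |(t l : ℝ) - X l ω| ≤
      (b : ℝ) ^ (c ^ 2 / (16 * (M : ℝ)) * K)) ∧ ¬ Sep D t})]
    exact ENNReal.ofReal_le_ofReal h1
  · exact (hind l l' hll).comp (φ := fun n : ℕ => (n : ℝ)) (ψ := fun n : ℕ => (n : ℝ)) hcast hcast
  · rw [map_eq_dig (by omega) (hw l) K Q (X l) (hX l) (hlaw l)]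
    exact htame (w l) (hw l) K

/-- almost surely the integers close to the random integers are separated -/
theorem digits_ae {b : ℕ} (hb : 2 ≤ b) {η c C' : ℝ} (hc : 0 < c) (hc1 : c ≤ 1) (hC' : 1 ≤ C')
    (htame : ∀ w : ℕ → ℕ → ℝ, Dig b η w → ∀ K : ℕ, Tame (dig b w K) ((b : ℝ) ^ K) c C')
    {Ω : Type} [MeasurableSpace Ω] (Q : Measure Ω) [IsProbabilityMeasure Q] (X : ℕ → ℕ → Ω → ℕ)
    (hX : ∀ l K, Measurable (X l K)) (hind : ∀ K l l', l ≠ l' → IndepFun (X l K) (X l' K) Q)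
    (w : ℕ → ℕ → ℕ → ℕ → ℝ) (hw : ∀ l K, Dig b η (w l K))
    (hlaw : ∀ l K n, n < b ^ K → Q.real {ω | X l K ω = n} = P b (w l K) 0 K n) :
    ∀ᵐ ω ∂Q, ∀ (M : ℕ) (φ : Fin M → ℕ), Function.Injective φ → ∀ D : ℕ, ∀ᶠ K in Filter.atTop, ∀ t : Fin M → ℤ,
      (∀ l, |(t l : ℝ) - X (φ l) K ω| ≤ (b : ℝ) ^ (kap c M * K)) → Sep D t := by
  classical
  rw [ae_all_iff]
  intro M
  rw [ae_all_iff]
  intro φ
  by_cases hφ : Function.Injective φ
  swap
  · filter_upwards with ω h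
    exact absurd h hφ
  suffices h : ∀ᵐ ω ∂Q, ∀ D : ℕ, ∀ᶠ K in Filter.atTop, ∀ t : Fin M → ℤ,
      (∀ l, |(t l : ℝ) - X (φ l) K ω| ≤ (b : ℝ) ^ (kap c M * K)) → Sep D t by
    filter_upwards [h] with ω hω _
    exact hω
  rw [ae_all_iff]
  intro D
  obtain ⟨C₂, hC₂, hm⟩ := digits_prob hb hc hc1 hC' htame D M
  have hb' : ∀ K, Q {ω | ∃ t : Fin M → ℤ, (∀ l, |(t l : ℝ) - X (φ l) K ω| ≤ (b : ℝ) ^ (kap c M * K)) ∧ ¬ Sep D t} ≤
      ENNReal.ofReal (C₂ * (b : ℝ) ^ (-(kap c M * K))) :=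
    fun K => hm Q K (fun l => X (φ l) K) (fun l => hX _ _) (fun l l' hll => hind _ _ _ fun h => hll (hφ h))
      (fun l => w (φ l) K) (fun l => hw _ _) (fun l n hn => hlaw _ _ n hn)
  have hb1 : (1 : ℝ) < b := by exact_mod_cast (by omega : 1 < b)
  have hsum : Summable fun K : ℕ => (b : ℝ) ^ (-(kap c M * K)) := by
    have h1 : (fun K : ℕ => (b : ℝ) ^ (-(kap c M * K))) = fun K : ℕ => ((b : ℝ) ^ (-(kap c M))) ^ K := by
      funext K
      rw [← Real.rpow_natCast, ← Real.rpow_mul (by linarith)]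
      congr 1
      ring
    rw [h1]
    refine summable_geometric_of_lt_one (by positivity) ?_
    exact Real.rpow_lt_one_of_one_lt_of_neg hb1 (by have := kap_pos hc M; linarith)
  have hs : ∑' K, Q {ω | ∃ t : Fin M → ℤ, (∀ l, |(t l : ℝ) - X (φ l) K ω| ≤ (b : ℝ) ^ (kap c M * K)) ∧ ¬ Sep D t} ≠ ⊤ := by
    refine ne_top_of_le_ne_top ?_ (ENNReal.tsum_le_tsum hb')
    exact (hsum.mul_left C₂).tsum_ofReal_ne_top
  filter_upwards [ae_eventually_notMem hs] with ω hω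
  filter_upwards [hω] with K hK t ht
  by_contra hsep
  exact hK ⟨t, ht, hsep⟩

end Pool.Agent.HP25.PS
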