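import Pool.Agent.HP25.PS.B

set_option autoImplicit false

/-! Random numbers and thin sets: the integers close to the number have no large divisors in a thin set, and are not in a set of
small dimension. -/

namespace Pool.Agent.HP25.PS

open Finset MeasureTheory ProbabilityTheory

/-- As `Tame`, with separate exponents for the point masses and for divisibility. -/
structure Tm (μ : Measure ℝ) (X c e C : ℝ) : Prop where
  bdd : μ {z | C * X < |z|} = 0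
  pt : ∀ (s : ℤ) (h : ℝ), 1 ≤ h → μ.real {z | |(s : ℝ) - z| ≤ h} ≤ C * h * X ^ (-c)
  dv : ∀ (r : ℕ) (h : ℝ), 1 ≤ r → 1 ≤ h →
    μ.real {z | ∃ t : ℤ, |(t : ℝ) - z| ≤ h ∧ (r : ℤ) ∣ t} ≤ C * h * ((r : ℝ) ^ (-e) + X ^ (-c))

/-- bounded, and small probabilities of short intervals -/
structure Pt (μ : Measure ℝ) (X s C : ℝ) : Prop where
  bdd : μ {z | C * X < |z|} = 0
  pt : ∀ (n : ℤ) (h : ℝ), 1 ≤ h → μ.real {z | |(n : ℝ) - z| ≤ h} ≤ C * h * X ^ (-s)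

lemma Tm.toPt {μ : Measure ℝ} {X c e C : ℝ} (h : Tm μ X c e C) : Pt μ X c C := ⟨h.bdd, h.pt⟩

/-- the set `D` has at most `K X ^ ε` elements up to `X` for every `ε > 0`. -/
def Thin (D : Set ℕ) : Prop :=
  ∀ ε : ℝ, 0 < ε → ∃ K : ℝ, 0 < K ∧ ∀ (S : Finset ℕ) (X : ℕ), 1 ≤ X → (∀ d ∈ S, d ∈ D ∧ 1 ≤ d ∧ d ≤ X) → (S.card : ℝ) ≤ K * (X : ℝ) ^ ε

open Classical in
lemma thin_of {D : Set ℕ} (h : ∀ ε : ℝ, 0 < ε → ∃ X₀ : ℕ, ∀ X : ℕ, X₀ ≤ X →
      (((Icc 1 X).filter (fun e => e ∈ D)).card : ℝ) ≤ (X : ℝ) ^ ε) : Thin D := by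
  intro ε hε
  obtain ⟨X₀, h0⟩ := h ε hε
  refine ⟨X₀ + 1, by positivity, fun S X hX hS => ?_⟩
  have hsub : S ⊆ (Icc 1 X).filter (fun e => e ∈ D) := by
    intro d hd
    obtain ⟨h1, h2, h3⟩ := hS d hd
    exact mem_filter.2 ⟨mem_Icc.2 ⟨h2, h3⟩, h1⟩
  have h1 : (S.card : ℝ) ≤ (((Icc 1 X).filter (fun e => e ∈ D)).card : ℝ) := by exact_mod_cast card_le_card hsub
  have hX1 : (1 : ℝ) ≤ (X : ℝ) ^ ε := Real.one_le_rpow (by exact_mod_cast hX) hε.le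
  rcases le_total X₀ X with h2 | h2
  · refine h1.trans ((h0 X h2).trans ?_)
    have : (0 : ℝ) ≤ X₀ := Nat.cast_nonneg _
    nlinarith
  · have h3 : (((Icc 1 X).filter (fun e => e ∈ D)).card : ℝ) ≤ X := by
      have := card_filter_le (Icc 1 X) (fun e => e ∈ D)
      rw [Nat.card_Icc] at this
      exact_mod_cast (by omega : ((Icc 1 X).filter (fun e => e ∈ D)).card ≤ X)
    have h4 : (X : ℝ) ≤ X₀ := by exact_mod_cast h2
    refine h1.trans (h3.trans (h4.trans ?_))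
    have : (0 : ℝ) ≤ X₀ := Nat.cast_nonneg _
    nlinarith

/-- the sum over a thin set converges -/
lemma thin_sum {D : Set ℕ} (hD : Thin D) (e : ℝ) (he : 0 < e) : ∃ K : ℝ, 0 < K ∧ ∀ S : Finset ℕ, (∀ d ∈ S, d ∈ D ∧ 1 ≤ d) →
    ∑ d ∈ S, (d : ℝ) ^ (-e) ≤ K := by
  classical
  obtain ⟨K, hK, h⟩ := hD (e / 2) (by positivity)
  refine ⟨2 * K ^ 2, by positivity, fun S hS => ?_⟩
  -- the rank
  obtain ⟨rk, hrk⟩ : ∃ rk : ℕ → ℕ, rk = fun d => (S.filter (fun d' => d' ≤ d)).card := ⟨_, rfl⟩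
  have h1 : ∀ d ∈ S, 1 ≤ rk d ∧ (rk d : ℝ) ≤ K * (d : ℝ) ^ (e / 2) := by
    intro d hd
    constructor
    · rw [hrk]
      exact card_pos.2 ⟨d, mem_filter.2 ⟨hd, le_rfl⟩⟩
    · rw [hrk]
      refine h _ d (hS d hd).2 fun d' hd' => ?_
      rw [mem_filter] at hd'
      exact ⟨(hS d' hd'.1).1, (hS d' hd'.1).2, hd'.2⟩
  have hinj : Set.InjOn rk S := by
    intro d hd d' hd' heq
    by_contra hne
    rcases lt_or_gt_of_ne hne with hlt | hlt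
    · have : (S.filter (fun x => x ≤ d)) ⊂ (S.filter (fun x => x ≤ d')) := by
        rw [ssubset_iff_of_subset (fun x hx => mem_filter.2 ⟨(mem_filter.1 hx).1, (mem_filter.1 hx).2.trans hlt.le⟩)]
        exact ⟨d', mem_filter.2 ⟨hd', le_rfl⟩, fun hx => absurd (mem_filter.1 hx).2 (by omega)⟩
      have h2 := card_lt_card this
      rw [hrk] at heq
      dsimp only at heq
      omega
    · have : (S.filter (fun x => x ≤ d')) ⊂ (S.filter (fun x => x ≤ d)) := by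
        rw [ssubset_iff_of_subset (fun x hx => mem_filter.2 ⟨(mem_filter.1 hx).1, (mem_filter.1 hx).2.trans hlt.le⟩)]
        exact ⟨d, mem_filter.2 ⟨hd, le_rfl⟩, fun hx => absurd (mem_filter.1 hx).2 (by omega)⟩
      have h2 := card_lt_card this
      rw [hrk] at heq
      dsimp only at heq
      omega
  have h2 : ∀ d ∈ S, (d : ℝ) ^ (-e) ≤ K ^ 2 * (1 / (rk d : ℝ) ^ 2) := by
    intro d hd
    obtain ⟨h3, h4⟩ := h1 d hd
    have hd0 : (0 : ℝ) < d := by exact_mod_cast (hS d hd).2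
    have h5 : (0 : ℝ) < rk d := by exact_mod_cast h3
    have h6 : (rk d : ℝ) ^ 2 ≤ K ^ 2 * (d : ℝ) ^ e := by
      calc (rk d : ℝ) ^ 2 ≤ (K * (d : ℝ) ^ (e / 2)) ^ 2 := pow_le_pow_left₀ h5.le h4 2
        _ = K ^ 2 * (d : ℝ) ^ e := by
            rw [mul_pow, ← Real.rpow_natCast ((d : ℝ) ^ (e / 2)) 2, ← Real.rpow_mul hd0.le]
            congr 2
            push_cast
            ring
    rw [Real.rpow_neg hd0.le, mul_one_div, inv_eq_one_div, div_le_div_iff₀ (by positivity) (by positivity)]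
    linarith
  have h3 : ∑ d ∈ S, (1 / (rk d : ℝ) ^ 2) ≤ 2 := by
    have h4 : ∑ d ∈ S, (1 / (rk d : ℝ) ^ 2) = ∑ k ∈ S.image rk, (1 / (k : ℝ) ^ 2) := by
      rw [sum_image hinj]
    rw [h4]
    have h5 : S.image rk ⊆ Ioc 0 (S.card) := by
      intro k hk
      obtain ⟨d, hd, rfl⟩ := mem_image.1 hk
      rw [mem_Ioc]
      refine ⟨(h1 d hd).1, ?_⟩
      rw [hrk]
      exact card_filter_le _ _
    have h6 : ∑ k ∈ Ioc 1 (S.card + 1), ((k : ℝ) ^ 2)⁻¹ ≤ ((1 : ℕ) : ℝ)⁻¹ - ((S.card + 1 : ℕ) : ℝ)⁻¹ :=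
      sum_Ioc_inv_sq_le_sub (α := ℝ) one_ne_zero (by omega : 1 ≤ S.card + 1)
    have h7 : (0 : ℝ) ≤ ((S.card + 1 : ℕ) : ℝ)⁻¹ := by positivity
    have h8 : ((1 : ℕ) : ℝ)⁻¹ = 1 := by norm_num
    have h9 : ∑ k ∈ S.image rk, (1 / (k : ℝ) ^ 2) ≤ ∑ k ∈ Ioc 0 (S.card + 1), (1 / (k : ℝ) ^ 2) := by
      refine sum_le_sum_of_subset_of_nonneg (fun k hk => ?_) fun k _ _ => by positivity
      have := h5 hk
      rw [mem_Ioc] at this ⊢
      omega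
    have h10 : ∑ k ∈ Ioc 0 (S.card + 1), (1 / (k : ℝ) ^ 2) = ((1 : ℕ) : ℝ)⁻¹ + ∑ k ∈ Ioc 1 (S.card + 1), ((k : ℝ) ^ 2)⁻¹ := by
      rw [← sum_Ioc_consecutive _ (by omega : 0 ≤ 1) (by omega : 1 ≤ S.card + 1)]
      congr 1
      · simp
      · exact sum_congr rfl fun k _ => by rw [one_div]
    linarith
  calc ∑ d ∈ S, (d : ℝ) ^ (-e) ≤ ∑ d ∈ S, K ^ 2 * (1 / (rk d : ℝ) ^ 2) := sum_le_sum h2
    _ = K ^ 2 * ∑ d ∈ S, (1 / (rk d : ℝ) ^ 2) := by rw [mul_sum]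
    _ ≤ K ^ 2 * 2 := mul_le_mul_of_nonneg_left h3 (by positivity)
    _ = _ := by ring

end Pool.Agent.HP25.PS
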