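import Pool.Agent.HP25.PS.T5

set_option autoImplicit false

/-! Random coefficients: the events. -/

namespace Pool.Agent.HP25.PS

open Finset MeasureTheory ProbabilityTheory Filter Topology
open Pool.Agent.Y883.T5 Pool.Agent.Y883.T6

/-- `t` has distance at most `h` from `x` or from `-x` -/
def Near (h x : ℝ) (t : ℤ) : Prop := |(t : ℝ) - x| ≤ h ∨ |(t : ℝ) + x| ≤ h

lemma Near.ex {h x : ℝ} {t : ℤ} (ht : Near h x t) : ∃ t' : ℤ, |(t' : ℝ) - x| ≤ h ∧ t.natAbs = t'.natAbs := by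
  rcases ht with h1 | h1
  · exact ⟨t, h1, rfl⟩
  · refine ⟨-t, ?_, by rw [Int.natAbs_neg]⟩
    rw [← abs_neg]
    have : -(((-t : ℤ) : ℝ) - x) = (t : ℝ) + x := by push_cast; ring
    rw [this]
    exact h1

lemma Near.mono {h h' x : ℝ} {t : ℤ} (ht : Near h x t) (hle : h ≤ h') : Near h' x t :=
  ht.imp (fun h1 => h1.trans hle) (fun h1 => h1.trans hle)

lemma smallSolution_mono {μ ν : ℝ} (hle : μ ≤ ν) {a b c d : ℤ} (h : SmallSolution μ a b c d) : SmallSolution ν a b c d := by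
  obtain ⟨p, q, r, hp, hq, hr, heq, hb⟩ := h
  refine ⟨p, q, r, hp, hq, hr, heq, hb.trans ?_⟩
  have h3 : (3 : ℤ) ≤ max 3 (max |a| (max |b| |c|)) := le_max_left _ _
  have h1 : (1 : ℝ) ≤ ((max 3 (max |a| (max |b| |c|)) : ℤ) : ℝ) := by
    have : ((1 : ℤ) : ℝ) ≤ ((max 3 (max |a| (max |b| |c|)) : ℤ) : ℝ) := by exact_mod_cast (by omega : (1 : ℤ) ≤ max 3 (max |a| (max |b| |c|)))
    rwa [Int.cast_one] at this
  have h2 := Real.rpow_le_rpow_of_exponent_le h1 hle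
  linarith

/-- all the admissible equations with the coefficient `t` and two other coefficients of size at most `B` have a
small solution -/
def Good (μ B : ℝ) (t : ℤ) : Prop :=
  t ≠ 0 ∧ ∀ a b d : ℤ, |(a : ℝ)| ≤ B → |(b : ℝ)| ≤ B → Admissible a b t d → SmallSolution μ a b t d

/-- all the admissible equations with the coefficients `t 0`, `t 1`, `t 2` have a small solution -/
def Good3 (μ : ℝ) (t : Fin 3 → ℤ) : Prop :=
  (∀ l, t l ≠ 0) ∧ ∀ d : ℤ, Admissible (t 0) (t 1) (t 2) d → SmallSolution μ (t 0) (t 1) (t 2) d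

lemma Good.mono {μ ν B : ℝ} (hle : μ ≤ ν) {t : ℤ} (h : Good μ B t) : Good ν B t :=
  ⟨h.1, fun a b d ha hb hadm => smallSolution_mono hle (h.2 a b d ha hb hadm)⟩

lemma Good3.mono {μ ν : ℝ} (hle : μ ≤ ν) {t : Fin 3 → ℤ} (h : Good3 μ t) : Good3 ν t :=
  ⟨h.1, fun d hadm => smallSolution_mono hle (h.2 d hadm)⟩

theorem one_event (c e s C : ℝ) (hc : 0 < c) (hc1 : c ≤ 1) (he : 0 < e) (hs1 : s ≤ 1) (hC : 1 ≤ C) (μ : ℝ) (hμ : 1 < μ)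
    (hμs : 2 - s < μ ∨ 3 / 2 < μ) (T W U : ℕ) :
    ∃ X₀ : ℝ, ∀ {Ω : Type} [MeasurableSpace Ω] (P : Measure Ω) [IsProbabilityMeasure P] (Z : Ω → ℝ), Measurable Z →
      ∀ X : ℝ, X₀ ≤ X → Tm (P.map Z) X c e C → Pt (P.map Z) X s C → ∀ h B : ℝ, h ≤ Real.log X ^ W → B ≤ Real.log X ^ T →
      P {ω | ∃ t : ℤ, Near h (Z ω) t ∧ ¬ Good μ B t} ≤ ENNReal.ofReal (Real.log X ^ U)⁻¹ := by
  obtain ⟨X₀, h1⟩ := one_main c e s C hc hc1 he hs1 hC μ hμ hμs T W U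
  refine ⟨X₀, fun P _ Z hZ X hX hTm hPt h B hh hB => ?_⟩
  have hprob : IsProbabilityMeasure (P.map Z) := Measure.isProbabilityMeasure_map hZ.aemeasurable
  have h2 := h1 (P.map Z) X hX hTm hPt
  have hsub : {ω | ∃ t : ℤ, Near h (Z ω) t ∧ ¬ Good μ B t} ⊆
      Z ⁻¹' {z | ∃ t t' : ℤ, |(t' : ℝ) - z| ≤ Real.log X ^ W ∧ t.natAbs = t'.natAbs ∧ ¬ One μ T X t} := by
    rintro ω ⟨t, ht, hbad⟩
    obtain ⟨t', h3, h4⟩ := ht.ex
    exact ⟨t, t', h3.trans hh, h4, fun hone => hbad ⟨hone.1, fun a b d ha hb hadm => hone.2 a b d hadm (ha.trans hB) (hb.trans hB)⟩⟩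
  refine (measure_mono hsub).trans ((Measure.le_map_apply hZ.aemeasurable _).trans ?_)
  rw [← ENNReal.ofReal_toReal (measure_ne_top (P.map Z) _)]
  exact ENNReal.ofReal_le_ofReal h2

theorem three_event (c e s C : ℝ) (hc : 0 < c) (hc1 : c ≤ 1) (he : 1 / 2 < e) (he1 : e ≤ 1) (hs1 : s ≤ 1) (hC : 1 ≤ C)
    (μ : ℝ) (hμ : 2 < μ) (hμs : 4 - 2 * s < μ ∨ 3 < μ) (W U : ℕ) :
    ∃ X₀ : ℝ, ∀ {Ω : Type} [MeasurableSpace Ω] (P : Measure Ω) [IsProbabilityMeasure P] (Z : Fin 3 → Ω → ℝ),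
      (∀ l, Measurable (Z l)) → (∀ l l', l ≠ l' → IndepFun (Z l) (Z l') P) → ∀ X : ℝ, X₀ ≤ X →
      (∀ l, Tm (P.map (Z l)) X c e C) → (∀ l, Pt (P.map (Z l)) X s C) → ∀ h : ℝ, h ≤ Real.log X ^ W →
      P {ω | ∃ t : Fin 3 → ℤ, (∀ l, Near h (Z l ω) (t l)) ∧ ¬ Good3 μ t} ≤ ENNReal.ofReal (Real.log X ^ U)⁻¹ := by
  obtain ⟨X₀, h1⟩ := three_main c e s C hc hc1 he he1 hs1 hC (μ / 2) (by linarith)
    (hμs.imp (fun h => by linarith) (fun h => by linarith)) W U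
  refine ⟨X₀, fun P _ Z hZ hind X hX hTm hPt h hh => ?_⟩
  have h2 := h1 P Z hZ hind X hX hTm hPt
  have hsub : {ω | ∃ t : Fin 3 → ℤ, (∀ l, Near h (Z l ω) (t l)) ∧ ¬ Good3 μ t} ⊆
      {ω | ∃ t t' : Fin 3 → ℤ, (∀ l, |(t' l : ℝ) - Z l ω| ≤ Real.log X ^ W) ∧ (∀ l, (t l).natAbs = (t' l).natAbs) ∧
        ¬ Three (μ / 2) t} := by
    rintro ω ⟨t, ht, hbad⟩
    choose t' h3 h4 using fun l => (ht l).ex
    refine ⟨t, t', fun l => (h3 l).trans hh, h4, fun hthree => hbad ⟨hthree.1, fun d hadm => ?_⟩⟩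
    have h5 := hthree.2 d hadm
    rwa [mul_div_cancel₀ _ (two_ne_zero)] at h5
  refine (measure_mono hsub).trans ?_
  rw [← ENNReal.ofReal_toReal (measure_ne_top P {ω | ∃ t t' : Fin 3 → ℤ, (∀ l, |(t' l : ℝ) - Z l ω| ≤ Real.log X ^ W) ∧
    (∀ l, (t l).natAbs = (t' l).natAbs) ∧ ¬ Three (μ / 2) t})]
  exact ENNReal.ofReal_le_ofReal h2

lemma ae_of_ev {Ω : Type} [MeasurableSpace Ω] (P : Measure Ω) (E : ℕ → Set Ω) (a : ℕ → ℝ) (h : ∀ᶠ k in atTop, P (E k) ≤ ENNReal.ofReal (a k))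
    (hs : Summable a) : ∀ᵐ ω ∂P, ∀ᶠ k in atTop, ω ∉ E k := by
  classical
  obtain ⟨k₀, hk⟩ := eventually_atTop.1 h
  obtain ⟨E', hE'⟩ : ∃ E' : ℕ → Set Ω, E' = fun k => if k₀ ≤ k then E k else ∅ := ⟨_, rfl⟩
  have h1 : ∀ k, P (E' k) ≤ ENNReal.ofReal (a k) := by
    intro k
    rw [hE']
    dsimp only
    split_ifs with h2
    · exact hk k h2
    · rw [measure_empty]
      exact zero_le
  have h2 : ∀ᵐ ω ∂P, ∀ᶠ k in atTop, ω ∉ E' k :=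
    ae_eventually_notMem (ne_top_of_le_ne_top hs.tsum_ofReal_ne_top (ENNReal.tsum_le_tsum h1))
  filter_upwards [h2] with ω hω
  filter_upwards [hω, eventually_ge_atTop k₀] with k hk1 hk2
  rw [hE'] at hk1
  dsimp only at hk1
  rw [if_pos hk2] at hk1
  exact hk1

end Pool.Agent.HP25.PS
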