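import Pool.Agent.HP25.PS.T7
import Pool.Agent.HP25.PS.T8

set_option autoImplicit false

/-! Coefficients near multiples of random real numbers. -/

namespace Pool.Agent.HP25.PS

open Finset MeasureTheory ProbabilityTheory Filter Topology
open Pool.Agent.Y883.T5 Pool.Agent.Y883.T6
open Pool.Agent.HP25.FD (Decay)

/-- the random number `x` is bounded by `A`, its law has a Fourier transform of polynomial decay, and the probability
of every interval of length `2 r` is at most `C r ^ s` -/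
structure Rnd {Ω : Type} [MeasurableSpace Ω] (P : Measure Ω) (C δ A s : ℝ) (x : Ω → ℝ) : Prop where
  meas : Measurable x
  bdd : ∀ᵐ ω ∂P, |x ω| ≤ A
  decay : ∀ u : ℝ, ‖charFun (P.map x) u‖ * |u| ^ δ ≤ C
  frost : ∀ u r : ℝ, 0 < r → P.real {ω | |x ω - u| ≤ r} ≤ C * r ^ s

theorem rnd_tm (C δ A s : ℝ) (hδ : 0 < δ) (hs1 : s ≤ 1) : ∃ c C' : ℝ, 0 < c ∧ c ≤ 1 ∧ 1 ≤ C' ∧
    ∀ {Ω : Type} [MeasurableSpace Ω] (P : Measure Ω) [IsProbabilityMeasure P] (x : Ω → ℝ), Rnd P C δ A s x →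
      ∀ lam : ℝ, 1 ≤ lam → Tm (P.map (fun ω => lam * x ω)) lam c 1 C' ∧ Pt (P.map (fun ω => lam * x ω)) lam s C' := by
  obtain ⟨c, C₁, hc, hc1, hC₁, h1⟩ := tm_decay C δ A hδ
  refine ⟨c, max C₁ C, hc, hc1, le_trans hC₁ (le_max_left _ _), fun P _ x hx lam hlam => ?_⟩
  have hlam0 : 0 < lam := by linarith
  have hprob : IsProbabilityMeasure (P.map x) := Measure.isProbabilityMeasure_map hx.meas.aemeasurable
  have hA : (P.map x) {x | A < |x|} = 0 := by
    rw [Measure.map_apply hx.meas (measurableSet_lt measurable_const (by fun_prop))]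
    have := hx.bdd
    rw [ae_iff] at this
    refine measure_mono_null ?_ this
    intro ω hω
    exact not_le.2 hω
  have h2 := h1 (P.map x) hx.decay hA lam hlam
  have hmm : (P.map x).map (fun z => lam * z) = P.map (fun ω => lam * x ω) := by
    rw [Measure.map_map (by fun_prop) hx.meas]
    rfl
  rw [hmm] at h2
  have hm' : Measurable fun ω => lam * x ω := hx.meas.const_mul lam
  have hbdd : (P.map (fun ω => lam * x ω)) {z | max C₁ C * lam < |z|} = 0 := by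
    refine measure_mono_null ?_ h2.bdd
    intro z hz
    have h3 : C₁ * lam ≤ max C₁ C * lam := mul_le_mul_of_nonneg_right (le_max_left _ _) hlam0.le
    exact lt_of_le_of_lt h3 hz
  refine ⟨⟨hbdd, fun n h hh => (h2.pt n h hh).trans ?_, fun r h hr hh => (h2.dv r h hr hh).trans ?_⟩, ⟨hbdd, fun n h hh => ?_⟩⟩
  · gcongr
    exact le_max_left _ _
  · gcongr
    exact le_max_left _ _
  · have hh0 : 0 < h := by linarith
    have hm : MeasurableSet {z : ℝ | |(n : ℝ) - z| ≤ h} := measurableSet_le (by fun_prop) measurable_const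
    rw [map_measureReal_apply hm' hm]
    have hsub : (fun ω => lam * x ω) ⁻¹' {z : ℝ | |(n : ℝ) - z| ≤ h} ⊆ {ω | |x ω - n / lam| ≤ h / lam} := by
      intro ω hω
      simp only [Set.mem_preimage, Set.mem_ofPred_eq] at hω ⊢
      have e : x ω - n / lam = -((n : ℝ) - lam * x ω) / lam := by field_simp; ring
      rw [e, abs_div, abs_neg, abs_of_pos hlam0]
      gcongr
    have hP := measure_ne_top P {ω | |x ω - n / lam| ≤ h / lam}
    refine (measureReal_mono hsub hP).trans ((hx.frost (n / lam) (h / lam) (by positivity)).trans ?_)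
    have hC0 : 0 ≤ C := by
      have h5 := hx.frost 0 1 one_pos
      rw [Real.one_rpow, mul_one] at h5
      exact le_trans measureReal_nonneg h5
    have h4 : (h / lam) ^ s ≤ h * lam ^ (-s) := by
      rw [Real.div_rpow hh0.le hlam0.le, Real.rpow_neg hlam0.le, div_eq_mul_inv]
      apply mul_le_mul_of_nonneg_right _ (by positivity)
      calc h ^ s ≤ h ^ (1 : ℝ) := Real.rpow_le_rpow_of_exponent_le hh hs1
        _ = h := Real.rpow_one h
    calc C * (h / lam) ^ s ≤ C * (h * lam ^ (-s)) := mul_le_mul_of_nonneg_left h4 hC0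
      _ = C * h * lam ^ (-s) := by ring
      _ ≤ max C₁ C * h * lam ^ (-s) := by
          gcongr
          exact le_max_right _ _

theorem four_one (C δ A s : ℝ) (hδ : 0 < δ) (hs1 : s ≤ 1) (μ : ℝ) (hμ : 1 < μ) (hμs : min (3 / 2) (2 - s) < μ) (T W U : ℕ) :
    ∃ lam₀ : ℝ, ∀ {Ω : Type} [MeasurableSpace Ω] (P : Measure Ω) [IsProbabilityMeasure P] (x : Ω → ℝ), Rnd P C δ A s x →
      ∀ lam : ℝ, lam₀ ≤ lam →
      P {ω | ∃ t : ℤ, Near (Real.log lam ^ W) (lam * x ω) t ∧ ¬ Good μ (Real.log lam ^ T) t} ≤ ENNReal.ofReal (Real.log lam ^ U)⁻¹ := by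
  obtain ⟨c, C', hc, hc1, hC', h1⟩ := rnd_tm C δ A s hδ hs1
  have hμs' : 2 - s < μ ∨ 3 / 2 < μ := by
    rcases min_lt_iff.1 hμs with h | h
    · exact Or.inr h
    · exact Or.inl h
  obtain ⟨X₀, h2⟩ := one_event c 1 s C' hc hc1 one_pos hs1 hC' μ hμ hμs' T W U
  refine ⟨max X₀ 1, fun P _ x hx lam hlam => ?_⟩
  obtain ⟨h3, h4⟩ := h1 P x hx lam ((le_max_right _ _).trans hlam)
  exact h2 P (fun ω => lam * x ω) (hx.meas.const_mul lam) lam ((le_max_left _ _).trans hlam) h3 h4 _ _ le_rfl le_rfl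

theorem four_three (C δ A s : ℝ) (hδ : 0 < δ) (hs1 : s ≤ 1) (μ : ℝ) (hμ : 2 < μ) (hμs : min 3 (4 - 2 * s) < μ) (W U : ℕ) :
    ∃ lam₀ : ℝ, ∀ {Ω : Type} [MeasurableSpace Ω] (P : Measure Ω) [IsProbabilityMeasure P] (x : Fin 3 → Ω → ℝ),
      (∀ l, Rnd P C δ A s (x l)) → (∀ l l', l ≠ l' → IndepFun (x l) (x l') P) → ∀ lam : ℝ, lam₀ ≤ lam →
      P {ω | ∃ t : Fin 3 → ℤ, (∀ l, Near (Real.log lam ^ W) (lam * x l ω) (t l)) ∧ ¬ Good3 μ t} ≤
        ENNReal.ofReal (Real.log lam ^ U)⁻¹ := by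
  obtain ⟨c, C', hc, hc1, hC', h1⟩ := rnd_tm C δ A s hδ hs1
  have hμs' : 4 - 2 * s < μ ∨ 3 < μ := by
    rcases min_lt_iff.1 hμs with h | h
    · exact Or.inr h
    · exact Or.inl h
  obtain ⟨X₀, h2⟩ := three_event c 1 s C' hc hc1 (by norm_num) le_rfl hs1 hC' μ hμ hμs' W U
  refine ⟨max X₀ 1, fun P _ x hx hind lam hlam => ?_⟩
  have h3 := fun l => h1 P (x l) (hx l) lam ((le_max_right _ _).trans hlam)
  exact h2 P (fun l ω => lam * x l ω) (fun l => (hx l).meas.const_mul lam)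
    (fun l l' hll => (hind l l' hll).comp (φ := fun z => lam * z) (ψ := fun z => lam * z) (by fun_prop) (by fun_prop))
    lam ((le_max_left _ _).trans hlam) (fun l => (h3 l).1) (fun l => (h3 l).2) _ le_rfl

/-- a countable set of exponents is enough -/
lemma ex_exp' {m μ : ℝ} (h : m < μ) : ∃ n : ℕ, m + 1 / ((n : ℝ) + 1) < μ := by
  obtain ⟨n, hn⟩ := exists_nat_one_div_lt (show 0 < μ - m by linarith)
  exact ⟨n, by linarith⟩

theorem four_ae (C δ A s : ℝ) (hδ : 0 < δ) (hs1 : s ≤ 1) {Ω : Type} [MeasurableSpace Ω] (P : Measure Ω)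
    [IsProbabilityMeasure P] (x : ℕ → Ω → ℝ) (hx : ∀ l, Rnd P C δ A s (x l)) (hind : ∀ l l', l ≠ l' → IndepFun (x l) (x l') P)
    (lam : ℕ → ℝ) (hlam : Tendsto lam atTop atTop) (U : ℕ) (hU : Summable fun j => (Real.log (lam j) ^ U)⁻¹) :
    ∀ᵐ ω ∂P,
      (∀ μ : ℝ, 1 < μ → min (3 / 2) (2 - s) < μ → ∀ l T W : ℕ, ∀ᶠ j : ℕ in atTop, ∀ t : ℤ,
        Near (Real.log (lam j) ^ W) (lam j * x l ω) t → Good μ (Real.log (lam j) ^ T) t) ∧
      (∀ μ : ℝ, 2 < μ → min 3 (4 - 2 * s) < μ → ∀ φ : Fin 3 → ℕ, Function.Injective φ → ∀ W : ℕ, ∀ᶠ j : ℕ in atTop, ∀ t : Fin 3 → ℤ,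
        (∀ l, Near (Real.log (lam j) ^ W) (lam j * x (φ l) ω) (t l)) → Good3 μ t) := by
  obtain ⟨m, hm⟩ : ∃ m : ℝ, m = max 1 (min (3 / 2) (2 - s)) := ⟨_, rfl⟩
  obtain ⟨m', hm'⟩ : ∃ m' : ℝ, m' = max 2 (min 3 (4 - 2 * s)) := ⟨_, rfl⟩
  have hm1 : 1 ≤ m := by rw [hm]; exact le_max_left _ _
  have hm2 : min (3 / 2) (2 - s) ≤ m := by rw [hm]; exact le_max_right _ _
  have hm3 : 2 ≤ m' := by rw [hm']; exact le_max_left _ _
  have hm4 : min 3 (4 - 2 * s) ≤ m' := by rw [hm']; exact le_max_right _ _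
  have h1 : ∀ᵐ ω ∂P, ∀ n l T W : ℕ, ∀ᶠ j : ℕ in atTop, ω ∉ {ω | ∃ t : ℤ, Near (Real.log (lam j) ^ W) (lam j * x l ω) t ∧
      ¬ Good (m + 1 / ((n : ℝ) + 1)) (Real.log (lam j) ^ T) t} := by
    rw [ae_all_iff]
    intro n
    rw [ae_all_iff]
    intro l
    rw [ae_all_iff]
    intro T
    rw [ae_all_iff]
    intro W
    have hn : 0 < 1 / ((n : ℝ) + 1) := by positivity
    obtain ⟨lam₀, h2⟩ := four_one C δ A s hδ hs1 (m + 1 / ((n : ℝ) + 1)) (by linarith) (by linarith) T W U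
    refine ae_of_ev P _ (fun j => (Real.log (lam j) ^ U)⁻¹) ?_ hU
    filter_upwards [hlam.eventually_ge_atTop lam₀] with j hj
    exact h2 P (x l) (hx l) (lam j) hj
  have h1' : ∀ᵐ ω ∂P, ∀ (n W : ℕ) (φ : Fin 3 → ℕ), Function.Injective φ → ∀ᶠ j : ℕ in atTop, ω ∉ {ω | ∃ t : Fin 3 → ℤ,
      (∀ l, Near (Real.log (lam j) ^ W) (lam j * x (φ l) ω) (t l)) ∧ ¬ Good3 (m' + 1 / ((n : ℝ) + 1)) t} := by
    rw [ae_all_iff]
    intro n
    rw [ae_all_iff]
    intro W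
    rw [ae_all_iff]
    intro φ
    by_cases hφ : Function.Injective φ
    swap
    · filter_upwards with ω h
      exact absurd h hφ
    have hn : 0 < 1 / ((n : ℝ) + 1) := by positivity
    obtain ⟨lam₀, h2⟩ := four_three C δ A s hδ hs1 (m' + 1 / ((n : ℝ) + 1)) (by linarith) (by linarith) W U
    have h3 := ae_of_ev P (fun j => {ω | ∃ t : Fin 3 → ℤ,
      (∀ l, Near (Real.log (lam j) ^ W) (lam j * x (φ l) ω) (t l)) ∧ ¬ Good3 (m' + 1 / ((n : ℝ) + 1)) t})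
      (fun j => (Real.log (lam j) ^ U)⁻¹) (by
        filter_upwards [hlam.eventually_ge_atTop lam₀] with j hj
        exact h2 P (fun l => x (φ l)) (fun l => hx (φ l)) (fun l l' hll => hind _ _ fun h => hll (hφ h)) (lam j) hj) hU
    filter_upwards [h3] with ω hω _
    exact hω
  filter_upwards [h1, h1'] with ω hω hω'
  refine ⟨fun μ hμ hμs l T W => ?_, fun μ hμ hμs φ hφ W => ?_⟩
  · have h3 : m < μ := by rw [hm]; exact max_lt hμ hμs
    obtain ⟨n, hn⟩ := ex_exp' h3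
    filter_upwards [hω n l T W] with j hj t ht
    by_contra hbad
    exact hj ⟨t, ht, fun hgood => hbad (hgood.mono hn.le)⟩
  · have h3 : m' < μ := by rw [hm']; exact max_lt hμ hμs
    obtain ⟨n, hn⟩ := ex_exp' h3
    filter_upwards [hω' n W φ hφ] with j hj t ht
    by_contra hbad
    exact hj ⟨t, ht, fun hgood => hbad (hgood.mono hn.le)⟩

end Pool.Agent.HP25.PS
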