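import Pool.Agent.HP25.PS.T1

set_option autoImplicit false

/-! One random number: thin sets of divisors, sets of small dimension. -/

namespace Pool.Agent.HP25.PS

open Finset MeasureTheory ProbabilityTheory

/-- the set `F` has at most `K X ^ σ` elements up to `X` -/
def Small (F : Set ℕ) (σ : ℝ) : Prop :=
  ∃ K : ℝ, 0 < K ∧ ∀ (S : Finset ℕ) (X : ℕ), 1 ≤ X → (∀ d ∈ S, d ∈ F ∧ 1 ≤ d ∧ d ≤ X) → (S.card : ℝ) ≤ K * (X : ℝ) ^ σ

lemma small_mono {F : Set ℕ} {σ τ : ℝ} (h : Small F σ) (hle : σ ≤ τ) : Small F τ := by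
  obtain ⟨K, hK, h1⟩ := h
  refine ⟨K, hK, fun S X hX hS => (h1 S X hX hS).trans ?_⟩
  exact mul_le_mul_of_nonneg_left (Real.rpow_le_rpow_of_exponent_le (by exact_mod_cast hX) hle) hK.le

open Classical in
lemma small_of {F : Set ℕ} {σ : ℝ} (hσ : 0 ≤ σ) {X₀ : ℕ} (h : ∀ X : ℕ, X₀ ≤ X →
      (((Icc 1 X).filter (fun e => e ∈ F)).card : ℝ) ≤ (X : ℝ) ^ σ) : Small F σ := by
  refine ⟨X₀ + 1, by positivity, fun S X hX hS => ?_⟩
  have hsub : S ⊆ (Icc 1 X).filter (fun e => e ∈ F) := by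
    intro d hd
    obtain ⟨h1, h2, h3⟩ := hS d hd
    exact mem_filter.2 ⟨mem_Icc.2 ⟨h2, h3⟩, h1⟩
  have h1 : (S.card : ℝ) ≤ (((Icc 1 X).filter (fun e => e ∈ F)).card : ℝ) := by exact_mod_cast card_le_card hsub
  have hX1 : (1 : ℝ) ≤ (X : ℝ) ^ σ := Real.one_le_rpow (by exact_mod_cast hX) hσ
  rcases le_total X₀ X with h2 | h2
  · refine h1.trans ((h X h2).trans ?_)
    have : (0 : ℝ) ≤ X₀ := Nat.cast_nonneg _
    nlinarith
  · have h3 : (((Icc 1 X).filter (fun e => e ∈ F)).card : ℝ) ≤ X := by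
      have := card_filter_le (Icc 1 X) (fun e => e ∈ F)
      rw [Nat.card_Icc] at this
      exact_mod_cast (by omega : ((Icc 1 X).filter (fun e => e ∈ F)).card ≤ X)
    have h4 : (X : ℝ) ≤ X₀ := by exact_mod_cast h2
    refine h1.trans (h3.trans (h4.trans ?_))
    have : (0 : ℝ) ≤ X₀ := Nat.cast_nonneg _
    nlinarith

/-- a bound for the integers near a number -/
lemma near_le {C X h z : ℝ} (hC : 1 ≤ C) (hX : 1 ≤ X) (hz : |z| ≤ C * X) (hh : h ≤ X) {t : ℤ} (ht : |(t : ℝ) - z| ≤ h) :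
    t.natAbs ≤ ⌊2 * C * X⌋₊ := by
  apply Nat.le_floor
  exact natAbs_le hz (by nlinarith) ht

/-- the integers close to the number have no large divisor in a thin set -/
theorem thin_div {D : Set ℕ} (hD : Thin D) (c e C : ℝ) (hc : 0 < c) (hc1 : c ≤ 1) (he : 0 < e) (hC : 1 ≤ C) :
    ∃ K : ℝ, 0 < K ∧ ∀ (μ : Measure ℝ) [IsProbabilityMeasure μ] (X : ℝ), 1 ≤ X → Tm μ X c e C → ∀ h y : ℝ, 1 ≤ h → h ≤ X → 1 ≤ y →
      μ.real {z | ∃ t : ℤ, |(t : ℝ) - z| ≤ h ∧ t ≠ 0 ∧ ∃ d ∈ D, y < (d : ℝ) ∧ (d : ℤ) ∣ t} ≤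
        K * h * (y ^ (-(e / 2)) + X ^ (-(c / 2))) := by
  classical
  obtain ⟨K₁, hK₁, h1⟩ := thin_sum hD (e / 2) (by positivity)
  obtain ⟨K₂, hK₂, h2⟩ := hD (c / 2) (by positivity)
  refine ⟨C * (K₁ + K₂ * (2 * C)), by positivity, fun μ _ X hX hT h y hh hhX hy => ?_⟩
  have hX0 : 0 < X := by linarith
  have hy0 : 0 < y := by linarith
  obtain ⟨N, hN⟩ : ∃ N : ℕ, N = ⌊2 * C * X⌋₊ := ⟨_, rfl⟩
  have hNX : (N : ℝ) ≤ 2 * C * X := by rw [hN]; exact Nat.floor_le (by positivity)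
  have hN1 : 1 ≤ N := by rw [hN]; exact Nat.le_floor (by push_cast; nlinarith)
  obtain ⟨S, hS⟩ : ∃ S : Finset ℕ, S = (Icc 1 N).filter (fun d => d ∈ D ∧ y < (d : ℝ)) := ⟨_, rfl⟩
  have hSm : ∀ d ∈ S, d ∈ D ∧ 1 ≤ d ∧ d ≤ N ∧ y < (d : ℝ) := by
    intro d hd
    rw [hS, mem_filter, mem_Icc] at hd
    exact ⟨hd.2.1, hd.1.1, hd.1.2, hd.2.2⟩
  have hcov : {z : ℝ | ∃ t : ℤ, |(t : ℝ) - z| ≤ h ∧ t ≠ 0 ∧ ∃ d ∈ D, y < (d : ℝ) ∧ (d : ℤ) ∣ t} ⊆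
      {z | C * X < |z|} ∪ ⋃ d ∈ S, {z : ℝ | ∃ t : ℤ, |(t : ℝ) - z| ≤ h ∧ (d : ℤ) ∣ t} := by
    rintro z ⟨t, ht, ht0, d, hd, hyd, hdt⟩
    by_cases hz : C * X < |z|
    · exact Or.inl hz
    · right
      rw [Set.mem_iUnion₂]
      have h3 := near_le hC hX (not_lt.1 hz) hhX ht
      have h4 : d ∣ t.natAbs := Int.natCast_dvd.1 hdt
      have h5 : d ≤ t.natAbs := Nat.le_of_dvd (Int.natAbs_pos.2 ht0) h4
      refine ⟨d, ?_, t, ht, hdt⟩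
      rw [hS, mem_filter, mem_Icc]
      refine ⟨⟨?_, by omega⟩, hd, hyd⟩
      have : (0 : ℝ) < d := by linarith
      exact_mod_cast this
  have hb : μ.real {z | C * X < |z|} = 0 := by rw [measureReal_def, hT.bdd]; rfl
  have hsum1 : ∑ d ∈ S, (d : ℝ) ^ (-e) ≤ y ^ (-(e / 2)) * K₁ := by
    calc ∑ d ∈ S, (d : ℝ) ^ (-e) ≤ ∑ d ∈ S, y ^ (-(e / 2)) * (d : ℝ) ^ (-(e / 2)) := by
          apply sum_le_sum
          intro d hd
          obtain ⟨_, h3, _, h4⟩ := hSm d hd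
          have hd0 : (0 : ℝ) < d := by exact_mod_cast h3
          have e1 : (d : ℝ) ^ (-e) = (d : ℝ) ^ (-(e / 2)) * (d : ℝ) ^ (-(e / 2)) := by
            rw [← Real.rpow_add hd0]
            congr 1
            ring
          rw [e1]
          exact mul_le_mul_of_nonneg_right (Real.rpow_le_rpow_of_nonpos hy0 h4.le (by linarith)) (by positivity)
      _ = y ^ (-(e / 2)) * ∑ d ∈ S, (d : ℝ) ^ (-(e / 2)) := by rw [mul_sum]
      _ ≤ _ := mul_le_mul_of_nonneg_left (h1 S fun d hd => ⟨(hSm d hd).1, (hSm d hd).2.1⟩) (by positivity)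
  have hcard : (S.card : ℝ) * X ^ (-c) ≤ K₂ * (2 * C) * X ^ (-(c / 2)) := by
    have h3 : (S.card : ℝ) ≤ K₂ * (N : ℝ) ^ (c / 2) := h2 S N hN1 fun d hd => ⟨(hSm d hd).1, (hSm d hd).2.1, (hSm d hd).2.2.1⟩
    have h4 : (N : ℝ) ^ (c / 2) ≤ 2 * C * X ^ (c / 2) := by
      calc (N : ℝ) ^ (c / 2) ≤ (2 * C * X) ^ (c / 2) := Real.rpow_le_rpow (Nat.cast_nonneg _) hNX (by positivity)
        _ = (2 * C) ^ (c / 2) * X ^ (c / 2) := Real.mul_rpow (by positivity) hX0.le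
        _ ≤ (2 * C) ^ (1 : ℝ) * X ^ (c / 2) := by
            apply mul_le_mul_of_nonneg_right _ (by positivity)
            exact Real.rpow_le_rpow_of_exponent_le (by linarith) (by linarith)
        _ = _ := by rw [Real.rpow_one]
    have e1 : X ^ (c / 2) * X ^ (-c) = X ^ (-(c / 2)) := by rw [← Real.rpow_add hX0]; congr 1; ring
    calc (S.card : ℝ) * X ^ (-c) ≤ (K₂ * (2 * C * X ^ (c / 2))) * X ^ (-c) := by
          apply mul_le_mul_of_nonneg_right _ (by positivity)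
          exact h3.trans (mul_le_mul_of_nonneg_left h4 hK₂.le)
      _ = K₂ * (2 * C) * (X ^ (c / 2) * X ^ (-c)) := by ring
      _ = _ := by rw [e1]
  have hy2 : 0 ≤ y ^ (-(e / 2)) := by positivity
  have hX2 : 0 ≤ X ^ (-(c / 2)) := by positivity
  calc μ.real {z : ℝ | ∃ t : ℤ, |(t : ℝ) - z| ≤ h ∧ t ≠ 0 ∧ ∃ d ∈ D, y < (d : ℝ) ∧ (d : ℤ) ∣ t}
      ≤ μ.real ({z | C * X < |z|} ∪ ⋃ d ∈ S, {z : ℝ | ∃ t : ℤ, |(t : ℝ) - z| ≤ h ∧ (d : ℤ) ∣ t}) :=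
        measureReal_mono hcov (measure_ne_top _ _)
    _ ≤ μ.real {z | C * X < |z|} + μ.real (⋃ d ∈ S, {z : ℝ | ∃ t : ℤ, |(t : ℝ) - z| ≤ h ∧ (d : ℤ) ∣ t}) := measureReal_union_le _ _
    _ ≤ 0 + ∑ d ∈ S, C * h * ((d : ℝ) ^ (-e) + X ^ (-c)) := by
        rw [hb]
        refine add_le_add le_rfl ((measureReal_biUnion_finset_le _ _).trans (sum_le_sum fun d hd => ?_))
        exact hT.dv d h (hSm d hd).2.1 hh
    _ = C * h * (∑ d ∈ S, (d : ℝ) ^ (-e) + (S.card : ℝ) * X ^ (-c)) := by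
        rw [zero_add, ← mul_sum, sum_add_distrib, sum_const, nsmul_eq_mul]
    _ ≤ C * h * (y ^ (-(e / 2)) * K₁ + K₂ * (2 * C) * X ^ (-(c / 2))) := by gcongr
    _ ≤ _ := by
        have e1 : 0 ≤ C * h := by positivity
        have e2 : y ^ (-(e / 2)) * K₁ + K₂ * (2 * C) * X ^ (-(c / 2)) ≤ (K₁ + K₂ * (2 * C)) * (y ^ (-(e / 2)) + X ^ (-(c / 2))) := by
          have : 0 ≤ K₂ * (2 * C) := by positivity
          nlinarith
        calc C * h * (y ^ (-(e / 2)) * K₁ + K₂ * (2 * C) * X ^ (-(c / 2))) ≤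
            C * h * ((K₁ + K₂ * (2 * C)) * (y ^ (-(e / 2)) + X ^ (-(c / 2)))) := mul_le_mul_of_nonneg_left e2 e1
          _ = _ := by ring

/-- the integers close to the number avoid a set of small dimension -/
theorem avoid {F : Set ℕ} {σ : ℝ} (hF : Small F σ) (hσ : 0 ≤ σ) (c C : ℝ) (hC : 1 ≤ C) (hσ1 : σ ≤ 1) :
    ∃ K : ℝ, 0 < K ∧ ∀ (μ : Measure ℝ) [IsProbabilityMeasure μ] (X : ℝ), 1 ≤ X → Pt μ X c C → ∀ h : ℝ, 1 ≤ h → h ≤ X →
      μ.real {z | ∃ t : ℤ, |(t : ℝ) - z| ≤ h ∧ t ≠ 0 ∧ t.natAbs ∈ F} ≤ K * h * X ^ (σ - c) := by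
  classical
  obtain ⟨K, hK, h1⟩ := hF
  refine ⟨2 * (K * (2 * C)) * C, by positivity, fun μ _ X hX hT h hh hhX => ?_⟩
  have hX0 : 0 < X := by linarith
  obtain ⟨N, hN⟩ : ∃ N : ℕ, N = ⌊2 * C * X⌋₊ := ⟨_, rfl⟩
  have hNX : (N : ℝ) ≤ 2 * C * X := by rw [hN]; exact Nat.floor_le (by positivity)
  have hN1 : 1 ≤ N := by rw [hN]; exact Nat.le_floor (by push_cast; nlinarith)
  obtain ⟨S, hS⟩ : ∃ S : Finset ℕ, S = (Icc 1 N).filter (fun d => d ∈ F) := ⟨_, rfl⟩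
  have hcov : {z : ℝ | ∃ t : ℤ, |(t : ℝ) - z| ≤ h ∧ t ≠ 0 ∧ t.natAbs ∈ F} ⊆
      {z | C * X < |z|} ∪ ⋃ d ∈ S, ({z : ℝ | |((d : ℤ) : ℝ) - z| ≤ h} ∪ {z : ℝ | |((-d : ℤ) : ℝ) - z| ≤ h}) := by
    rintro z ⟨t, ht, ht0, htF⟩
    by_cases hz : C * X < |z|
    · exact Or.inl hz
    · right
      rw [Set.mem_iUnion₂]
      refine ⟨t.natAbs, ?_, ?_⟩
      · rw [hS, mem_filter, mem_Icc, hN]
        exact ⟨⟨Int.natAbs_pos.2 ht0, near_le hC hX (not_lt.1 hz) hhX ht⟩, htF⟩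
      · rcases Int.natAbs_eq t with h2 | h2
        · left
          rw [Set.mem_ofPred_eq, ← h2]
          exact ht
        · right
          rw [Set.mem_ofPred_eq, ← h2]
          exact ht
  have hb : μ.real {z | C * X < |z|} = 0 := by rw [measureReal_def, hT.bdd]; rfl
  have hcard : (S.card : ℝ) ≤ K * (2 * C) * X ^ σ := by
    have h3 : (S.card : ℝ) ≤ K * (N : ℝ) ^ σ := h1 S N hN1 fun d hd => by
      rw [hS, mem_filter, mem_Icc] at hd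
      exact ⟨hd.2, hd.1.1, hd.1.2⟩
    calc (S.card : ℝ) ≤ K * (N : ℝ) ^ σ := h3
      _ ≤ K * (2 * C * X) ^ σ := by gcongr
      _ = K * ((2 * C) ^ σ * X ^ σ) := by rw [Real.mul_rpow (by positivity) hX0.le]
      _ ≤ K * ((2 * C) ^ (1 : ℝ) * X ^ σ) := by
          gcongr
          linarith
      _ = _ := by rw [Real.rpow_one]; ring
  calc μ.real {z : ℝ | ∃ t : ℤ, |(t : ℝ) - z| ≤ h ∧ t ≠ 0 ∧ t.natAbs ∈ F}
      ≤ μ.real ({z | C * X < |z|} ∪ ⋃ d ∈ S, ({z : ℝ | |((d : ℤ) : ℝ) - z| ≤ h} ∪ {z : ℝ | |((-d : ℤ) : ℝ) - z| ≤ h})) :=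
        measureReal_mono hcov (measure_ne_top _ _)
    _ ≤ μ.real {z | C * X < |z|} + μ.real (⋃ d ∈ S, ({z : ℝ | |((d : ℤ) : ℝ) - z| ≤ h} ∪ {z : ℝ | |((-d : ℤ) : ℝ) - z| ≤ h})) :=
        measureReal_union_le _ _
    _ ≤ 0 + ∑ d ∈ S, 2 * (C * h * X ^ (-c)) := by
        rw [hb]
        refine add_le_add le_rfl ((measureReal_biUnion_finset_le _ _).trans (sum_le_sum fun d _ => ?_))
        refine (measureReal_union_le _ _).trans ?_
        have e1 := hT.pt (d : ℤ) h hh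
        have e2 := hT.pt (-d : ℤ) h hh
        linarith
    _ = (S.card : ℝ) * (2 * (C * h * X ^ (-c))) := by rw [zero_add, sum_const, nsmul_eq_mul]
    _ ≤ (K * (2 * C) * X ^ σ) * (2 * (C * h * X ^ (-c))) := by gcongr
    _ = 2 * (K * (2 * C)) * C * h * (X ^ σ * X ^ (-c)) := by ring
    _ = _ := by rw [← Real.rpow_add hX0, ← sub_eq_add_neg]

/-- the integers close to the number are not small -/
theorem not_small (c e C : ℝ) (hC : 1 ≤ C) (hc : 0 < c) :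
    ∀ (μ : Measure ℝ) [IsProbabilityMeasure μ] (X : ℝ), 1 ≤ X → Tm μ X c e C → ∀ h : ℝ, 1 ≤ h →
      μ.real {z | ∃ t : ℤ, |(t : ℝ) - z| ≤ h ∧ |(t : ℝ)| ≤ X ^ (c / 2)} ≤ 2 * C * h * X ^ (-(c / 2)) := by
  intro μ _ X hX hT h hh
  have hX0 : 0 < X := by linarith
  have hXc : 1 ≤ X ^ (c / 2) := Real.one_le_rpow hX (by positivity)
  have hsub : {z : ℝ | ∃ t : ℤ, |(t : ℝ) - z| ≤ h ∧ |(t : ℝ)| ≤ X ^ (c / 2)} ⊆ {z : ℝ | |((0 : ℤ) : ℝ) - z| ≤ h + X ^ (c / 2)} := by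
    rintro z ⟨t, h1, h2⟩
    rw [Set.mem_ofPred_eq]
    have : ((0 : ℤ) : ℝ) - z = ((t : ℝ) - z) - t := by push_cast; ring
    rw [this]
    exact (abs_sub _ _).trans (add_le_add h1 h2)
  have h3 := hT.pt 0 (h + X ^ (c / 2)) (by linarith)
  have e1 : X ^ (c / 2) * X ^ (-c) = X ^ (-(c / 2)) := by rw [← Real.rpow_add hX0]; congr 1; ring
  have e2 : X ^ (-c) ≤ X ^ (-(c / 2)) := Real.rpow_le_rpow_of_exponent_le hX (by linarith)
  have e3 : 0 < X ^ (-(c / 2)) := Real.rpow_pos_of_pos hX0 _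
  refine (measureReal_mono hsub (measure_ne_top _ _)).trans (h3.trans ?_)
  calc C * (h + X ^ (c / 2)) * X ^ (-c) = C * h * X ^ (-c) + C * (X ^ (c / 2) * X ^ (-c)) := by ring
    _ ≤ C * h * X ^ (-(c / 2)) + C * h * X ^ (-(c / 2)) := by
        rw [e1]
        have : C * X ^ (-(c / 2)) ≤ C * h * X ^ (-(c / 2)) := by
          have : C ≤ C * h := by nlinarith
          exact mul_le_mul_of_nonneg_right this e3.le
        have h5 : C * h * X ^ (-c) ≤ C * h * X ^ (-(c / 2)) := mul_le_mul_of_nonneg_left e2 (by positivity)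
        linarith
    _ = _ := by ring

end Pool.Agent.HP25.PS
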