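import Pool.Agent.HP25.PS.T2
import Pool.Agent.Results.MP_3923f3_nt.OneLargeCoefficient

set_option autoImplicit false

/-! One random coefficient: small prime solutions. -/

namespace Pool.Agent.HP25.PS

open Finset MeasureTheory ProbabilityTheory Filter Topology
open Pool.Agent.Y883.T5 Pool.Agent.Y883.T6

/-- `t ≠ 0`, and all admissible equations with the coefficient `t` and two other coefficients of size at most
`(log X) ^ T` have a small solution. -/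
def One (θ : ℝ) (T : ℕ) (X : ℝ) (t : ℤ) : Prop :=
  t ≠ 0 ∧ ∀ a b d : ℤ, Admissible a b t d → |(a : ℝ)| ≤ Real.log X ^ T → |(b : ℝ)| ≤ Real.log X ^ T →
    SmallSolution θ a b t d

lemma abs_of_natAbs {t t' : ℤ} (h : t.natAbs = t'.natAbs) : |(t : ℝ)| = |(t' : ℝ)| := by
  rw [← Int.cast_abs, ← Int.cast_abs, Int.abs_eq_natAbs, Int.abs_eq_natAbs, h]

lemma ev_small (K δ ε : ℝ) (hδ : 0 < δ) (hε : 0 < ε) (n : ℕ) :
    ∀ᶠ X : ℝ in atTop, K * Real.log X ^ n * X ^ (-δ) ≤ ε := by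
  have h1 : Tendsto (fun X : ℝ => Real.log X ^ (n : ℝ) / X ^ δ) atTop (𝓝 0) :=
    (isLittleO_log_rpow_rpow_atTop (n : ℝ) hδ).tendsto_div_nhds_zero
  have h2 : Tendsto (fun X : ℝ => K * (Real.log X ^ (n : ℝ) / X ^ δ)) atTop (𝓝 (K * 0)) := h1.const_mul K
  rw [mul_zero] at h2
  filter_upwards [h2.eventually_le_const hε, eventually_gt_atTop 0] with X hX hX0
  refine le_trans (le_of_eq ?_) hX
  rw [Real.rpow_natCast, Real.rpow_neg hX0.le]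
  ring


open Classical in
/-- the set `F` of the criteria: empty, or of dimension less than `s` -/
lemma F_avoid (s C θ η : ℝ) (hs1 : s ≤ 1) (hC : 1 ≤ C) (hη0 : 0 < η) (hη : 2 - θ + η < s ∨ 3 / 2 < θ) {F : Set ℕ} {c₀ : ℕ}
    (hF : ∀ X : ℕ, c₀ ≤ X → (((Icc 1 X).filter (fun n => n ∈ F)).card : ℝ) ≤ (X : ℝ) ^ (2 - θ + η))
    (hF0 : 3 / 2 < θ → F = ∅) :
    ∃ K δ : ℝ, 0 < K ∧ 0 < δ ∧ ∀ (μ : Measure ℝ) [IsProbabilityMeasure μ] (X : ℝ), 1 ≤ X → Pt μ X s C →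
      ∀ h : ℝ, 1 ≤ h → h ≤ X →
      μ.real {z | ∃ t : ℤ, |(t : ℝ) - z| ≤ h ∧ t ≠ 0 ∧ t.natAbs ∈ F} ≤ K * h * X ^ (-δ) := by
  by_cases hθ : 3 / 2 < θ
  · refine ⟨1, 1, one_pos, one_pos, fun μ _ X hX _ h hh _ => ?_⟩
    rw [hF0 hθ]
    have : {z : ℝ | ∃ t : ℤ, |(t : ℝ) - z| ≤ h ∧ t ≠ 0 ∧ t.natAbs ∈ (∅ : Set ℕ)} = ∅ := by
      ext z
      simp
    rw [this, measureReal_empty]
    positivity
  · have h1 : 2 - θ + η < s := by
      rcases hη with h | h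
      · exact h
      · exact absurd h hθ
    rw [not_lt] at hθ
    have hS : Small F (2 - θ + η) := small_of (by linarith) hF
    obtain ⟨K, hK, h2⟩ := avoid hS (by linarith) s C hC (by linarith)
    refine ⟨K, s - (2 - θ + η), hK, by linarith, fun μ _ X hX hT h hh hhX => ?_⟩
    have := h2 μ X hX hT h hh hhX
    rw [neg_sub]
    exact this

/-- **one random coefficient** -/
theorem one_main (c e s C : ℝ) (hc : 0 < c) (hc1 : c ≤ 1) (he : 0 < e) (hs1 : s ≤ 1) (hC : 1 ≤ C) (θ : ℝ) (hθ : 1 < θ)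
    (hθc : 2 - s < θ ∨ 3 / 2 < θ) (T W U : ℕ) :
    ∃ X₀ : ℝ, ∀ (μ : Measure ℝ) [IsProbabilityMeasure μ] (X : ℝ), X₀ ≤ X → Tm μ X c e C → Pt μ X s C →
      μ.real {z | ∃ t t' : ℤ, |(t' : ℝ) - z| ≤ Real.log X ^ W ∧ t.natAbs = t'.natAbs ∧ ¬ One θ T X t} ≤
        (Real.log X ^ U)⁻¹ := by
  classical
  obtain ⟨D, hD, hmain, -⟩ := Pool.Agent.Results.MP_3923f3_nt.OneLargeCoefficient.result
  obtain ⟨T', hT'⟩ : ∃ T' : ℕ, T' = T + 1 + ⌈2 * ((W : ℝ) + U + 1) / e⌉₊ := ⟨_, rfl⟩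
  have hT1 : T + 1 ≤ T' := by omega
  have hT2 : (W : ℝ) + U + 1 ≤ T' * (e / 2) := by
    have h1 : 2 * ((W : ℝ) + U + 1) / e ≤ (T' : ℝ) := by
      refine (Nat.le_ceil _).trans ?_
      rw [hT']
      push_cast
      have : (0 : ℝ) ≤ T := Nat.cast_nonneg _
      linarith
    rw [div_le_iff₀ he] at h1
    linarith
  obtain ⟨η, hη0, hη⟩ : ∃ η : ℝ, 0 < η ∧ (2 - θ + η < s ∨ 3 / 2 < θ) := by
    rcases hθc with h | h
    · exact ⟨(θ - (2 - s)) / 2, by linarith, Or.inl (by linarith)⟩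
    · exact ⟨1, one_pos, Or.inr h⟩
  obtain ⟨c₀, F, hF1, hF2, hF3⟩ := hmain θ hθ η hη0 T'
  obtain ⟨K₁, hK₁, h1⟩ := thin_div (thin_of hD) c e C hc hc1 he hC
  obtain ⟨K₂, δ, hK₂, hδ, h2⟩ := F_avoid s C θ η hs1 hC hη0 hη hF1 hF2
  have h3 := not_small c e C hC hc
  -- the size of `X`
  have hlog : Tendsto Real.log atTop atTop := Real.tendsto_log_atTop
  have ev1 := ev_small (2 * C + K₁) (c / 2) (1 / 4) (by positivity) (by norm_num) (W + U)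
  have ev2 := ev_small K₂ δ (1 / 4) hδ (by norm_num) (W + U)
  have ev3 : ∀ᶠ X : ℝ in atTop, (2 / c) ^ T' ≤ Real.log X := hlog.eventually_ge_atTop _
  have ev4 : ∀ᶠ X : ℝ in atTop, 2 / c ≤ Real.log X := hlog.eventually_ge_atTop _
  have ev5 : ∀ᶠ X : ℝ in atTop, 1 ≤ Real.log X := hlog.eventually_ge_atTop _
  have ev6 : ∀ᶠ X : ℝ in atTop, 4 * (K₁ * (c / 2) ^ (-((T' : ℝ) * (e / 2)))) ≤ Real.log X := hlog.eventually_ge_atTop _
  have ev7 : ∀ᶠ X : ℝ in atTop, 1 * Real.log X ^ W * X ^ (-(1 : ℝ)) ≤ 1 := ev_small 1 1 1 one_pos one_pos W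
  have ev8 : ∀ᶠ X : ℝ in atTop, (c₀ : ℝ) + 2 ≤ X ^ (c / 2) := (tendsto_rpow_atTop (by positivity : 0 < c / 2)).eventually_ge_atTop _
  obtain ⟨X₀, hX₀⟩ := eventually_atTop.1 (ev1.and (ev2.and (ev3.and (ev4.and (ev5.and (ev6.and (ev7.and (ev8.and
    (eventually_ge_atTop (1 : ℝ))))))))))
  refine ⟨X₀, fun μ _ X hX hTm hPt => ?_⟩
  obtain ⟨g1, g2, g3, g4, g5, g6, g7, g8, g9⟩ := hX₀ X hX
  have hX0 : 0 < X := by linarith
  obtain ⟨L, hL⟩ : ∃ L, L = Real.log X := ⟨_, rfl⟩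
  rw [← hL] at g1 g2 g3 g4 g5 g6 g7 ⊢
  have hL0 : 0 < L := by linarith
  have hh1 : 1 ≤ L ^ W := one_le_pow₀ g5
  have hhX : L ^ W ≤ X := by
    rw [one_mul, Real.rpow_neg_one, ← div_eq_mul_inv, div_le_one hX0] at g7
    exact g7
  obtain ⟨y, hy⟩ : ∃ y, y = (c / 2 * L) ^ T' := ⟨_, rfl⟩
  have hcL : 1 ≤ c / 2 * L := by
    have := mul_le_mul_of_nonneg_left g4 (by positivity : 0 ≤ c / 2)
    have e1 : c / 2 * (2 / c) = 1 := by field_simp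
    linarith
  have hy1 : 1 ≤ y := by rw [hy]; exact one_le_pow₀ hcL
  have hTy : L ^ T ≤ y := by
    rw [hy]
    have e1 : (c / 2 * L) ^ T' = (c / 2) ^ T' * L ^ T' := mul_pow _ _ _
    have e2 : L ^ T' = L ^ (T' - T - 1) * L ^ T * L := by
      rw [← pow_add, ← pow_succ]
      congr 1
      omega
    rw [e1, e2]
    have e3 : 1 ≤ L ^ (T' - T - 1) := one_le_pow₀ g5
    have e4 : 1 ≤ (c / 2) ^ T' * L := by
      have h5 := mul_le_mul_of_nonneg_left g3 (by positivity : 0 ≤ (c / 2) ^ T')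
      have h6 : (c / 2) ^ T' * (2 / c) ^ T' = 1 := by
        rw [← mul_pow]
        have : c / 2 * (2 / c) = 1 := by field_simp
        rw [this, one_pow]
      linarith
    have e5 : 0 < L ^ T := by positivity
    calc L ^ T = 1 * L ^ T * 1 := by ring
      _ ≤ (L ^ (T' - T - 1) * L ^ T) * ((c / 2) ^ T' * L) := by
          apply mul_le_mul _ e4 (by norm_num) (by positivity)
          exact mul_le_mul_of_nonneg_right e3 e5.le
      _ = _ := by ring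
  -- the covering
  have hcov : {z : ℝ | ∃ t t' : ℤ, |(t' : ℝ) - z| ≤ L ^ W ∧ t.natAbs = t'.natAbs ∧ ¬ One θ T X t} ⊆
      ({z : ℝ | ∃ t : ℤ, |(t : ℝ) - z| ≤ L ^ W ∧ |(t : ℝ)| ≤ X ^ (c / 2)} ∪
        {z : ℝ | ∃ t : ℤ, |(t : ℝ) - z| ≤ L ^ W ∧ t ≠ 0 ∧ ∃ d ∈ D, y < (d : ℝ) ∧ (d : ℤ) ∣ t}) ∪
      {z : ℝ | ∃ t : ℤ, |(t : ℝ) - z| ≤ L ^ W ∧ t ≠ 0 ∧ t.natAbs ∈ F} := by
    rintro z ⟨t, t', ht, hnat, hbad⟩
    by_contra hcon
    rw [Set.mem_union, Set.mem_union, not_or, not_or] at hcon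
    obtain ⟨⟨k1, k2⟩, k3⟩ := hcon
    have habs : |(t : ℝ)| = |(t' : ℝ)| := abs_of_natAbs hnat
    have k1' : X ^ (c / 2) < |(t : ℝ)| := by
      by_contra hle
      rw [habs] at hle
      exact k1 ⟨t', ht, not_lt.1 hle⟩
    have hXc0 : 0 < X ^ (c / 2) := Real.rpow_pos_of_pos hX0 _
    have ht0 : t ≠ 0 := by
      intro h0
      rw [h0] at k1'
      simp only [Int.cast_zero, abs_zero] at k1'
      linarith
    have ht0' : t' ≠ 0 := by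
      intro h0
      rw [h0, Int.natAbs_zero, Int.natAbs_eq_zero] at hnat
      exact ht0 hnat
    have hlt : c / 2 * L ≤ Real.log |(t : ℝ)| := by
      rw [hL, ← Real.log_rpow hX0]
      exact Real.log_le_log hXc0 k1'.le
    have hyt : y ≤ Real.log |(t : ℝ)| ^ T' := by
      rw [hy]
      exact pow_le_pow_left₀ (by linarith) hlt T'
    apply hbad
    refine ⟨ht0, fun a b d had ha hb => ?_⟩
    rw [← hL] at ha hb
    obtain ⟨p, q, r, hp, hq, hr, heq, hle⟩ := hF3 a b t d had (by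
        have h5 : ((c₀ : ℕ) : ℝ) ≤ (t.natAbs : ℝ) := by
          rw [Nat.cast_natAbs, Int.cast_abs]
          linarith
        exact_mod_cast h5) (fun hF => k3 ⟨t', ht, ht0', hnat ▸ hF⟩)
      (fun e heD hlt' hdvd => k2 ⟨t', ht, ht0', e, heD, lt_of_le_of_lt hyt hlt',
        Int.natCast_dvd.2 (hnat ▸ Int.natCast_dvd.1 hdvd)⟩)
      (ha.trans (hTy.trans hyt)) (hb.trans (hTy.trans hyt))
    refine ⟨p, q, r, hp, hq, hr, heq, hle.trans ?_⟩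
    gcongr
    push_cast
    exact (le_max_right _ _).trans ((le_max_right _ _).trans (le_max_right _ _))
  have b1 := h3 μ X g9 hTm (L ^ W) hh1
  have b2 := h1 μ X g9 hTm (L ^ W) y hh1 hhX hy1
  have b3 := h2 μ X g9 hPt (L ^ W) hh1 hhX
  have hy2 : y ^ (-(e / 2)) ≤ (c / 2) ^ (-((T' : ℝ) * (e / 2))) * (L ^ (W + U + 1))⁻¹ := by
    have e1 : y ^ (-(e / 2)) = (c / 2 * L) ^ (-((T' : ℝ) * (e / 2))) := by
      rw [hy, ← Real.rpow_natCast, ← Real.rpow_mul (by positivity)]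
      congr 1
      ring
    rw [e1, Real.mul_rpow (by positivity) hL0.le]
    apply mul_le_mul_of_nonneg_left _ (by positivity)
    rw [← Real.rpow_natCast, ← Real.rpow_neg hL0.le]
    apply Real.rpow_le_rpow_of_exponent_le g5
    push_cast
    linarith
  have hLU : 0 < (L ^ U)⁻¹ := by positivity
  have e1 : (L ^ (W + U)) * (L ^ U)⁻¹ = L ^ W := by
    rw [pow_add]
    field_simp
  have c1 : (2 * C + K₁) * L ^ W * X ^ (-(c / 2)) ≤ 1 / 4 * (L ^ U)⁻¹ := by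
    have := mul_le_mul_of_nonneg_right g1 hLU.le
    calc (2 * C + K₁) * L ^ W * X ^ (-(c / 2)) = (2 * C + K₁) * (L ^ (W + U) * (L ^ U)⁻¹) * X ^ (-(c / 2)) := by rw [e1]
      _ = (2 * C + K₁) * L ^ (W + U) * X ^ (-(c / 2)) * (L ^ U)⁻¹ := by ring
      _ ≤ _ := this
  have c2 : K₂ * L ^ W * X ^ (-δ) ≤ 1 / 4 * (L ^ U)⁻¹ := by
    have := mul_le_mul_of_nonneg_right g2 hLU.le
    calc K₂ * L ^ W * X ^ (-δ) = K₂ * (L ^ (W + U) * (L ^ U)⁻¹) * X ^ (-δ) := by rw [e1]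
      _ = K₂ * L ^ (W + U) * X ^ (-δ) * (L ^ U)⁻¹ := by ring
      _ ≤ _ := this
  have c3 : K₁ * L ^ W * y ^ (-(e / 2)) ≤ 1 / 4 * (L ^ U)⁻¹ := by
    calc K₁ * L ^ W * y ^ (-(e / 2)) ≤ K₁ * L ^ W * ((c / 2) ^ (-((T' : ℝ) * (e / 2))) * (L ^ (W + U + 1))⁻¹) :=
          mul_le_mul_of_nonneg_left hy2 (by positivity)
      _ = (K₁ * (c / 2) ^ (-((T' : ℝ) * (e / 2)))) / L * (L ^ U)⁻¹ := by
          rw [pow_add, pow_add, pow_one]
          field_simp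
      _ ≤ _ := by
          apply mul_le_mul_of_nonneg_right _ hLU.le
          rw [div_le_iff₀ hL0]
          linarith
  calc μ.real {z : ℝ | ∃ t t' : ℤ, |(t' : ℝ) - z| ≤ L ^ W ∧ t.natAbs = t'.natAbs ∧ ¬ One θ T X t}
      ≤ μ.real (({z : ℝ | ∃ t : ℤ, |(t : ℝ) - z| ≤ L ^ W ∧ |(t : ℝ)| ≤ X ^ (c / 2)} ∪
        {z : ℝ | ∃ t : ℤ, |(t : ℝ) - z| ≤ L ^ W ∧ t ≠ 0 ∧ ∃ d ∈ D, y < (d : ℝ) ∧ (d : ℤ) ∣ t}) ∪
        {z : ℝ | ∃ t : ℤ, |(t : ℝ) - z| ≤ L ^ W ∧ t ≠ 0 ∧ t.natAbs ∈ F}) := measureReal_mono hcov (measure_ne_top _ _)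
    _ ≤ (2 * C * L ^ W * X ^ (-(c / 2)) + K₁ * L ^ W * (y ^ (-(e / 2)) + X ^ (-(c / 2)))) + K₂ * L ^ W * X ^ (-δ) := by
        refine (measureReal_union_le _ _).trans (add_le_add ((measureReal_union_le _ _).trans (add_le_add b1 b2)) b3)
    _ = (2 * C + K₁) * L ^ W * X ^ (-(c / 2)) + K₁ * L ^ W * y ^ (-(e / 2)) + K₂ * L ^ W * X ^ (-δ) := by ring
    _ ≤ _ := by linarith

end Pool.Agent.HP25.PS
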