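import Pool.Agent.HP25.PS.T2

set_option autoImplicit false

/-! Two independent random numbers: common divisors, divisors of the product in a thin set, products in a small set. -/

namespace Pool.Agent.HP25.PS

open Finset MeasureTheory ProbabilityTheory

/-- the sum of a power over the integers above `y` -/
lemma tail_sum (e : ℝ) (he : 1 / 2 < e) : ∃ K : ℝ, 0 < K ∧ ∀ (y : ℝ), 1 ≤ y → ∀ S : Finset ℕ, (∀ g ∈ S, y < (g : ℝ)) →
    ∑ g ∈ S, (g : ℝ) ^ (-(2 * e)) ≤ K * y ^ (-(e - 1 / 2)) := by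
  have hs : Summable (fun n : ℕ => (n : ℝ) ^ (-(e + 1 / 2))) := by
    rw [Real.summable_nat_rpow]
    linarith
  refine ⟨∑' n : ℕ, (n : ℝ) ^ (-(e + 1 / 2)) + 1, ?_, fun y hy S hS => ?_⟩
  · have : 0 ≤ ∑' n : ℕ, (n : ℝ) ^ (-(e + 1 / 2)) := tsum_nonneg fun n => by positivity
    linarith
  · have hy0 : 0 < y := by linarith
    calc ∑ g ∈ S, (g : ℝ) ^ (-(2 * e)) ≤ ∑ g ∈ S, y ^ (-(e - 1 / 2)) * (g : ℝ) ^ (-(e + 1 / 2)) := by
          apply sum_le_sum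
          intro g hg
          have h1 := hS g hg
          have hg0 : (0 : ℝ) < g := by linarith
          have e1 : (g : ℝ) ^ (-(2 * e)) = (g : ℝ) ^ (-(e - 1 / 2)) * (g : ℝ) ^ (-(e + 1 / 2)) := by
            rw [← Real.rpow_add hg0]
            congr 1
            ring
          rw [e1]
          exact mul_le_mul_of_nonneg_right (Real.rpow_le_rpow_of_nonpos hy0 h1.le (by linarith)) (by positivity)
      _ = y ^ (-(e - 1 / 2)) * ∑ g ∈ S, (g : ℝ) ^ (-(e + 1 / 2)) := by rw [mul_sum]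
      _ ≤ y ^ (-(e - 1 / 2)) * (∑' n : ℕ, (n : ℝ) ^ (-(e + 1 / 2)) + 1) := by
          apply mul_le_mul_of_nonneg_left _ (by positivity)
          have := hs.sum_le_tsum S fun n _ => by positivity
          linarith
      _ = _ := mul_comm _ _

lemma prod_real (μ ν : Measure ℝ) [IsProbabilityMeasure μ] [IsProbabilityMeasure ν] (A B : Set ℝ) (a b : ℝ)
    (hA : μ.real A ≤ a) (hB : ν.real B ≤ b) : (μ.prod ν).real (A ×ˢ B) ≤ a * b := by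
  rw [measureReal_prod_prod]
  exact mul_le_mul hA hB measureReal_nonneg (measureReal_nonneg.trans hA)

/-- common divisors of medium size -/
theorem gcd_medium (c e C : ℝ) (hc : 0 < c) (he : 1 / 2 < e) (hC : 1 ≤ C) :
    ∃ K : ℝ, 0 < K ∧ ∀ (μ ν : Measure ℝ) [IsProbabilityMeasure μ] [IsProbabilityMeasure ν] (X : ℝ), 1 ≤ X →
      Tm μ X c e C → Tm ν X c e C → ∀ h y : ℝ, 1 ≤ h → 1 ≤ y →
      (μ.prod ν).real {z : ℝ × ℝ | ∃ t t' : ℤ, |(t : ℝ) - z.1| ≤ h ∧ |(t' : ℝ) - z.2| ≤ h ∧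
        ∃ g : ℕ, y < (g : ℝ) ∧ (g : ℝ) ≤ X ^ c ∧ (g : ℤ) ∣ t ∧ (g : ℤ) ∣ t'} ≤ K * h ^ 2 * (y ^ (-(e - 1 / 2)) + X ^ (-c)) := by
  classical
  obtain ⟨K₁, hK₁, h1⟩ := tail_sum e he
  refine ⟨2 * C ^ 2 * (K₁ + 1), by positivity, fun μ ν _ _ X hX hμ hν h y hh hy => ?_⟩
  have hX0 : 0 < X := by linarith
  have hy0 : 0 < y := by linarith
  obtain ⟨N, hN⟩ : ∃ N : ℕ, N = ⌊X ^ c⌋₊ := ⟨_, rfl⟩
  have hNX : (N : ℝ) ≤ X ^ c := by rw [hN]; exact Nat.floor_le (by positivity)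
  obtain ⟨S, hS⟩ : ∃ S : Finset ℕ, S = (Icc 1 N).filter (fun g : ℕ => y < (g : ℝ)) := ⟨_, rfl⟩
  have hSm : ∀ g ∈ S, 1 ≤ g ∧ y < (g : ℝ) := by
    intro g hg
    rw [hS, mem_filter, mem_Icc] at hg
    exact ⟨hg.1.1, hg.2⟩
  have hcov : {z : ℝ × ℝ | ∃ t t' : ℤ, |(t : ℝ) - z.1| ≤ h ∧ |(t' : ℝ) - z.2| ≤ h ∧
        ∃ g : ℕ, y < (g : ℝ) ∧ (g : ℝ) ≤ X ^ c ∧ (g : ℤ) ∣ t ∧ (g : ℤ) ∣ t'} ⊆
      ⋃ g ∈ S, {z : ℝ | ∃ t : ℤ, |(t : ℝ) - z| ≤ h ∧ (g : ℤ) ∣ t} ×ˢ {z : ℝ | ∃ t : ℤ, |(t : ℝ) - z| ≤ h ∧ (g : ℤ) ∣ t} := by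
    rintro ⟨x, x'⟩ ⟨t, t', ht, ht', g, g1, g2, g3, g4⟩
    rw [Set.mem_iUnion₂]
    refine ⟨g, ?_, ⟨t, ht, g3⟩, ⟨t', ht', g4⟩⟩
    rw [hS, mem_filter, mem_Icc, hN]
    refine ⟨⟨?_, Nat.le_floor g2⟩, g1⟩
    have : (0 : ℝ) < g := by linarith
    exact_mod_cast this
  have hterm : ∀ g ∈ S, (μ.prod ν).real ({z : ℝ | ∃ t : ℤ, |(t : ℝ) - z| ≤ h ∧ (g : ℤ) ∣ t} ×ˢ
      {z : ℝ | ∃ t : ℤ, |(t : ℝ) - z| ≤ h ∧ (g : ℤ) ∣ t}) ≤ 2 * C ^ 2 * h ^ 2 * ((g : ℝ) ^ (-(2 * e)) + X ^ (-(2 * c))) := by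
    intro g hg
    obtain ⟨g1, _⟩ := hSm g hg
    have hg0 : (0 : ℝ) < g := by exact_mod_cast g1
    refine (prod_real μ ν _ _ _ _ (hμ.dv g h g1 hh) (hν.dv g h g1 hh)).trans ?_
    have e1 : (g : ℝ) ^ (-(2 * e)) = ((g : ℝ) ^ (-e)) ^ 2 := by
      rw [← Real.rpow_natCast, ← Real.rpow_mul hg0.le]
      congr 1
      push_cast
      ring
    have e2 : X ^ (-(2 * c)) = (X ^ (-c)) ^ 2 := by
      rw [← Real.rpow_natCast, ← Real.rpow_mul hX0.le]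
      congr 1
      push_cast
      ring
    rw [e1, e2]
    have : 0 ≤ C ^ 2 * h ^ 2 * ((g : ℝ) ^ (-e) - X ^ (-c)) ^ 2 := by positivity
    nlinarith
  calc (μ.prod ν).real {z : ℝ × ℝ | ∃ t t' : ℤ, |(t : ℝ) - z.1| ≤ h ∧ |(t' : ℝ) - z.2| ≤ h ∧
        ∃ g : ℕ, y < (g : ℝ) ∧ (g : ℝ) ≤ X ^ c ∧ (g : ℤ) ∣ t ∧ (g : ℤ) ∣ t'}
      ≤ (μ.prod ν).real (⋃ g ∈ S, {z : ℝ | ∃ t : ℤ, |(t : ℝ) - z| ≤ h ∧ (g : ℤ) ∣ t} ×ˢ
        {z : ℝ | ∃ t : ℤ, |(t : ℝ) - z| ≤ h ∧ (g : ℤ) ∣ t}) := measureReal_mono hcov (measure_ne_top _ _)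
    _ ≤ ∑ g ∈ S, 2 * C ^ 2 * h ^ 2 * ((g : ℝ) ^ (-(2 * e)) + X ^ (-(2 * c))) :=
        (measureReal_biUnion_finset_le _ _).trans (sum_le_sum hterm)
    _ = 2 * C ^ 2 * h ^ 2 * (∑ g ∈ S, (g : ℝ) ^ (-(2 * e)) + (S.card : ℝ) * X ^ (-(2 * c))) := by
        rw [← mul_sum, sum_add_distrib, sum_const, nsmul_eq_mul]
    _ ≤ 2 * C ^ 2 * h ^ 2 * (K₁ * y ^ (-(e - 1 / 2)) + X ^ (-c)) := by
        apply mul_le_mul_of_nonneg_left _ (by positivity)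
        apply add_le_add (h1 y hy S fun g hg => (hSm g hg).2)
        have h2 : (S.card : ℝ) ≤ X ^ c := by
          refine le_trans ?_ hNX
          have : S.card ≤ (Icc 1 N).card := by rw [hS]; exact card_filter_le _ _
          rw [Nat.card_Icc] at this
          exact_mod_cast (by omega : S.card ≤ N)
        calc (S.card : ℝ) * X ^ (-(2 * c)) ≤ X ^ c * X ^ (-(2 * c)) := mul_le_mul_of_nonneg_right h2 (by positivity)
          _ = X ^ (-c) := by rw [← Real.rpow_add hX0]; congr 1; ring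
    _ ≤ _ := by
        have e1 : 0 ≤ y ^ (-(e - 1 / 2)) := by positivity
        have e2 : 0 ≤ X ^ (-c) := by positivity
        calc 2 * C ^ 2 * h ^ 2 * (K₁ * y ^ (-(e - 1 / 2)) + X ^ (-c)) ≤
            2 * C ^ 2 * h ^ 2 * ((K₁ + 1) * (y ^ (-(e - 1 / 2)) + X ^ (-c))) := by
              apply mul_le_mul_of_nonneg_left _ (by positivity)
              nlinarith
          _ = _ := by ring

/-- large common divisors -/
theorem gcd_large (c e C : ℝ) (hc : 0 < c) (hc1 : c ≤ 1) (he : 0 < e) (he1 : e ≤ 1) (hC : 1 ≤ C) :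
    ∃ K : ℝ, 0 < K ∧ ∀ (μ ν : Measure ℝ) [IsProbabilityMeasure μ] [IsProbabilityMeasure ν] (X : ℝ), 1 ≤ X →
      Tm μ X c e C → Tm ν X c e C → ∀ h : ℝ, 1 ≤ h → h ≤ X →
      (μ.prod ν).real {z : ℝ × ℝ | ∃ t t' : ℤ, |(t : ℝ) - z.1| ≤ h ∧ |(t' : ℝ) - z.2| ≤ h ∧
        (t ≠ 0 ∧ ∃ g : ℕ, X ^ c < (g : ℝ) ∧ (g : ℤ) ∣ t ∧ (g : ℤ) ∣ t')} ≤ K * h ^ 2 * X ^ (-(c * e / 2)) := by
  classical
  obtain ⟨C₁, hC₁, hdiv⟩ := Pool.Agent.H510R2.divisor_bound (c * e / 2) (by positivity)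
  refine ⟨12 * C ^ 2 * C₁, by positivity, fun μ ν _ _ X hX hμ hν h hh hhX => ?_⟩
  have hX0 : 0 < X := by linarith
  have hhX' : h ≤ C * X := by nlinarith
  have hce : c * e / 2 ≤ 1 := by nlinarith
  set E : Set (ℝ × ℝ) := {z : ℝ × ℝ | ∃ t t' : ℤ, |(t : ℝ) - z.1| ≤ h ∧ |(t' : ℝ) - z.2| ≤ h ∧
        (t ≠ 0 ∧ ∃ g : ℕ, X ^ c < (g : ℝ) ∧ (g : ℤ) ∣ t ∧ (g : ℤ) ∣ t')} with hE
  have hEm : MeasurableSet E := pair_meas h _
  obtain ⟨B, hB⟩ : ∃ B, B = 12 * C ^ 2 * C₁ * h ^ 2 * X ^ (-(c * e / 2)) := ⟨_, rfl⟩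
  have hB0 : 0 ≤ B := by rw [hB]; positivity
  have hsec : ∀ x : ℝ, |x| ≤ C * X → ν.real (Prod.mk x ⁻¹' E) ≤ B := by
    intro x hx
    obtain ⟨T, hT⟩ : ∃ T : Finset ℤ, T = (Icc ⌈x - h⌉ ⌊x + h⌋).filter (fun t => t ≠ 0) := ⟨_, rfl⟩
    obtain ⟨G, hG⟩ : ∃ G : ℤ → Finset ℕ, G = fun t => t.natAbs.divisors.filter (fun g => X ^ c < (g : ℝ)) := ⟨_, rfl⟩
    have hTc : (T.card : ℝ) ≤ 3 * h := by
      have h1 : T.card ≤ (Icc ⌈x - h⌉ ⌊x + h⌋).card := by rw [hT]; exact card_filter_le _ _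
      rw [Int.card_Icc] at h1
      have h2 : ((⌊x + h⌋ + 1 - ⌈x - h⌉).toNat : ℝ) ≤ 3 * h := by
        rcases le_total 0 (⌊x + h⌋ + 1 - ⌈x - h⌉) with h3 | h3
        · have h4 : (((⌊x + h⌋ + 1 - ⌈x - h⌉).toNat : ℤ) : ℝ) = ((⌊x + h⌋ + 1 - ⌈x - h⌉ : ℤ) : ℝ) := by
            rw [Int.toNat_of_nonneg h3]
          have h5 := Int.floor_le (x + h)
          have h6 := Int.le_ceil (x - h)
          push_cast at h4
          rw [h4]
          linarith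
        · rw [Int.toNat_eq_zero.2 h3]
          push_cast
          linarith
      exact le_trans (by exact_mod_cast h1) h2
    have hsub : Prod.mk x ⁻¹' E ⊆ ⋃ t ∈ T, ⋃ g ∈ G t, {z : ℝ | ∃ t' : ℤ, |(t' : ℝ) - z| ≤ h ∧ (g : ℤ) ∣ t'} := by
      rintro y ⟨t, t', h1, h2, ht0, g, h3, h4, h5⟩
      rw [Set.mem_iUnion₂]
      refine ⟨t, ?_, ?_⟩
      · rw [hT, mem_filter, mem_Icc]
        rw [abs_le] at h1
        exact ⟨⟨Int.ceil_le.2 (by linarith), Int.le_floor.2 (by linarith)⟩, ht0⟩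
      · rw [Set.mem_iUnion₂]
        refine ⟨g, ?_, t', h2, h5⟩
        rw [hG]
        simp only [mem_filter, Nat.mem_divisors]
        exact ⟨⟨Int.natCast_dvd.1 h4, by omega⟩, h3⟩
    have hTh : ∀ t ∈ T, |(t : ℝ) - x| ≤ h := by
      intro t ht
      rw [hT, mem_filter, mem_Icc] at ht
      rw [abs_le]
      have h1 := Int.ceil_le.1 ht.1.1
      have h2 := Int.le_floor.1 ht.1.2
      constructor <;> linarith
    have hg : ∀ t ∈ T, ∀ g ∈ G t, ν.real {z : ℝ | ∃ t' : ℤ, |(t' : ℝ) - z| ≤ h ∧ (g : ℤ) ∣ t'} ≤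
        2 * C * h * X ^ (-(c * e)) := by
      intro t ht g hg
      rw [hG] at hg
      simp only [mem_filter, Nat.mem_divisors] at hg
      obtain ⟨⟨hg1, hg2⟩, hg3⟩ := hg
      have hgpos : 1 ≤ g := Nat.pos_of_dvd_of_pos hg1 (Nat.pos_of_ne_zero hg2)
      have hg0 : (0 : ℝ) < g := by exact_mod_cast hgpos
      refine (hν.dv g h hgpos hh).trans ?_
      have h1 : (g : ℝ) ^ (-e) ≤ X ^ (-(c * e)) := by
        calc (g : ℝ) ^ (-e) ≤ (X ^ c) ^ (-e) := Real.rpow_le_rpow_of_nonpos (by positivity) hg3.le (by linarith)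
          _ = X ^ (-(c * e)) := by
              rw [← Real.rpow_mul hX0.le]
              congr 1
              ring
      have h2 : X ^ (-c) ≤ X ^ (-(c * e)) := by
        apply Real.rpow_le_rpow_of_exponent_le hX
        nlinarith
      calc C * h * ((g : ℝ) ^ (-e) + X ^ (-c)) ≤ C * h * (X ^ (-(c * e)) + X ^ (-(c * e))) := by gcongr
        _ = _ := by ring
    have hGc : ∀ t ∈ T, ((G t).card : ℝ) ≤ 2 * C * C₁ * X ^ (c * e / 2) := by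
      intro t ht
      have hta := hTh t ht
      have h1 : (G t).card ≤ t.natAbs.divisors.card := by rw [hG]; exact card_filter_le _ _
      rw [hT, mem_filter] at ht
      have h2 := hdiv t.natAbs (Int.natAbs_pos.2 ht.2)
      have h3 := natAbs_le hx hhX' hta
      calc ((G t).card : ℝ) ≤ (t.natAbs.divisors.card : ℝ) := by exact_mod_cast h1
        _ ≤ C₁ * (t.natAbs : ℝ) ^ (c * e / 2) := h2
        _ ≤ C₁ * (2 * C * X) ^ (c * e / 2) := by gcongr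
        _ = C₁ * ((2 * C) ^ (c * e / 2) * X ^ (c * e / 2)) := by rw [Real.mul_rpow (by positivity) hX0.le]
        _ ≤ C₁ * ((2 * C) ^ (1 : ℝ) * X ^ (c * e / 2)) := by
            gcongr
            · linarith
        _ = _ := by rw [Real.rpow_one]; ring
    calc ν.real (Prod.mk x ⁻¹' E) ≤ ν.real (⋃ t ∈ T, ⋃ g ∈ G t, {z : ℝ | ∃ t' : ℤ, |(t' : ℝ) - z| ≤ h ∧ (g : ℤ) ∣ t'}) :=
          measureReal_mono hsub (measure_ne_top _ _)
      _ ≤ ∑ t ∈ T, ν.real (⋃ g ∈ G t, {z : ℝ | ∃ t' : ℤ, |(t' : ℝ) - z| ≤ h ∧ (g : ℤ) ∣ t'}) := measureReal_biUnion_finset_le _ _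
      _ ≤ ∑ t ∈ T, 2 * C * C₁ * X ^ (c * e / 2) * (2 * C * h * X ^ (-(c * e))) := by
          apply sum_le_sum
          intro t ht
          refine (measureReal_biUnion_finset_le _ _).trans ?_
          refine (sum_le_sum fun g hg' => hg t ht g hg').trans ?_
          rw [sum_const, nsmul_eq_mul]
          exact mul_le_mul_of_nonneg_right (hGc t ht) (by positivity)
      _ = (T.card : ℝ) * (2 * C * C₁ * X ^ (c * e / 2) * (2 * C * h * X ^ (-(c * e)))) := by rw [sum_const, nsmul_eq_mul]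
      _ ≤ 3 * h * (2 * C * C₁ * X ^ (c * e / 2) * (2 * C * h * X ^ (-(c * e)))) := mul_le_mul_of_nonneg_right hTc (by positivity)
      _ = B := by
          rw [hB]
          have e : X ^ (c * e / 2) * X ^ (-(c * e)) = X ^ (-(c * e / 2)) := by
            rw [← Real.rpow_add hX0]
            congr 1
            ring
          rw [← e]
          ring
  have hfin : (μ.prod ν) E ≤ ENNReal.ofReal B := by
    rw [Measure.prod_apply hEm]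
    have hae : ∀ᵐ x ∂μ, ν (Prod.mk x ⁻¹' E) ≤ ENNReal.ofReal B := by
      have h1 : ∀ᵐ x ∂μ, ¬ (C * X < |x|) := by
        rw [ae_iff]
        simpa using hμ.bdd
      filter_upwards [h1] with x hx
      rw [← ENNReal.ofReal_toReal (measure_ne_top ν (Prod.mk x ⁻¹' E))]
      exact ENNReal.ofReal_le_ofReal (hsec x (not_lt.1 hx))
    calc ∫⁻ x, ν (Prod.mk x ⁻¹' E) ∂μ ≤ ∫⁻ _, ENNReal.ofReal B ∂μ := lintegral_mono_ae hae
      _ = ENNReal.ofReal B := by rw [lintegral_const, measure_univ, mul_one]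
  rw [measureReal_def]
  calc ((μ.prod ν) E).toReal ≤ (ENNReal.ofReal B).toReal := ENNReal.toReal_mono ENNReal.ofReal_ne_top hfin
    _ = B := ENNReal.toReal_ofReal hB0
    _ = _ := hB

lemma prod_bad (μ ν : Measure ℝ) [IsProbabilityMeasure μ] [IsProbabilityMeasure ν] (A : ℝ) (hμ : μ {z | A < |z|} = 0)
    (hν : ν {z | A < |z|} = 0) : (μ.prod ν).real {z : ℝ × ℝ | A < |z.1| ∨ A < |z.2|} = 0 := by
  have h1 : {z : ℝ × ℝ | A < |z.1| ∨ A < |z.2|} = ({z : ℝ | A < |z|} ×ˢ Set.univ) ∪ (Set.univ ×ˢ {z : ℝ | A < |z|}) := by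
    ext z
    simp [Set.mem_prod]
  rw [h1, measureReal_def]
  have h2 : (μ.prod ν) (({z : ℝ | A < |z|} ×ˢ Set.univ) ∪ (Set.univ ×ˢ {z : ℝ | A < |z|})) = 0 := by
    apply measure_union_null
    · rw [Measure.prod_prod, hμ, zero_mul]
    · rw [Measure.prod_prod, hν, mul_zero]
  rw [h2]
  rfl

/-- the products have no large divisor in a thin set -/
theorem prod_thin {D : Set ℕ} (hD : Thin D) (c e C : ℝ) (hc : 0 < c) (hc1 : c ≤ 1) (he : 0 < e) (hC : 1 ≤ C) :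
    ∃ K : ℝ, 0 < K ∧ ∀ (μ ν : Measure ℝ) [IsProbabilityMeasure μ] [IsProbabilityMeasure ν] (X : ℝ), 1 ≤ X →
      Tm μ X c e C → Tm ν X c e C → ∀ h y : ℝ, 1 ≤ h → h ≤ X → 1 ≤ y →
      (μ.prod ν).real {z : ℝ × ℝ | ∃ t t' : ℤ, |(t : ℝ) - z.1| ≤ h ∧ |(t' : ℝ) - z.2| ≤ h ∧
        (t ≠ 0 ∧ t' ≠ 0 ∧ ∃ d ∈ D, y < (d : ℝ) ∧ (d : ℤ) ∣ t * t')} ≤ K * h ^ 2 * (y ^ (-(e / 4)) + X ^ (-(c / 2))) := by
  classical
  obtain ⟨K₁, hK₁, h1⟩ := thin_sum hD (e / 2) (by positivity)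
  obtain ⟨K₂, hK₂, h2⟩ := hD (c / 8) (by positivity)
  obtain ⟨C₁, hC₁, hdiv1⟩ := Pool.Agent.H510R2.divisor_bound (e / 4) (by positivity)
  obtain ⟨C₂, hC₂, hdiv2⟩ := Pool.Agent.H510R2.divisor_bound (c / 8) (by positivity)
  refine ⟨C ^ 2 * (C₁ * K₁ + 3 * (K₂ * C₂ * (4 * C ^ 2))), by positivity, fun μ ν _ _ X hX hμ hν h y hh hhX hy => ?_⟩
  have hX0 : 0 < X := by linarith
  have hy0 : 0 < y := by linarith
  have hhX' : h ≤ C * X := by nlinarith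
  obtain ⟨N, hN⟩ : ∃ N : ℕ, N = ⌊2 * C * X⌋₊ := ⟨_, rfl⟩
  have hNX : (N : ℝ) ≤ 2 * C * X := by rw [hN]; exact Nat.floor_le (by positivity)
  have hN1 : 1 ≤ N := by rw [hN]; exact Nat.le_floor (by push_cast; nlinarith)
  obtain ⟨S, hS⟩ : ∃ S : Finset ℕ, S = (Icc 1 (N ^ 2)).filter (fun d => d ∈ D ∧ y < (d : ℝ)) := ⟨_, rfl⟩
  have hSm : ∀ d ∈ S, d ∈ D ∧ 1 ≤ d ∧ d ≤ N ^ 2 ∧ y < (d : ℝ) := by
    intro d hd
    rw [hS, mem_filter, mem_Icc] at hd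
    exact ⟨hd.2.1, hd.1.1, hd.1.2, hd.2.2⟩
  obtain ⟨A, hA⟩ : ∃ A : ℕ → Set ℝ, A = fun g : ℕ => {z : ℝ | ∃ t : ℤ, |(t : ℝ) - z| ≤ h ∧ (g : ℤ) ∣ t} := ⟨_, rfl⟩
  have hcov : {z : ℝ × ℝ | ∃ t t' : ℤ, |(t : ℝ) - z.1| ≤ h ∧ |(t' : ℝ) - z.2| ≤ h ∧
        (t ≠ 0 ∧ t' ≠ 0 ∧ ∃ d ∈ D, y < (d : ℝ) ∧ (d : ℤ) ∣ t * t')} ⊆
      {z : ℝ × ℝ | C * X < |z.1| ∨ C * X < |z.2|} ∪ ⋃ d ∈ S, ⋃ g ∈ d.divisors, A g ×ˢ A (d / g) := by
    rintro ⟨x, x'⟩ ⟨t, t', ht, ht', ht0, ht0', d, hd, hyd, hdt⟩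
    dsimp only at ht ht'
    by_cases hz : C * X < |x| ∨ C * X < |x'|
    · exact Or.inl hz
    · right
      rw [not_or, not_lt, not_lt] at hz
      have h3 := near_le hC hX hz.1 hhX ht
      have h4 := near_le hC hX hz.2 hhX ht'
      rw [← hN] at h3 h4
      have h5 : d ∣ t.natAbs * t'.natAbs := by
        rw [← Int.natAbs_mul]
        exact Int.natCast_dvd.1 hdt
      have hpos : 0 < t.natAbs * t'.natAbs := Nat.mul_pos (Int.natAbs_pos.2 ht0) (Int.natAbs_pos.2 ht0')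
      have h6 : d ≤ N ^ 2 := by
        refine (Nat.le_of_dvd hpos h5).trans ?_
        rw [sq]
        exact Nat.mul_le_mul h3 h4
      have hd0 : 0 < d := Nat.pos_of_dvd_of_pos h5 hpos
      obtain ⟨g1, g2, k1, k2, k3⟩ := (Nat.dvd_mul).1 h5
      rw [Set.mem_iUnion₂]
      refine ⟨d, ?_, ?_⟩
      · rw [hS, mem_filter, mem_Icc]
        exact ⟨⟨hd0, h6⟩, hd, hyd⟩
      · rw [Set.mem_iUnion₂]
        have hg1 : 0 < g1 := Nat.pos_of_ne_zero fun h0 => by rw [h0, zero_mul] at k3; omega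
        have e1 : d / g1 = g2 := by rw [← k3, Nat.mul_div_cancel_left _ hg1]
        refine ⟨g1, Nat.mem_divisors.2 ⟨⟨g2, k3.symm⟩, hd0.ne'⟩, ?_⟩
        rw [e1, hA]
        exact ⟨⟨t, ht, Int.natCast_dvd.2 k1⟩, ⟨t', ht', Int.natCast_dvd.2 k2⟩⟩
  have hterm : ∀ d ∈ S, ∀ g ∈ d.divisors, (μ.prod ν).real (A g ×ˢ A (d / g)) ≤
      C ^ 2 * h ^ 2 * ((d : ℝ) ^ (-e) + 3 * X ^ (-c)) := by
    intro d hd g hg
    obtain ⟨_, hd1, _, _⟩ := hSm d hd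
    rw [Nat.mem_divisors] at hg
    have hg1 : 1 ≤ g := Nat.pos_of_dvd_of_pos hg.1 hd1
    have hdg : 1 ≤ d / g := Nat.div_pos (Nat.le_of_dvd hd1 hg.1) hg1
    have hg0 : (1 : ℝ) ≤ g := by exact_mod_cast hg1
    have hdg0 : (1 : ℝ) ≤ ((d / g : ℕ) : ℝ) := by exact_mod_cast hdg
    rw [hA]
    refine (prod_real μ ν _ _ _ _ (hμ.dv g h hg1 hh) (hν.dv (d / g) h hdg hh)).trans ?_
    have e1 : (d : ℝ) ^ (-e) = (g : ℝ) ^ (-e) * ((d / g : ℕ) : ℝ) ^ (-e) := by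
      rw [← Real.mul_rpow (by linarith) (by linarith)]
      congr 1
      have : g * (d / g) = d := Nat.mul_div_cancel' hg.1
      exact_mod_cast this.symm
    have e2 : (g : ℝ) ^ (-e) ≤ 1 := Real.rpow_le_one_of_one_le_of_nonpos hg0 (by linarith)
    have e3 : ((d / g : ℕ) : ℝ) ^ (-e) ≤ 1 := Real.rpow_le_one_of_one_le_of_nonpos hdg0 (by linarith)
    have e4 : X ^ (-c) ≤ 1 := Real.rpow_le_one_of_one_le_of_nonpos hX (by linarith)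
    have e5 : 0 ≤ X ^ (-c) := by positivity
    have e6 : 0 ≤ (g : ℝ) ^ (-e) := by positivity
    have e7 : 0 ≤ ((d / g : ℕ) : ℝ) ^ (-e) := by positivity
    rw [e1]
    have key : ((g : ℝ) ^ (-e) + X ^ (-c)) * (((d / g : ℕ) : ℝ) ^ (-e) + X ^ (-c)) ≤
        (g : ℝ) ^ (-e) * ((d / g : ℕ) : ℝ) ^ (-e) + 3 * X ^ (-c) := by nlinarith
    calc C * h * ((g : ℝ) ^ (-e) + X ^ (-c)) * (C * h * (((d / g : ℕ) : ℝ) ^ (-e) + X ^ (-c)))
        = C ^ 2 * h ^ 2 * (((g : ℝ) ^ (-e) + X ^ (-c)) * (((d / g : ℕ) : ℝ) ^ (-e) + X ^ (-c))) := by ring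
      _ ≤ _ := mul_le_mul_of_nonneg_left key (by positivity)
  have hb := prod_bad μ ν (C * X) hμ.bdd hν.bdd
  have hsum1 : ∑ d ∈ S, (d.divisors.card : ℝ) * (d : ℝ) ^ (-e) ≤ C₁ * (y ^ (-(e / 4)) * K₁) := by
    calc ∑ d ∈ S, (d.divisors.card : ℝ) * (d : ℝ) ^ (-e) ≤ ∑ d ∈ S, C₁ * (y ^ (-(e / 4)) * (d : ℝ) ^ (-(e / 2))) := by
          apply sum_le_sum
          intro d hd
          obtain ⟨_, h3, _, h4⟩ := hSm d hd
          have hd0 : (0 : ℝ) < d := by exact_mod_cast h3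
          have e1 : (d : ℝ) ^ (e / 4) * (d : ℝ) ^ (-e) = (d : ℝ) ^ (-(e / 4)) * (d : ℝ) ^ (-(e / 2)) := by
            rw [← Real.rpow_add hd0, ← Real.rpow_add hd0]
            congr 1
            ring
          calc (d.divisors.card : ℝ) * (d : ℝ) ^ (-e) ≤ (C₁ * (d : ℝ) ^ (e / 4)) * (d : ℝ) ^ (-e) :=
                mul_le_mul_of_nonneg_right (hdiv1 d h3) (by positivity)
            _ = C₁ * ((d : ℝ) ^ (-(e / 4)) * (d : ℝ) ^ (-(e / 2))) := by rw [mul_assoc, e1]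
            _ ≤ _ := by
                apply mul_le_mul_of_nonneg_left _ hC₁.le
                exact mul_le_mul_of_nonneg_right (Real.rpow_le_rpow_of_nonpos hy0 h4.le (by linarith)) (by positivity)
      _ = C₁ * (y ^ (-(e / 4)) * ∑ d ∈ S, (d : ℝ) ^ (-(e / 2))) := by rw [← mul_sum, ← mul_sum]
      _ ≤ _ := by
          apply mul_le_mul_of_nonneg_left _ hC₁.le
          exact mul_le_mul_of_nonneg_left (h1 S fun d hd => ⟨(hSm d hd).1, (hSm d hd).2.1⟩) (by positivity)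
  have hpow : ((N ^ 2 : ℕ) : ℝ) ^ (c / 8) ≤ 2 * C * X ^ (c / 4) := by
    have e1 : ((N ^ 2 : ℕ) : ℝ) ^ (c / 8) = (N : ℝ) ^ (c / 4) := by
      push_cast
      rw [← Real.rpow_natCast, ← Real.rpow_mul (Nat.cast_nonneg _)]
      congr 1
      push_cast
      ring
    rw [e1]
    calc (N : ℝ) ^ (c / 4) ≤ (2 * C * X) ^ (c / 4) := Real.rpow_le_rpow (Nat.cast_nonneg _) hNX (by positivity)
      _ = (2 * C) ^ (c / 4) * X ^ (c / 4) := Real.mul_rpow (by positivity) hX0.le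
      _ ≤ (2 * C) ^ (1 : ℝ) * X ^ (c / 4) := by
          apply mul_le_mul_of_nonneg_right _ (by positivity)
          exact Real.rpow_le_rpow_of_exponent_le (by linarith) (by linarith)
      _ = _ := by rw [Real.rpow_one]
  have hsum2 : (∑ d ∈ S, (d.divisors.card : ℝ)) * X ^ (-c) ≤ K₂ * C₂ * (4 * C ^ 2) * X ^ (-(c / 2)) := by
    have h3 : (S.card : ℝ) ≤ K₂ * ((N ^ 2 : ℕ) : ℝ) ^ (c / 8) :=
      h2 S (N ^ 2) (Nat.one_le_pow _ _ hN1) fun d hd => ⟨(hSm d hd).1, (hSm d hd).2.1, (hSm d hd).2.2.1⟩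
    have h4 : ∑ d ∈ S, (d.divisors.card : ℝ) ≤ (S.card : ℝ) * (C₂ * (2 * C * X ^ (c / 4))) := by
      rw [← nsmul_eq_mul]
      apply sum_le_card_nsmul
      intro d hd
      refine (hdiv2 d (hSm d hd).2.1).trans ?_
      apply mul_le_mul_of_nonneg_left _ hC₂.le
      refine le_trans ?_ hpow
      exact Real.rpow_le_rpow (Nat.cast_nonneg _) (by exact_mod_cast (hSm d hd).2.2.1) (by positivity)
    have e1 : X ^ (c / 4) * X ^ (c / 4) * X ^ (-c) = X ^ (-(c / 2)) := by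
      rw [← Real.rpow_add hX0, ← Real.rpow_add hX0]
      congr 1
      ring
    calc (∑ d ∈ S, (d.divisors.card : ℝ)) * X ^ (-c) ≤
          ((K₂ * (2 * C * X ^ (c / 4))) * (C₂ * (2 * C * X ^ (c / 4)))) * X ^ (-c) := by
          apply mul_le_mul_of_nonneg_right _ (by positivity)
          refine h4.trans ?_
          apply mul_le_mul_of_nonneg_right _ (by positivity)
          exact h3.trans (mul_le_mul_of_nonneg_left hpow hK₂.le)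
      _ = K₂ * C₂ * (4 * C ^ 2) * (X ^ (c / 4) * X ^ (c / 4) * X ^ (-c)) := by ring
      _ = _ := by rw [e1]
  calc (μ.prod ν).real {z : ℝ × ℝ | ∃ t t' : ℤ, |(t : ℝ) - z.1| ≤ h ∧ |(t' : ℝ) - z.2| ≤ h ∧
        (t ≠ 0 ∧ t' ≠ 0 ∧ ∃ d ∈ D, y < (d : ℝ) ∧ (d : ℤ) ∣ t * t')}
      ≤ (μ.prod ν).real ({z : ℝ × ℝ | C * X < |z.1| ∨ C * X < |z.2|} ∪ ⋃ d ∈ S, ⋃ g ∈ d.divisors, A g ×ˢ A (d / g)) :=
        measureReal_mono hcov (measure_ne_top _ _)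
    _ ≤ (μ.prod ν).real {z : ℝ × ℝ | C * X < |z.1| ∨ C * X < |z.2|} +
        (μ.prod ν).real (⋃ d ∈ S, ⋃ g ∈ d.divisors, A g ×ˢ A (d / g)) := measureReal_union_le _ _
    _ ≤ 0 + ∑ d ∈ S, (d.divisors.card : ℝ) * (C ^ 2 * h ^ 2 * ((d : ℝ) ^ (-e) + 3 * X ^ (-c))) := by
        rw [hb]
        refine add_le_add le_rfl ((measureReal_biUnion_finset_le _ _).trans (sum_le_sum fun d hd => ?_))
        refine (measureReal_biUnion_finset_le _ _).trans ?_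
        rw [← nsmul_eq_mul]
        exact sum_le_card_nsmul _ _ _ (hterm d hd)
    _ = C ^ 2 * h ^ 2 * (∑ d ∈ S, (d.divisors.card : ℝ) * (d : ℝ) ^ (-e) + 3 * ((∑ d ∈ S, (d.divisors.card : ℝ)) * X ^ (-c))) := by
        rw [zero_add, mul_add, mul_sum, sum_mul, mul_sum, mul_sum, ← sum_add_distrib]
        exact sum_congr rfl fun d _ => by ring
    _ ≤ C ^ 2 * h ^ 2 * (C₁ * (y ^ (-(e / 4)) * K₁) + 3 * (K₂ * C₂ * (4 * C ^ 2) * X ^ (-(c / 2)))) := by gcongr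
    _ ≤ _ := by
        have e0 : 0 ≤ y ^ (-(e / 4)) := by positivity
        have e1 : 0 ≤ X ^ (-(c / 2)) := by positivity
        have e2 : 0 ≤ C₁ * K₁ * X ^ (-(c / 2)) := by positivity
        have e3 : 0 ≤ 3 * (K₂ * C₂ * (4 * C ^ 2)) * y ^ (-(e / 4)) := by positivity
        calc C ^ 2 * h ^ 2 * (C₁ * (y ^ (-(e / 4)) * K₁) + 3 * (K₂ * C₂ * (4 * C ^ 2) * X ^ (-(c / 2))))
            ≤ C ^ 2 * h ^ 2 * ((C₁ * K₁ + 3 * (K₂ * C₂ * (4 * C ^ 2))) * (y ^ (-(e / 4)) + X ^ (-(c / 2)))) := by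
              apply mul_le_mul_of_nonneg_left _ (by positivity)
              linarith
          _ = _ := by ring

end Pool.Agent.HP25.PS
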