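import Pool.Agent.HP25.PS.T3
import Pool.Agent.HP25.PS.T4
import Pool.Agent.Results.MP_3923f3_nt.ThreeLargeCoefficients

set_option autoImplicit false

/-! Three random coefficients: small prime solutions. -/

namespace Pool.Agent.HP25.PS

open Finset MeasureTheory ProbabilityTheory Filter Topology
open Pool.Agent.Y883.T5 Pool.Agent.Y883.T6

/-- the products avoid a set of small dimension -/
theorem prod_avoid {F : Set ℕ} {σ : ℝ} (hF : Small F σ) (hσ : 0 ≤ σ) (c C : ℝ) (hC : 1 ≤ C) (hc1 : c ≤ 1) (hσc : σ < c) :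
    ∃ K : ℝ, 0 < K ∧ ∀ (μ ν : Measure ℝ) [IsProbabilityMeasure μ] [IsProbabilityMeasure ν] (X : ℝ), 1 ≤ X →
      Pt μ X c C → Pt ν X c C → ∀ h : ℝ, 1 ≤ h → h ≤ X →
      (μ.prod ν).real {z : ℝ × ℝ | ∃ t t' : ℤ, |(t : ℝ) - z.1| ≤ h ∧ |(t' : ℝ) - z.2| ≤ h ∧
        (t ≠ 0 ∧ t' ≠ 0 ∧ (t * t').natAbs ∈ F)} ≤ K * h ^ 2 * X ^ (-(c - σ)) := by
  classical
  obtain ⟨K, hK, h1⟩ := hF
  obtain ⟨C₁, hC₁, hdiv⟩ := Pool.Agent.H510R2.divisor_bound ((c - σ) / 2) (by linarith)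
  refine ⟨K * (4 * C ^ 2) * (C₁ * (2 * C)) * (4 * C ^ 2), by positivity, fun μ ν _ _ X hX hμ hν h hh hhX => ?_⟩
  have hX0 : 0 < X := by linarith
  obtain ⟨N, hN⟩ : ∃ N : ℕ, N = ⌊2 * C * X⌋₊ := ⟨_, rfl⟩
  have hNX : (N : ℝ) ≤ 2 * C * X := by rw [hN]; exact Nat.floor_le (by positivity)
  have hN1 : 1 ≤ N := by rw [hN]; exact Nat.le_floor (by push_cast; nlinarith)
  obtain ⟨S, hS⟩ : ∃ S : Finset ℕ, S = (Icc 1 (N ^ 2)).filter (fun d => d ∈ F) := ⟨_, rfl⟩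
  obtain ⟨A, hA⟩ : ∃ A : ℕ → Set ℝ, A = fun g : ℕ => {z : ℝ | |((g : ℤ) : ℝ) - z| ≤ h} ∪ {z : ℝ | |((-g : ℤ) : ℝ) - z| ≤ h} :=
    ⟨_, rfl⟩
  have hAm : ∀ (t : ℤ) (z : ℝ), |(t : ℝ) - z| ≤ h → z ∈ A t.natAbs := by
    intro t z ht
    rw [hA]
    rcases Int.natAbs_eq t with h2 | h2
    · left
      rw [Set.mem_ofPred_eq, ← h2]
      exact ht
    · right
      rw [Set.mem_ofPred_eq, ← h2]
      exact ht
  have hcov : {z : ℝ × ℝ | ∃ t t' : ℤ, |(t : ℝ) - z.1| ≤ h ∧ |(t' : ℝ) - z.2| ≤ h ∧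
        (t ≠ 0 ∧ t' ≠ 0 ∧ (t * t').natAbs ∈ F)} ⊆
      {z : ℝ × ℝ | C * X < |z.1| ∨ C * X < |z.2|} ∪ ⋃ d ∈ S, ⋃ g ∈ d.divisors, A g ×ˢ A (d / g) := by
    rintro ⟨x, x'⟩ ⟨t, t', ht, ht', ht0, ht0', hd⟩
    dsimp only at ht ht'
    by_cases hz : C * X < |x| ∨ C * X < |x'|
    · exact Or.inl hz
    · right
      rw [not_or, not_lt, not_lt] at hz
      have h3 := near_le hC hX hz.1 hhX ht
      have h4 := near_le hC hX hz.2 hhX ht'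
      rw [← hN] at h3 h4
      have hpos1 := Int.natAbs_pos.2 ht0
      have hpos2 := Int.natAbs_pos.2 ht0'
      have hpos : 0 < t.natAbs * t'.natAbs := Nat.mul_pos hpos1 hpos2
      have h6 : t.natAbs * t'.natAbs ≤ N ^ 2 := by
        rw [sq]
        exact Nat.mul_le_mul h3 h4
      rw [Int.natAbs_mul] at hd
      rw [Set.mem_iUnion₂]
      refine ⟨t.natAbs * t'.natAbs, ?_, ?_⟩
      · rw [hS, mem_filter, mem_Icc]
        exact ⟨⟨hpos, h6⟩, hd⟩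
      · rw [Set.mem_iUnion₂]
        refine ⟨t.natAbs, Nat.mem_divisors.2 ⟨dvd_mul_right _ _, hpos.ne'⟩, ?_⟩
        rw [Nat.mul_div_cancel_left _ hpos1]
        exact ⟨hAm t x ht, hAm t' x' ht'⟩
  have hone : ∀ (μ : Measure ℝ) [IsProbabilityMeasure μ], Pt μ X c C → ∀ g : ℕ, μ.real (A g) ≤ 2 * C * h * X ^ (-c) := by
    intro μ _ hμ g
    rw [hA]
    refine (measureReal_union_le _ _).trans ?_
    have e1 := hμ.pt (g : ℤ) h hh
    have e2 := hμ.pt (-g : ℤ) h hh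
    linarith
  have hb := prod_bad μ ν (C * X) hμ.bdd hν.bdd
  have hpow : ((N ^ 2 : ℕ) : ℝ) ^ ((c - σ) / 2) ≤ 2 * C * X ^ (c - σ) := by
    have e1 : ((N ^ 2 : ℕ) : ℝ) ^ ((c - σ) / 2) = (N : ℝ) ^ (c - σ) := by
      push_cast
      rw [← Real.rpow_natCast, ← Real.rpow_mul (Nat.cast_nonneg _)]
      congr 1
      push_cast
      ring
    rw [e1]
    calc (N : ℝ) ^ (c - σ) ≤ (2 * C * X) ^ (c - σ) := Real.rpow_le_rpow (Nat.cast_nonneg _) hNX (by linarith)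
      _ = (2 * C) ^ (c - σ) * X ^ (c - σ) := Real.mul_rpow (by positivity) hX0.le
      _ ≤ (2 * C) ^ (1 : ℝ) * X ^ (c - σ) := by
          apply mul_le_mul_of_nonneg_right _ (by positivity)
          exact Real.rpow_le_rpow_of_exponent_le (by linarith) (by linarith)
      _ = _ := by rw [Real.rpow_one]
  have hcard : (S.card : ℝ) ≤ K * (4 * C ^ 2 * X ^ (2 * σ)) := by
    have h3 : (S.card : ℝ) ≤ K * ((N ^ 2 : ℕ) : ℝ) ^ σ := h1 S (N ^ 2) (Nat.one_le_pow _ _ hN1) fun d hd => by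
      rw [hS, mem_filter, mem_Icc] at hd
      exact ⟨hd.2, hd.1.1, hd.1.2⟩
    refine h3.trans (mul_le_mul_of_nonneg_left ?_ hK.le)
    have e1 : ((N ^ 2 : ℕ) : ℝ) ^ σ = (N : ℝ) ^ (2 * σ) := by
      push_cast
      rw [← Real.rpow_natCast, ← Real.rpow_mul (Nat.cast_nonneg _)]
      congr 1
    rw [e1]
    calc (N : ℝ) ^ (2 * σ) ≤ (2 * C * X) ^ (2 * σ) := Real.rpow_le_rpow (Nat.cast_nonneg _) hNX (by linarith)
      _ = (2 * C) ^ (2 * σ) * X ^ (2 * σ) := Real.mul_rpow (by positivity) hX0.le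
      _ ≤ (2 * C) ^ (2 : ℝ) * X ^ (2 * σ) := by
          apply mul_le_mul_of_nonneg_right _ (by positivity)
          exact Real.rpow_le_rpow_of_exponent_le (by linarith) (by linarith)
      _ = _ := by
          rw [show (2 : ℝ) = ((2 : ℕ) : ℝ) by norm_num, Real.rpow_natCast]
          push_cast
          ring
  have hXσ : X ^ (2 * σ) * X ^ (c - σ) * (X ^ (-c) * X ^ (-c)) = X ^ (-(c - σ)) := by
    rw [← Real.rpow_add hX0, ← Real.rpow_add hX0, ← Real.rpow_add hX0]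
    congr 1
    ring
  calc (μ.prod ν).real {z : ℝ × ℝ | ∃ t t' : ℤ, |(t : ℝ) - z.1| ≤ h ∧ |(t' : ℝ) - z.2| ≤ h ∧
        (t ≠ 0 ∧ t' ≠ 0 ∧ (t * t').natAbs ∈ F)}
      ≤ (μ.prod ν).real ({z : ℝ × ℝ | C * X < |z.1| ∨ C * X < |z.2|} ∪ ⋃ d ∈ S, ⋃ g ∈ d.divisors, A g ×ˢ A (d / g)) :=
        measureReal_mono hcov (measure_ne_top _ _)
    _ ≤ (μ.prod ν).real {z : ℝ × ℝ | C * X < |z.1| ∨ C * X < |z.2|} +
        (μ.prod ν).real (⋃ d ∈ S, ⋃ g ∈ d.divisors, A g ×ˢ A (d / g)) := measureReal_union_le _ _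
    _ ≤ 0 + ∑ d ∈ S, C₁ * (2 * C * X ^ (c - σ)) * (2 * C * h * X ^ (-c) * (2 * C * h * X ^ (-c))) := by
        rw [hb]
        refine add_le_add le_rfl ((measureReal_biUnion_finset_le _ _).trans (sum_le_sum fun d hd => ?_))
        refine (measureReal_biUnion_finset_le _ _).trans ?_
        refine (sum_le_card_nsmul _ _ _ fun g _ => prod_real μ ν _ _ _ _ (hone μ hμ g) (hone ν hν (d / g))).trans ?_
        rw [nsmul_eq_mul]
        apply mul_le_mul_of_nonneg_right _ (by positivity)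
        rw [hS, mem_filter, mem_Icc] at hd
        refine (hdiv d hd.1.1).trans ?_
        apply mul_le_mul_of_nonneg_left _ hC₁.le
        refine le_trans ?_ hpow
        exact Real.rpow_le_rpow (Nat.cast_nonneg _) (by exact_mod_cast hd.1.2) (by linarith)
    _ = (S.card : ℝ) * (C₁ * (2 * C * X ^ (c - σ)) * (2 * C * h * X ^ (-c) * (2 * C * h * X ^ (-c)))) := by
        rw [zero_add, sum_const, nsmul_eq_mul]
    _ ≤ (K * (4 * C ^ 2 * X ^ (2 * σ))) * (C₁ * (2 * C * X ^ (c - σ)) * (2 * C * h * X ^ (-c) * (2 * C * h * X ^ (-c)))) := by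
        gcongr
    _ = K * (4 * C ^ 2) * (C₁ * (2 * C)) * (4 * C ^ 2) * h ^ 2 * (X ^ (2 * σ) * X ^ (c - σ) * (X ^ (-c) * X ^ (-c))) := by ring
    _ = _ := by rw [hXσ]

open Classical in
/-- the set `F` of the criteria: empty, or of dimension less than `s` -/
lemma F_avoid2 (s C θ η : ℝ) (hs1 : s ≤ 1) (hC : 1 ≤ C) (hη0 : 0 < η) (hη : 2 - θ + η < s ∨ 3 / 2 < θ) {F : Set ℕ} {c₀ : ℕ}
    (hF : ∀ X : ℕ, c₀ ≤ X → (((Icc 1 X).filter (fun n => n ∈ F)).card : ℝ) ≤ (X : ℝ) ^ (2 - θ + η))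
    (hF0 : 3 / 2 < θ → F = ∅) :
    ∃ K δ : ℝ, 0 < K ∧ 0 < δ ∧ ∀ (μ ν : Measure ℝ) [IsProbabilityMeasure μ] [IsProbabilityMeasure ν] (X : ℝ), 1 ≤ X →
      Pt μ X s C → Pt ν X s C → ∀ h : ℝ, 1 ≤ h → h ≤ X →
      (μ.prod ν).real {z : ℝ × ℝ | ∃ t t' : ℤ, |(t : ℝ) - z.1| ≤ h ∧ |(t' : ℝ) - z.2| ≤ h ∧
        (t ≠ 0 ∧ t' ≠ 0 ∧ (t * t').natAbs ∈ F)} ≤ K * h ^ 2 * X ^ (-δ) := by
  by_cases hθ : 3 / 2 < θ
  · refine ⟨1, 1, one_pos, one_pos, fun μ ν _ _ X hX _ _ h hh _ => ?_⟩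
    rw [hF0 hθ]
    have : {z : ℝ × ℝ | ∃ t t' : ℤ, |(t : ℝ) - z.1| ≤ h ∧ |(t' : ℝ) - z.2| ≤ h ∧
        (t ≠ 0 ∧ t' ≠ 0 ∧ (t * t').natAbs ∈ (∅ : Set ℕ))} = ∅ := by
      ext z
      simp
    rw [this, measureReal_empty]
    positivity
  · have h1 : 2 - θ + η < s := by
      rcases hη with h | h
      · exact h
      · exact absurd h hθ
    rw [not_lt] at hθ
    have hS : Small F (2 - θ + η) := small_of (by linarith) hF
    obtain ⟨K, hK, h2⟩ := prod_avoid hS (by linarith) s C hC hs1 h1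
    exact ⟨K, s - (2 - θ + η), hK, by linarith, fun μ ν _ _ X hX hT hT' h hh hhX => h2 μ ν X hX hT hT' h hh hhX⟩

/-- the condition on a pair of coefficients -/
def PairOK (D F : Set ℕ) (y : ℝ) (t t' : ℤ) : Prop :=
  (Int.gcd t t' : ℝ) ≤ y ∧ (∀ d ∈ D, y < (d : ℝ) → ¬ (d : ℤ) ∣ t * t') ∧ (t * t').natAbs ∉ F

lemma pairOK_congr {D F : Set ℕ} {y : ℝ} {t t' s s' : ℤ} (h : t.natAbs = s.natAbs) (h' : t'.natAbs = s'.natAbs)
    (hs : PairOK D F y s s') : PairOK D F y t t' := by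
  obtain ⟨h1, h2, h3⟩ := hs
  have e1 : Int.gcd t t' = Int.gcd s s' := by rw [Int.gcd_eq_natAbs, Int.gcd_eq_natAbs, h, h']
  have e2 : (t * t').natAbs = (s * s').natAbs := by rw [Int.natAbs_mul, Int.natAbs_mul, h, h']
  refine ⟨by rw [e1]; exact h1, fun d hd hy hdvd => h2 d hd hy ?_, by rw [e2]; exact h3⟩
  rw [Int.natCast_dvd] at hdvd ⊢
  rw [← e2]
  exact hdvd

/-- all equations with the coefficients `t 0`, `t 1`, `t 2` have a small solution -/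
def Three (θ : ℝ) (t : Fin 3 → ℤ) : Prop :=
  (∀ l, t l ≠ 0) ∧ ∀ d : ℤ, Admissible (t 0) (t 1) (t 2) d → SmallSolution (2 * θ) (t 0) (t 1) (t 2) d

open Classical in
/-- **three random coefficients** -/
theorem three_main (c e s C : ℝ) (hc : 0 < c) (hc1 : c ≤ 1) (he : 1 / 2 < e) (he1 : e ≤ 1) (hs1 : s ≤ 1) (hC : 1 ≤ C)
    (θ : ℝ) (hθ : 1 < θ) (hθc : 2 - s < θ ∨ 3 / 2 < θ) (W U : ℕ) :
    ∃ X₀ : ℝ, ∀ {Ω : Type*} [MeasurableSpace Ω] (P : Measure Ω) [IsProbabilityMeasure P] (Z : Fin 3 → Ω → ℝ),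
      (∀ l, Measurable (Z l)) → (∀ l l', l ≠ l' → IndepFun (Z l) (Z l') P) → ∀ X : ℝ, X₀ ≤ X →
      (∀ l, Tm (P.map (Z l)) X c e C) → (∀ l, Pt (P.map (Z l)) X s C) →
      P.real {ω | ∃ t t' : Fin 3 → ℤ, (∀ l, |(t' l : ℝ) - Z l ω| ≤ Real.log X ^ W) ∧ (∀ l, (t l).natAbs = (t' l).natAbs) ∧
        ¬ Three θ t} ≤ (Real.log X ^ U)⁻¹ := by
  obtain ⟨D, hD, hmain, -⟩ := Pool.Agent.Results.MP_3923f3_nt.ThreeLargeCoefficients.result
  have he0 : 0 < e := by linarith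
  obtain ⟨ρ, hρ⟩ : ∃ ρ, ρ = min (e - 1 / 2) (e / 4) := ⟨_, rfl⟩
  have hρ0 : 0 < ρ := by rw [hρ]; exact lt_min (by linarith) (by linarith)
  have hρ1 : ρ ≤ e - 1 / 2 := by rw [hρ]; exact min_le_left _ _
  have hρ2 : ρ ≤ e / 4 := by rw [hρ]; exact min_le_right _ _
  obtain ⟨T', hT'⟩ : ∃ T' : ℕ, T' = ⌈(2 * (W : ℝ) + U + 1) / ρ⌉₊ := ⟨_, rfl⟩
  have hT2 : 2 * (W : ℝ) + U + 1 ≤ T' * ρ := by
    have h1 : (2 * (W : ℝ) + U + 1) / ρ ≤ (T' : ℝ) := by rw [hT']; exact Nat.le_ceil _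
    rwa [div_le_iff₀ hρ0] at h1
  obtain ⟨η, hη0, hη⟩ : ∃ η : ℝ, 0 < η ∧ (2 - θ + η < s ∨ 3 / 2 < θ) := by
    rcases hθc with h | h
    · exact ⟨(θ - (2 - s)) / 2, by linarith, Or.inl (by linarith)⟩
    · exact ⟨1, one_pos, Or.inr h⟩
  obtain ⟨Δ₀, F, hF1, hF2, hF3⟩ := hmain θ hθ η hη0 T'
  obtain ⟨K₁, hK₁, h1⟩ := gcd_medium c e C hc he hC
  obtain ⟨K₂, hK₂, h2⟩ := gcd_large c e C hc hc1 he0 he1 hC
  obtain ⟨K₃, hK₃, h3⟩ := prod_thin (thin_of hD) c e C hc hc1 he0 hC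
  obtain ⟨K₄, δ, hK₄, hδ, h4⟩ := F_avoid2 s C θ η hs1 hC hη0 hη hF1 hF2
  have h5 := not_small c e C hC hc
  have hlog : Tendsto Real.log atTop atTop := Real.tendsto_log_atTop
  have ev1 := ev_small (2 * C) (c / 2) (1 / 100) (by positivity) (by norm_num) (2 * W + U)
  have ev2 := ev_small K₁ c (1 / 100) hc (by norm_num) (2 * W + U)
  have ev3 := ev_small K₂ (c * e / 2) (1 / 100) (by positivity) (by norm_num) (2 * W + U)
  have ev4 := ev_small K₃ (c / 2) (1 / 100) (by positivity) (by norm_num) (2 * W + U)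
  have ev5 := ev_small K₄ δ (1 / 100) hδ (by norm_num) (2 * W + U)
  have ev6 : ∀ᶠ X : ℝ in atTop, 100 * ((K₁ + K₃) * c ^ (-((T' : ℝ) * ρ))) ≤ Real.log X := hlog.eventually_ge_atTop _
  have ev7 : ∀ᶠ X : ℝ in atTop, 1 / c ≤ Real.log X := hlog.eventually_ge_atTop _
  have ev8 : ∀ᶠ X : ℝ in atTop, 1 ≤ Real.log X := hlog.eventually_ge_atTop _
  have ev9 : ∀ᶠ X : ℝ in atTop, 1 * Real.log X ^ W * X ^ (-(1 : ℝ)) ≤ 1 := ev_small 1 1 1 one_pos one_pos W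
  have ev10 : ∀ᶠ X : ℝ in atTop, (Δ₀ : ℝ) + 2 ≤ X ^ c := (tendsto_rpow_atTop hc).eventually_ge_atTop _
  obtain ⟨X₀, hX₀⟩ := eventually_atTop.1 (ev1.and (ev2.and (ev3.and (ev4.and (ev5.and (ev6.and (ev7.and (ev8.and (ev9.and
    (ev10.and (eventually_ge_atTop (1 : ℝ))))))))))))
  refine ⟨X₀, ?_⟩
  intro Ω _ P _ Z hZ hind X hX hTm hPt
  obtain ⟨g1, g2, g3, g4, g5, g6, g7, g8, g9, g10, g11⟩ := hX₀ X hX
  have hX0 : 0 < X := by linarith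
  obtain ⟨L, hL⟩ : ∃ L, L = Real.log X := ⟨_, rfl⟩
  rw [← hL] at g1 g2 g3 g4 g5 g6 g7 g8 g9 ⊢
  have hL0 : 0 < L := by linarith
  have hh1 : 1 ≤ L ^ W := one_le_pow₀ g8
  have hhX : L ^ W ≤ X := by
    rw [one_mul, Real.rpow_neg_one, ← div_eq_mul_inv, div_le_one hX0] at g9
    exact g9
  obtain ⟨y, hy⟩ : ∃ y, y = (c * L) ^ T' := ⟨_, rfl⟩
  have hcL : 1 ≤ c * L := by
    have := mul_le_mul_of_nonneg_left g7 hc.le
    have e1 : c * (1 / c) = 1 := by field_simp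
    linarith
  have hy1 : 1 ≤ y := by rw [hy]; exact one_le_pow₀ hcL
  have hy0 : 0 < y := by linarith
  -- the bad sets
  obtain ⟨S, hS⟩ : ∃ S : Set ℝ, S = {z : ℝ | ∃ t : ℤ, |(t : ℝ) - z| ≤ L ^ W ∧ |(t : ℝ)| ≤ X ^ (c / 2)} := ⟨_, rfl⟩
  obtain ⟨E₁, hE₁⟩ : ∃ E₁ : Set (ℝ × ℝ), E₁ = {z : ℝ × ℝ | ∃ t t' : ℤ, |(t : ℝ) - z.1| ≤ L ^ W ∧ |(t' : ℝ) - z.2| ≤ L ^ W ∧
        ∃ g : ℕ, y < (g : ℝ) ∧ (g : ℝ) ≤ X ^ c ∧ (g : ℤ) ∣ t ∧ (g : ℤ) ∣ t'} := ⟨_, rfl⟩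
  obtain ⟨E₂, hE₂⟩ : ∃ E₂ : Set (ℝ × ℝ), E₂ = {z : ℝ × ℝ | ∃ t t' : ℤ, |(t : ℝ) - z.1| ≤ L ^ W ∧ |(t' : ℝ) - z.2| ≤ L ^ W ∧
        (t ≠ 0 ∧ ∃ g : ℕ, X ^ c < (g : ℝ) ∧ (g : ℤ) ∣ t ∧ (g : ℤ) ∣ t')} := ⟨_, rfl⟩
  obtain ⟨E₃, hE₃⟩ : ∃ E₃ : Set (ℝ × ℝ), E₃ = {z : ℝ × ℝ | ∃ t t' : ℤ, |(t : ℝ) - z.1| ≤ L ^ W ∧ |(t' : ℝ) - z.2| ≤ L ^ W ∧
        (t ≠ 0 ∧ t' ≠ 0 ∧ ∃ d ∈ D, y < (d : ℝ) ∧ (d : ℤ) ∣ t * t')} := ⟨_, rfl⟩
  obtain ⟨E₄, hE₄⟩ : ∃ E₄ : Set (ℝ × ℝ), E₄ = {z : ℝ × ℝ | ∃ t t' : ℤ, |(t : ℝ) - z.1| ≤ L ^ W ∧ |(t' : ℝ) - z.2| ≤ L ^ W ∧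
        (t ≠ 0 ∧ t' ≠ 0 ∧ (t * t').natAbs ∈ F)} := ⟨_, rfl⟩
  have hSm : MeasurableSet S := by rw [hS]; exact small_meas _ _
  have hEm : MeasurableSet (E₁ ∪ E₂ ∪ E₃ ∪ E₄) := by
    rw [hE₁, hE₂, hE₃, hE₄]
    exact (((pair_meas _ _).union (pair_meas _ _)).union (pair_meas _ _)).union (pair_meas _ _)
  have hprob : ∀ l, IsProbabilityMeasure (P.map (Z l)) := fun l => Measure.isProbabilityMeasure_map (hZ l).aemeasurable
  have hcov : {ω | ∃ t t' : Fin 3 → ℤ, (∀ l, |(t' l : ℝ) - Z l ω| ≤ L ^ W) ∧ (∀ l, (t l).natAbs = (t' l).natAbs) ∧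
        ¬ Three θ t} ⊆
      (⋃ l ∈ (univ : Finset (Fin 3)), Z l ⁻¹' S) ∪
        ⋃ l ∈ (univ : Finset (Fin 3)), ⋃ l' ∈ univ.erase l, (fun ω => (Z l ω, Z l' ω)) ⁻¹' (E₁ ∪ E₂ ∪ E₃ ∪ E₄) := by
    rintro ω ⟨t, t', ht, hnat, hbad⟩
    by_contra hcon
    rw [Set.mem_union, not_or, Set.mem_iUnion₂, Set.mem_iUnion₂] at hcon
    obtain ⟨hc1', hc2⟩ := hcon
    have hXc0 : 0 < X ^ (c / 2) := Real.rpow_pos_of_pos hX0 _
    have hbig : ∀ l, X ^ (c / 2) < |(t l : ℝ)| := by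
      intro l
      by_contra hlt
      rw [not_lt, abs_of_natAbs (hnat l)] at hlt
      apply hc1'
      refine ⟨l, mem_univ _, ?_⟩
      rw [Set.mem_preimage, hS]
      exact ⟨t' l, ht l, hlt⟩
    have hne : ∀ l, t l ≠ 0 := by
      intro l h0
      have := hbig l
      rw [h0] at this
      simp only [Int.cast_zero, abs_zero] at this
      linarith
    have hne' : ∀ l, t' l ≠ 0 := by
      intro l h0
      have h1 := hnat l
      rw [h0, Int.natAbs_zero, Int.natAbs_eq_zero] at h1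
      exact hne l h1
    have hpair : ∀ l l', l ≠ l' → PairOK D F y (t l) (t l') := by
      intro l l' hll
      apply pairOK_congr (hnat l) (hnat l')
      have hno : (Z l ω, Z l' ω) ∉ E₁ ∪ E₂ ∪ E₃ ∪ E₄ := by
        intro hmem
        apply hc2
        refine ⟨l, mem_univ _, ?_⟩
        rw [Set.mem_iUnion₂]
        exact ⟨l', mem_erase.2 ⟨hll.symm, mem_univ _⟩, hmem⟩
      rw [Set.mem_union, Set.mem_union, Set.mem_union, not_or, not_or, not_or] at hno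
      obtain ⟨⟨⟨n1, n2⟩, n3⟩, n4⟩ := hno
      refine ⟨?_, ?_, ?_⟩
      · by_contra hlt
        rw [not_le] at hlt
        rcases le_or_gt ((Int.gcd (t' l) (t' l') : ℕ) : ℝ) (X ^ c) with hle | hgt
        · apply n1
          rw [hE₁]
          exact ⟨t' l, t' l', ht l, ht l', Int.gcd (t' l) (t' l'), hlt, hle, Int.gcd_dvd_left _ _, Int.gcd_dvd_right _ _⟩
        · apply n2
          rw [hE₂]
          exact ⟨t' l, t' l', ht l, ht l', hne' l, Int.gcd (t' l) (t' l'), hgt, Int.gcd_dvd_left _ _, Int.gcd_dvd_right _ _⟩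
      · intro d hd hyd hdvd
        apply n3
        rw [hE₃]
        exact ⟨t' l, t' l', ht l, ht l', hne' l, hne' l', d, hd, hyd, hdvd⟩
      · intro hmem
        apply n4
        rw [hE₄]
        exact ⟨t' l, t' l', ht l, ht l', hne' l, hne' l', hmem⟩
    apply hbad
    refine ⟨hne, fun d had => ?_⟩
    obtain ⟨Δ, hΔ⟩ : ∃ Δ : ℕ, Δ = max (t 0 * t 1).natAbs (max (t 1 * t 2).natAbs (t 2 * t 0).natAbs) := ⟨_, rfl⟩
    have hΔX : X ^ c ≤ (Δ : ℝ) := by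
      have e1 : (((t 0 * t 1).natAbs : ℕ) : ℝ) ≤ Δ := by
        rw [hΔ]
        exact_mod_cast le_max_left _ _
      have e2 : (((t 0 * t 1).natAbs : ℕ) : ℝ) = |(t 0 : ℝ)| * |(t 1 : ℝ)| := by
        rw [Int.natAbs_mul, Nat.cast_mul, Nat.cast_natAbs, Nat.cast_natAbs, Int.cast_abs, Int.cast_abs]
      have e3 : X ^ c = X ^ (c / 2) * X ^ (c / 2) := by
        rw [← Real.rpow_add hX0]
        congr 1
        ring
      rw [e2] at e1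
      rw [e3]
      exact le_trans (mul_le_mul (hbig 0).le (hbig 1).le hXc0.le (abs_nonneg _)) e1
    have hΔlog : y ≤ Real.log Δ ^ T' := by
      rw [hy]
      apply pow_le_pow_left₀ (by linarith)
      rw [hL, ← Real.log_rpow hX0]
      exact Real.log_le_log (by positivity) hΔX
    have hgood : ∀ u v : ℤ, PairOK D F y u v → GoodPair T' D F Δ u v := by
      rintro u v ⟨k1, k2, k3⟩
      exact ⟨k1.trans hΔlog, fun e he hlt => k2 e he (lt_of_le_of_lt hΔlog hlt), fun _ => k3⟩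
    obtain ⟨p, q, r, hp, hq, hr, heq, hle⟩ := hF3 (t 0) (t 1) (t 2) d had Δ hΔ (by
        have h6 : ((Δ₀ : ℕ) : ℝ) ≤ (Δ : ℝ) := by linarith
        exact_mod_cast h6)
      (hgood _ _ (hpair 0 1 (by decide))) (hgood _ _ (hpair 1 2 (by decide))) (hgood _ _ (hpair 2 0 (by decide)))
    have hsol : Sol6 θ Δ (t 0) (t 1) (t 2) d := ⟨p, q, r, hp, hq, hr, heq, hle⟩
    have hm0 : (0 : ℝ) ≤ ((max 3 (max |t 0| (max |t 1| |t 2|)) : ℤ) : ℝ) := by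
      have : (3 : ℤ) ≤ max 3 (max |t 0| (max |t 1| |t 2|)) := le_max_left _ _
      have h7 : ((3 : ℤ) : ℝ) ≤ ((max 3 (max |t 0| (max |t 1| |t 2|)) : ℤ) : ℝ) := by exact_mod_cast this
      push_cast at h7 ⊢
      linarith
    refine hsol.bound (hne 0) (hne 1) (hne 2) ?_
    have hΔm : (Δ : ℝ) ≤ ((max 3 (max |t 0| (max |t 1| |t 2|)) : ℤ) : ℝ) ^ 2 := by
      obtain ⟨m, hm⟩ : ∃ m : ℤ, m = max 3 (max |t 0| (max |t 1| |t 2|)) := ⟨_, rfl⟩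
      rw [← hm]
      have k0 : |t 0| ≤ m := by rw [hm]; exact (le_max_left _ _).trans (le_max_right _ _)
      have k1 : |t 1| ≤ m := by rw [hm]; exact (le_max_left _ _).trans ((le_max_right _ _).trans (le_max_right _ _))
      have k2 : |t 2| ≤ m := by rw [hm]; exact (le_max_right _ _).trans ((le_max_right _ _).trans (le_max_right _ _))
      have k3 : 0 ≤ m := (abs_nonneg _).trans k0
      have hprod : ∀ u v : ℤ, |u| ≤ m → |v| ≤ m → (((u * v).natAbs : ℕ) : ℝ) ≤ (m : ℝ) ^ 2 := by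
        intro u v hu hv
        have : |u * v| ≤ m ^ 2 := by
          rw [abs_mul, sq]
          exact mul_le_mul hu hv (abs_nonneg _) k3
        rw [Nat.cast_natAbs]
        exact_mod_cast this
      rw [hΔ, Nat.cast_max, Nat.cast_max]
      exact max_le (hprod _ _ k0 k1) (max_le (hprod _ _ k1 k2) (hprod _ _ k2 k0))
    calc (Δ : ℝ) ^ θ ≤ (((max 3 (max |t 0| (max |t 1| |t 2|)) : ℤ) : ℝ) ^ 2) ^ θ :=
          Real.rpow_le_rpow (Nat.cast_nonneg _) hΔm (by linarith)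
      _ = _ := by
          rw [← Real.rpow_natCast, ← Real.rpow_mul hm0]
          congr 1
  -- the estimates
  have hLU : 0 < (L ^ U)⁻¹ := by positivity
  have e1 : (L ^ (2 * W + U)) * (L ^ U)⁻¹ = (L ^ W) ^ 2 := by
    rw [pow_add, ← pow_mul, mul_comm W 2]
    field_simp
  have hscale : ∀ K δ : ℝ, K * L ^ (2 * W + U) * X ^ (-δ) ≤ 1 / 100 → K * (L ^ W) ^ 2 * X ^ (-δ) ≤ 1 / 100 * (L ^ U)⁻¹ := by
    intro K δ hle
    have := mul_le_mul_of_nonneg_right hle hLU.le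
    calc K * (L ^ W) ^ 2 * X ^ (-δ) = K * (L ^ (2 * W + U) * (L ^ U)⁻¹) * X ^ (-δ) := by rw [e1]
      _ = K * L ^ (2 * W + U) * X ^ (-δ) * (L ^ U)⁻¹ := by ring
      _ ≤ _ := this
  have hyρ : y ^ (-ρ) ≤ c ^ (-((T' : ℝ) * ρ)) * (L ^ (2 * W + U + 1))⁻¹ := by
    have e1 : y ^ (-ρ) = (c * L) ^ (-((T' : ℝ) * ρ)) := by
      rw [hy, ← Real.rpow_natCast, ← Real.rpow_mul (by positivity)]
      congr 1
      ring
    rw [e1, Real.mul_rpow hc.le hL0.le]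
    apply mul_le_mul_of_nonneg_left _ (by positivity)
    rw [← Real.rpow_natCast, ← Real.rpow_neg hL0.le]
    apply Real.rpow_le_rpow_of_exponent_le g8
    push_cast
    linarith
  have hyb : (K₁ + K₃) * (L ^ W) ^ 2 * y ^ (-ρ) ≤ 1 / 100 * (L ^ U)⁻¹ := by
    calc (K₁ + K₃) * (L ^ W) ^ 2 * y ^ (-ρ) ≤ (K₁ + K₃) * (L ^ W) ^ 2 * (c ^ (-((T' : ℝ) * ρ)) * (L ^ (2 * W + U + 1))⁻¹) :=
          mul_le_mul_of_nonneg_left hyρ (by positivity)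
      _ = ((K₁ + K₃) * c ^ (-((T' : ℝ) * ρ))) / L * (L ^ U)⁻¹ := by
          rw [pow_add, pow_add, pow_one, ← pow_mul, mul_comm W 2]
          field_simp
      _ ≤ _ := by
          apply mul_le_mul_of_nonneg_right _ hLU.le
          rw [div_le_iff₀ hL0]
          linarith
  have hy3 : y ^ (-(e - 1 / 2)) ≤ y ^ (-ρ) := Real.rpow_le_rpow_of_exponent_le hy1 (by linarith)
  have hy4 : y ^ (-(e / 4)) ≤ y ^ (-ρ) := Real.rpow_le_rpow_of_exponent_le hy1 (by linarith)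
  have hsS : ∀ l, P.real (Z l ⁻¹' S) ≤ 1 / 100 * (L ^ U)⁻¹ := by
    intro l
    have := hprob l
    have b := h5 (P.map (Z l)) X g11 (hTm l) (L ^ W) hh1
    rw [← hS, map_measureReal_apply (hZ l) hSm] at b
    refine b.trans (le_trans ?_ (hscale (2 * C) (c / 2) g1))
    have : L ^ W ≤ (L ^ W) ^ 2 := by
      rw [sq]
      exact le_mul_of_one_le_left (by positivity) hh1
    gcongr
  have hsE : ∀ l l', l ≠ l' → P.real ((fun ω => (Z l ω, Z l' ω)) ⁻¹' (E₁ ∪ E₂ ∪ E₃ ∪ E₄)) ≤ 5 / 100 * (L ^ U)⁻¹ := by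
    intro l l' hll
    have := hprob l
    have := hprob l'
    have b1 := h1 (P.map (Z l)) (P.map (Z l')) X g11 (hTm l) (hTm l') (L ^ W) y hh1 hy1
    have b2 := h2 (P.map (Z l)) (P.map (Z l')) X g11 (hTm l) (hTm l') (L ^ W) hh1 hhX
    have b3 := h3 (P.map (Z l)) (P.map (Z l')) X g11 (hTm l) (hTm l') (L ^ W) y hh1 hhX hy1
    have b4 := h4 (P.map (Z l)) (P.map (Z l')) X g11 (hPt l) (hPt l') (L ^ W) hh1 hhX
    rw [← hE₁] at b1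
    rw [← hE₂] at b2
    rw [← hE₃] at b3
    rw [← hE₄] at b4
    have hmap : P.real ((fun ω => (Z l ω, Z l' ω)) ⁻¹' (E₁ ∪ E₂ ∪ E₃ ∪ E₄)) =
        ((P.map (Z l)).prod (P.map (Z l'))).real (E₁ ∪ E₂ ∪ E₃ ∪ E₄) := by
      rw [← (indepFun_iff_map_prod_eq_prod_map_map (hZ l).aemeasurable (hZ l').aemeasurable).1 (hind l l' hll),
        map_measureReal_apply ((hZ l).prodMk (hZ l')) hEm]
    rw [hmap]
    have s2 := hscale K₁ c g2
    have s3 := hscale K₂ (c * e / 2) g3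
    have s4 := hscale K₃ (c / 2) g4
    have s5 := hscale K₄ δ g5
    have hK1y : K₁ * (L ^ W) ^ 2 * y ^ (-(e - 1 / 2)) ≤ K₁ * (L ^ W) ^ 2 * y ^ (-ρ) := by gcongr
    have hK3y : K₃ * (L ^ W) ^ 2 * y ^ (-(e / 4)) ≤ K₃ * (L ^ W) ^ 2 * y ^ (-ρ) := by gcongr
    have hu : ((P.map (Z l)).prod (P.map (Z l'))).real (E₁ ∪ E₂ ∪ E₃ ∪ E₄) ≤
        ((P.map (Z l)).prod (P.map (Z l'))).real E₁ + ((P.map (Z l)).prod (P.map (Z l'))).real E₂ +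
        ((P.map (Z l)).prod (P.map (Z l'))).real E₃ + ((P.map (Z l)).prod (P.map (Z l'))).real E₄ := by
      refine (measureReal_union_le _ _).trans (add_le_add ?_ le_rfl)
      refine (measureReal_union_le _ _).trans (add_le_add ?_ le_rfl)
      exact measureReal_union_le _ _
    linarith
  have hpos : 0 ≤ 5 / 100 * (L ^ U)⁻¹ := by positivity
  calc P.real {ω | ∃ t t' : Fin 3 → ℤ, (∀ l, |(t' l : ℝ) - Z l ω| ≤ L ^ W) ∧ (∀ l, (t l).natAbs = (t' l).natAbs) ∧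
        ¬ Three θ t}
      ≤ P.real ((⋃ l ∈ (univ : Finset (Fin 3)), Z l ⁻¹' S) ∪
        ⋃ l ∈ (univ : Finset (Fin 3)), ⋃ l' ∈ univ.erase l, (fun ω => (Z l ω, Z l' ω)) ⁻¹' (E₁ ∪ E₂ ∪ E₃ ∪ E₄)) :=
        measureReal_mono hcov (measure_ne_top _ _)
    _ ≤ P.real (⋃ l ∈ (univ : Finset (Fin 3)), Z l ⁻¹' S) +
        P.real (⋃ l ∈ (univ : Finset (Fin 3)), ⋃ l' ∈ univ.erase l, (fun ω => (Z l ω, Z l' ω)) ⁻¹' (E₁ ∪ E₂ ∪ E₃ ∪ E₄)) :=
        measureReal_union_le _ _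
    _ ≤ ∑ l : Fin 3, 1 / 100 * (L ^ U)⁻¹ + ∑ l : Fin 3, ∑ l' : Fin 3, 5 / 100 * (L ^ U)⁻¹ := by
        apply add_le_add
        · refine (measureReal_biUnion_finset_le _ _).trans (sum_le_sum fun l _ => hsS l)
        · refine (measureReal_biUnion_finset_le _ _).trans (sum_le_sum fun l _ => ?_)
          refine (measureReal_biUnion_finset_le _ _).trans ?_
          calc ∑ l' ∈ univ.erase l, P.real ((fun ω => (Z l ω, Z l' ω)) ⁻¹' (E₁ ∪ E₂ ∪ E₃ ∪ E₄))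
              ≤ ∑ l' ∈ univ.erase l, 5 / 100 * (L ^ U)⁻¹ := by
                apply sum_le_sum
                intro l' hl'
                exact hsE l l' (Ne.symm (mem_erase.1 hl').1)
            _ ≤ ∑ l' : Fin 3, 5 / 100 * (L ^ U)⁻¹ := sum_le_sum_of_subset_of_nonneg (erase_subset _ _) fun _ _ _ => hpos
    _ ≤ _ := by
        simp only [sum_const, card_univ, Fintype.card_fin, nsmul_eq_mul]
        push_cast
        linarith

end Pool.Agent.HP25.PS
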