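import Pool.Agent.HP25.PS.T5
import Pool.Agent.HP25.PS.G

set_option autoImplicit false

/-! Coefficients with random digits: small prime solutions. -/

namespace Pool.Agent.HP25.PS

open Finset MeasureTheory ProbabilityTheory Filter Topology
open Pool.Agent.Y883.T5 Pool.Agent.Y883.T6
open Pool.Agent.TH872.Sq (Dig P P_nonneg P_le P_split P_sum ex_split_real eta_le sum_split)

/-- integers with random digits, all the probabilities being at most `b ^ (-c)` -/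
theorem tm_dig (b : ℕ) (hb : 2 ≤ b) (c : ℝ) (hc : 0 < c) (hc1 : c ≤ 1) (w : ℕ → ℕ → ℝ) (hw : Dig b (1 - (b : ℝ) ^ (-c)) w)
    (K : ℕ) : Tm (dig b w K) ((b : ℝ) ^ K) c c (3 * b) := by
  classical
  obtain ⟨η, hη⟩ : ∃ η, η = 1 - (b : ℝ) ^ (-c) := ⟨_, rfl⟩
  rw [← hη] at hw
  have hcb : 1 - η ≤ (b : ℝ) ^ (-c) := by rw [hη]; linarith
  have hb1 : (1 : ℝ) ≤ b := by exact_mod_cast (by omega : 1 ≤ b)
  have hb0 : (0 : ℝ) < b := by linarith
  have hη1 : 0 ≤ 1 - η := by have := eta_le hw; linarith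
  have hpow : ∀ m : ℕ, (1 - η) ^ m ≤ ((b : ℝ) ^ m) ^ (-c) := by
    intro m
    rw [← Real.rpow_natCast (b : ℝ) m, ← Real.rpow_mul hb0.le, mul_comm, Real.rpow_mul hb0.le, Real.rpow_natCast]
    exact pow_le_pow_left₀ hη1 hcb m
  have hX0 : 0 ≤ ((b : ℝ) ^ K) ^ (-c) := by positivity
  refine ⟨?_, fun s h hh => ?_, fun r h hr hh => ?_⟩
  · rw [dig_apply hw, ENNReal.ofReal_eq_zero]
    apply le_of_eq
    apply sum_eq_zero
    intro n hn
    rw [mem_filter, mem_range] at hn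
    exfalso
    have h1 : ((n : ℕ) : ℝ) < (b : ℝ) ^ K := by exact_mod_cast hn.1
    have h2 : 3 * (b : ℝ) * (b : ℝ) ^ K < |(n : ℝ)| := hn.2
    rw [abs_of_nonneg (Nat.cast_nonneg n)] at h2
    have h3 : (0 : ℝ) < (b : ℝ) ^ K := by positivity
    nlinarith
  · rw [dig_real hw]
    calc ∑ n ∈ (range (b ^ K)).filter (fun n : ℕ => (n : ℝ) ∈ {z : ℝ | |(s : ℝ) - z| ≤ h}), P b w 0 K n
        ≤ ∑ _n ∈ (range (b ^ K)).filter (fun n : ℕ => (n : ℝ) ∈ {z : ℝ | |(s : ℝ) - z| ≤ h}), ((b : ℝ) ^ K) ^ (-c) :=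
          sum_le_sum fun n _ => (P_le hw 0 K n).trans (hpow K)
      _ = (((range (b ^ K)).filter (fun n : ℕ => (n : ℝ) ∈ {z : ℝ | |(s : ℝ) - z| ≤ h})).card : ℝ) * ((b : ℝ) ^ K) ^ (-c) := by
          rw [sum_const, nsmul_eq_mul]
      _ ≤ (3 * h) * ((b : ℝ) ^ K) ^ (-c) := by
          refine mul_le_mul_of_nonneg_right (le_trans ?_ (card_win h hh)) hX0
          norm_cast
          apply card_le_card_of_injOn (fun n : ℕ => s - (n : ℤ))
          · intro n hn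
            have h1 := (mem_filter.1 (mem_coe.1 hn)).2
            rw [Set.mem_ofPred_eq] at h1
            exact mem_coe.2 (mem_win (by push_cast; exact h1))
          · intro n _ n' _ h1
            have h2 : s - (n : ℤ) = s - (n' : ℤ) := h1
            omega
      _ ≤ 3 * b * h * ((b : ℝ) ^ K) ^ (-c) := by
          apply mul_le_mul_of_nonneg_right _ hX0
          nlinarith
  · rw [dig_real hw]
    -- the digits used
    obtain ⟨m, hmK, hmr, hm⟩ : ∃ m : ℕ, m ≤ K ∧ b ^ m ≤ r ∧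
        (1 - η) ^ m ≤ b * ((r : ℝ) ^ (-c) + ((b : ℝ) ^ K) ^ (-c)) := by
      have hr0 : (0 : ℝ) < r := by exact_mod_cast hr
      have hrc : 0 ≤ (r : ℝ) ^ (-c) := Real.rpow_nonneg hr0.le _
      rcases le_total K (Nat.log b r) with hK | hK
      · refine ⟨K, le_rfl, (Nat.pow_le_pow_right (by omega) hK).trans (Nat.pow_log_le_self b (by omega)), ?_⟩
        refine (hpow K).trans ?_
        nlinarith
      · refine ⟨Nat.log b r, hK, Nat.pow_log_le_self b (by omega), ?_⟩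
        refine (hpow _).trans ?_
        have h1 : (r : ℝ) ≤ (b : ℝ) ^ (Nat.log b r) * b := by
          have := Nat.lt_pow_succ_log_self (by omega : 1 < b) r
          have h2 : (r : ℝ) < (b : ℝ) ^ (Nat.log b r + 1) := by exact_mod_cast this
          rw [pow_succ] at h2
          exact h2.le
        have h3 : ((b : ℝ) ^ (Nat.log b r) * b) ^ (-c) ≤ (r : ℝ) ^ (-c) :=
          Real.rpow_le_rpow_of_nonpos hr0 h1 (by linarith)
        rw [Real.mul_rpow (by positivity) hb0.le] at h3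
        have h4 : (b : ℝ) ^ (-c) * b ^ c = 1 := by
          rw [← Real.rpow_add hb0]
          simp
        have h5 : (b : ℝ) ^ c ≤ b := by
          calc (b : ℝ) ^ c ≤ (b : ℝ) ^ (1 : ℝ) := Real.rpow_le_rpow_of_exponent_le hb1 hc1
            _ = b := Real.rpow_one _
        have h6 : (0 : ℝ) < (b : ℝ) ^ c := Real.rpow_pos_of_pos hb0 _
        have h7 : 0 ≤ ((b : ℝ) ^ (Nat.log b r)) ^ (-c) := by positivity
        calc ((b : ℝ) ^ (Nat.log b r)) ^ (-c) = (((b : ℝ) ^ (Nat.log b r)) ^ (-c) * (b : ℝ) ^ (-c)) * (b : ℝ) ^ c := by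
              rw [mul_assoc, h4, mul_one]
          _ ≤ (r : ℝ) ^ (-c) * b := mul_le_mul h3 h5 h6.le hrc
          _ ≤ _ := by nlinarith
    have hsub : (range (b ^ K)).filter (fun n : ℕ => (n : ℝ) ∈ {z : ℝ | ∃ t : ℤ, |(t : ℝ) - z| ≤ h ∧ (r : ℤ) ∣ t}) ⊆
        (Icc (-⌊h⌋) ⌊h⌋).biUnion fun j => (range (b ^ K)).filter (fun n : ℕ => (r : ℤ) ∣ (n : ℤ) + j) := by
      intro n hn
      rw [mem_filter] at hn
      obtain ⟨hn1, t, ht1, ht2⟩ := hn
      rw [mem_biUnion]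
      refine ⟨t - n, mem_win (by push_cast; exact ht1), mem_filter.2 ⟨hn1, ?_⟩⟩
      convert ht2 using 1
      ring
    calc ∑ n ∈ (range (b ^ K)).filter (fun n : ℕ => (n : ℝ) ∈ {z : ℝ | ∃ t : ℤ, |(t : ℝ) - z| ≤ h ∧ (r : ℤ) ∣ t}), P b w 0 K n
        ≤ ∑ n ∈ (Icc (-⌊h⌋) ⌊h⌋).biUnion fun j => (range (b ^ K)).filter (fun n : ℕ => (r : ℤ) ∣ (n : ℤ) + j), P b w 0 K n :=
          sum_le_sum_of_subset_of_nonneg hsub fun n _ _ => P_nonneg hw _ _ _
      _ ≤ ∑ j ∈ Icc (-⌊h⌋) ⌊h⌋, ∑ n ∈ (range (b ^ K)).filter (fun n : ℕ => (r : ℤ) ∣ (n : ℤ) + j), P b w 0 K n :=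
          sum_biUnion_le' _ _ _ fun n => P_nonneg hw _ _ _
      _ ≤ ∑ _j ∈ Icc (-⌊h⌋) ⌊h⌋, (1 - η) ^ m := sum_le_sum fun j _ => dig_dvd (by omega) hw K m r hmK hmr j
      _ = ((Icc (-⌊h⌋) ⌊h⌋ : Finset ℤ).card : ℝ) * (1 - η) ^ m := by rw [sum_const, nsmul_eq_mul]
      _ ≤ (3 * h) * (b * ((r : ℝ) ^ (-c) + ((b : ℝ) ^ K) ^ (-c))) := by
          refine mul_le_mul (card_win h hh) hm (by positivity) (by linarith)
      _ = _ := by ring


end Pool.Agent.HP25.PS
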