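import Pool.Agent.HP25.PS.T5
import Pool.Agent.HP25.PS.C

set_option autoImplicit false

/-! Coefficients near multiples of random real numbers: small prime solutions. -/

namespace Pool.Agent.HP25.PS

open Finset MeasureTheory ProbabilityTheory Filter Topology
open Pool.Agent.H807R2.Dav
open Pool.Agent.HP25.FD (Decay ee_charFun ee_integrable)
open Pool.Agent.HP25.FA (ker ker_nonneg ker_le ker_low ker_cont ker_eq)

/-- **Multiples of random numbers of positive Fourier dimension** -/
theorem tm_decay (C δ A : ℝ) (hδ : 0 < δ) : ∃ c C' : ℝ, 0 < c ∧ c ≤ 1 ∧ 1 ≤ C' ∧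
    ∀ (ν : Measure ℝ) [IsProbabilityMeasure ν], Decay ν C δ → ν {x | A < |x|} = 0 → ∀ lam : ℝ, 1 ≤ lam →
      Tm (ν.map (fun x => lam * x)) lam c 1 C' := by
  obtain ⟨c, hc⟩ : ∃ c, c = min δ (1 / 2) := ⟨_, rfl⟩
  have hc0 : 0 < c := by rw [hc]; exact lt_min hδ (by norm_num)
  have hcδ : c ≤ δ := by rw [hc]; exact min_le_left _ _
  have hc2 : c ≤ 1 / 2 := by rw [hc]; exact min_le_right _ _
  obtain ⟨C₁, hC₁⟩ : ∃ C₁, C₁ = max C 1 := ⟨_, rfl⟩
  have hC1 : 1 ≤ C₁ := by rw [hC₁]; exact le_max_right _ _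
  refine ⟨c, max A (64 + 512 * C₁), hc0, by linarith, le_trans (by linarith) (le_max_right _ _), fun ν _ hdec hA lam hlam => ?_⟩
  have hlam0 : 0 < lam := by linarith
  have hdec' : Decay ν C₁ c := by rw [hC₁]; exact decay_le ν C δ c hc0 hcδ hdec
  obtain ⟨C', hC'⟩ : ∃ C', C' = max A (64 + 512 * C₁) := ⟨_, rfl⟩
  have hC'1 : 64 + 512 * C₁ ≤ C' := by rw [hC']; exact le_max_right _ _
  have hC'A : A ≤ C' := by rw [hC']; exact le_max_left _ _
  have hC'0 : 0 < C' := by linarith
  rw [← hC']
  have hmeas : Measurable (fun x : ℝ => lam * x) := by fun_prop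
  -- the general estimate
  have key : ∀ (r h β : ℝ), 1 ≤ r → 1 ≤ h → r ≤ r → ν.real {x | ∃ n : ℤ, |lam * x - β - r * n| ≤ h} ≤
      C' * h * (r ^ (-(1 : ℝ)) + lam ^ (-c)) := by
    intro r h β hr hh _
    have hr0 : 0 < r := by linarith
    have hh0 : 0 < h := by linarith
    rcases lt_or_ge r (8 * h) with h1 | h1
    · rw [Real.rpow_neg_one]
      have h3 : 1 ≤ 8 * h * r⁻¹ := by
        rw [← div_eq_mul_inv, one_le_div hr0]
        exact h1.le
      have h4 : 0 ≤ lam ^ (-c) := by positivity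
      calc ν.real {x | ∃ n : ℤ, |lam * x - β - r * n| ≤ h} ≤ 1 := measureReal_le_one
        _ ≤ 8 * h * r⁻¹ := h3
        _ ≤ C' * h * r⁻¹ := by gcongr; linarith
        _ ≤ _ := by
            apply mul_le_mul_of_nonneg_left _ (by positivity)
            linarith
    · obtain ⟨K, hK⟩ : ∃ K : ℕ, K = ⌊r / (8 * h)⌋₊ := ⟨_, rfl⟩
      have hq1 : 1 ≤ r / (8 * h) := by rw [one_le_div (by positivity)]; exact h1
      have hK1 : 1 ≤ K := by rw [hK]; exact Nat.le_floor (by exact_mod_cast hq1)
      have hKle : (K : ℝ) ≤ r / (8 * h) := by rw [hK]; exact Nat.floor_le (by positivity)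
      have hKge : r / (8 * h) < K + 1 := by rw [hK]; exact Nat.lt_floor_add_one _
      have hKr : (1 : ℝ) ≤ K := by exact_mod_cast hK1
      have hK0 : (0 : ℝ) < K := by linarith
      have hK16 : r / (16 * h) ≤ K := by
        have : r / (16 * h) = r / (8 * h) / 2 := by field_simp; norm_num
        rw [this]
        linarith
      have hb := basic ν C₁ c hc0 hc2 hdec' (lam / r) (by positivity) (β / r) K hK1
      have hsub : {x | ∃ n : ℤ, |lam * x - β - r * n| ≤ h} ⊆ {x | ∃ n : ℤ, |lam / r * x - β / r - n| ≤ 1 / (8 * K)} := by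
        rintro x ⟨n, hn⟩
        refine ⟨n, ?_⟩
        have e : lam / r * x - β / r - n = (lam * x - β - r * n) / r := by field_simp
        rw [e, abs_div, abs_of_pos hr0, div_le_iff₀ hr0]
        refine hn.trans ?_
        rw [div_mul_eq_mul_div, one_mul, le_div_iff₀ (by positivity)]
        rw [le_div_iff₀ (by positivity)] at hKle
        linarith
      have h2 : 4 / (K : ℝ) ≤ 64 * h * r ^ (-(1 : ℝ)) := by
        calc 4 / (K : ℝ) ≤ 4 / (r / (16 * h)) := by gcongr
          _ = 64 * h * r ^ (-(1 : ℝ)) := by rw [Real.rpow_neg_one]; field_simp; norm_num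
      have h3 : (K * (lam / r)) ^ (-c) ≤ 16 * h * lam ^ (-c) := by
        have h4 : lam / (16 * h) ≤ K * (lam / r) := by
          calc lam / (16 * h) = r / (16 * h) * (lam / r) := by field_simp
            _ ≤ _ := by gcongr
        calc (K * (lam / r)) ^ (-c) ≤ (lam / (16 * h)) ^ (-c) :=
              Real.rpow_le_rpow_of_nonpos (by positivity) h4 (by linarith)
          _ = (16 * h) ^ c * lam ^ (-c) := by
              rw [Real.div_rpow hlam0.le (by positivity), Real.rpow_neg (by positivity : (0 : ℝ) ≤ 16 * h)]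
              field_simp
          _ ≤ (16 * h) ^ (1 : ℝ) * lam ^ (-c) := by
              apply mul_le_mul_of_nonneg_right _ (by positivity)
              exact Real.rpow_le_rpow_of_exponent_le (by linarith) (by linarith)
          _ = _ := by rw [Real.rpow_one]
      calc ν.real {x | ∃ n : ℤ, |lam * x - β - r * n| ≤ h} ≤ _ := measureReal_mono hsub (measure_ne_top _ _)
        _ ≤ 4 / K + 32 * C₁ * (K * (lam / r)) ^ (-c) := hb
        _ ≤ 64 * h * r ^ (-(1 : ℝ)) + 32 * C₁ * (16 * h * lam ^ (-c)) := by gcongr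
        _ ≤ C' * h * r ^ (-(1 : ℝ)) + C' * h * lam ^ (-c) := by
            have h5 : 0 ≤ r ^ (-(1 : ℝ)) := by positivity
            have h6 : 0 ≤ lam ^ (-c) := by positivity
            have h7 : 64 * h * r ^ (-(1 : ℝ)) ≤ C' * h * r ^ (-(1 : ℝ)) := by gcongr; linarith
            have h8 : 32 * C₁ * (16 * h * lam ^ (-c)) ≤ C' * h * lam ^ (-c) := by
              calc 32 * C₁ * (16 * h * lam ^ (-c)) = (512 * C₁) * h * lam ^ (-c) := by ring
                _ ≤ _ := by gcongr; linarith
            linarith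
        _ = _ := by ring
  refine ⟨?_, ?_, ?_⟩
  · rw [Measure.map_apply hmeas (measurableSet_lt measurable_const (by fun_prop))]
    refine measure_mono_null ?_ hA
    intro x hx
    simp only [Set.mem_preimage, Set.mem_ofPred_eq, abs_mul, abs_of_pos hlam0] at hx ⊢
    have h1 : C' < |x| := by
      rw [mul_comm] at hx
      exact lt_of_mul_lt_mul_left hx hlam0.le
    linarith
  · intro s h hh
    have hm : MeasurableSet {z : ℝ | |(s : ℝ) - z| ≤ h} := measurableSet_le (by fun_prop) measurable_const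
    rw [map_measureReal_apply hmeas hm]
    -- take a large modulus
    have h1 : ∀ r : ℝ, 1 ≤ r → ν.real ((fun x => lam * x) ⁻¹' {z : ℝ | |(s : ℝ) - z| ≤ h}) ≤ C' * h * (r ^ (-(1 : ℝ)) + lam ^ (-c)) := by
      intro r hr
      refine (measureReal_mono ?_ (measure_ne_top _ _)).trans (key r h s hr hh le_rfl)
      intro x hx
      simp only [Set.mem_preimage, Set.mem_ofPred_eq] at hx ⊢
      refine ⟨0, ?_⟩
      push_cast
      rw [mul_zero, sub_zero, abs_sub_comm]
      exact hx
    -- the limit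
    have h2 : Filter.Tendsto (fun r : ℝ => C' * h * (r ^ (-(1 : ℝ)) + lam ^ (-c))) Filter.atTop (nhds (C' * h * (0 + lam ^ (-c)))) :=
      ((tendsto_rpow_neg_atTop one_pos).add_const _).const_mul _
    rw [zero_add] at h2
    exact ge_of_tendsto h2 (by filter_upwards [Filter.eventually_ge_atTop 1] with r hr using h1 r hr)
  · intro r h hr hh
    rw [map_measureReal_apply hmeas (small_meas h _)]
    have h1 := key r h 0 (by exact_mod_cast hr) hh le_rfl
    refine (measureReal_mono ?_ (measure_ne_top _ _)).trans h1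
    intro x hx
    simp only [Set.mem_preimage, Set.mem_ofPred_eq] at hx ⊢
    obtain ⟨t, ht, n, hn⟩ := hx
    refine ⟨n, ?_⟩
    rw [hn] at ht
    push_cast at ht
    rw [sub_zero, abs_sub_comm]
    exact ht


end Pool.Agent.HP25.PS
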