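import Pool.Agent.HP25.PS.T6
import Pool.Agent.HP25.PS.T8

set_option autoImplicit false

/-! Coefficients with random digits. -/

namespace Pool.Agent.HP25.PS

open Finset MeasureTheory ProbabilityTheory Filter Topology
open Pool.Agent.Y883.T5 Pool.Agent.Y883.T6
open Pool.Agent.TH872.Sq (Dig P P_nonneg P_le P_split P_sum ex_split_real eta_le sum_split)

lemma sum_le_dig {b : ℕ} {η : ℝ} {w : ℕ → ℕ → ℝ} (hw : Dig b η w) (K : ℕ) (B : Finset ℕ) (S : Set ℝ)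
    (h : ∀ x ∈ B, x < b ^ K ∧ (x : ℝ) ∈ S) : ∑ x ∈ B, P b w 0 K x ≤ (dig b w K).real S := by
  classical
  rw [dig_real hw]
  refine sum_le_sum_of_subset_of_nonneg (fun x hx => ?_) fun x _ _ => P_nonneg hw _ _ _
  exact mem_filter.2 ⟨mem_range.2 (h x hx).1, (h x hx).2⟩

lemma sum_le_pi {b : ℕ} (hb : 0 < b) {η : ℝ} {M : ℕ} {w : Fin M → ℕ → ℕ → ℝ} (hw : ∀ l, Dig b η (w l)) (K : ℕ)
    (B : Finset (Fin M → ℕ)) (S : Set (Fin M → ℝ)) (h : ∀ x ∈ B, (∀ l, x l < b ^ K) ∧ (fun l => ((x l : ℕ) : ℝ)) ∈ S) :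
    ∑ x ∈ B, ∏ l, P b (w l) 0 K (x l) ≤ (Measure.pi fun l => dig b (w l) K).real S := by
  classical
  have hprob : ∀ l, IsProbabilityMeasure (dig b (w l) K) := fun l => dig_prob hb (hw l) K
  obtain ⟨T, hT⟩ : ∃ T : Finset (Fin M → ℝ), T = B.image fun x l => ((x l : ℕ) : ℝ) := ⟨_, rfl⟩
  have hsub : (T : Set (Fin M → ℝ)) ⊆ S := by
    intro ω hω
    rw [hT, coe_image] at hω
    obtain ⟨x, hx, rfl⟩ := hω
    exact (h x (mem_coe.1 hx)).2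
  refine le_trans (le_of_eq ?_) (measureReal_mono hsub)
  rw [← sum_measureReal_singleton, hT, sum_image]
  · refine sum_congr rfl fun x hx => ?_
    rw [measureReal_def, Measure.pi_singleton, ENNReal.toReal_prod]
    refine prod_congr rfl fun l _ => ?_
    rw [← measureReal_def, dig_real (hw l)]
    have h2 : (range (b ^ K)).filter (fun n : ℕ => (n : ℝ) ∈ ({((x l : ℕ) : ℝ)} : Set ℝ)) = {x l} := by
      ext n
      rw [mem_filter, mem_range, mem_singleton, Set.mem_singleton_iff, Nat.cast_inj]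
      constructor
      · exact fun h => h.2
      · rintro rfl
        exact ⟨(h x hx).1 l, rfl⟩
    rw [h2, sum_singleton]
  · intro x _ x' _ h
    funext l
    have h4 : ((x l : ℕ) : ℝ) = x' l := congrFun h l
    exact_mod_cast h4

lemma log_pow_ge (b : ℕ) (hb : 2 ≤ b) (X₀ : ℝ) : ∃ K₀ : ℕ, ∀ K : ℕ, K₀ ≤ K → X₀ ≤ (b : ℝ) ^ K ∧ 1 ≤ (b : ℝ) ^ K ∧ 1 ≤ (K : ℝ) ∧
    (K : ℝ) ≤ Real.log ((b : ℝ) ^ K) ^ 2 := by
  have hb1 : (1 : ℝ) < b := by exact_mod_cast (by omega : 1 < b)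
  have h1 : Tendsto (fun K : ℕ => (b : ℝ) ^ K) atTop atTop := tendsto_pow_atTop_atTop_of_one_lt hb1
  obtain ⟨K₁, hK₁⟩ := eventually_atTop.1 (h1.eventually_ge_atTop X₀)
  refine ⟨max K₁ 3, fun K hK => ?_⟩
  have hK3 : 3 ≤ K := (le_max_right _ _).trans hK
  have hKr : (3 : ℝ) ≤ K := by exact_mod_cast hK3
  refine ⟨hK₁ K ((le_max_left _ _).trans hK), one_le_pow₀ hb1.le, by linarith, ?_⟩
  rw [Real.log_pow]
  have h2 : 0.69 < Real.log b := by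
    have := Real.log_two_gt_d9
    have h3 : Real.log 2 ≤ Real.log b := Real.log_le_log (by norm_num) (by exact_mod_cast hb)
    linarith
  have h4 : (K : ℝ) * 0.69 ≤ K * Real.log b := by nlinarith
  have h5 : (K : ℝ) ≤ (K * 0.69) ^ 2 := by nlinarith
  exact h5.trans (pow_le_pow_left₀ (by positivity) h4 2)

lemma conv {b : ℕ} {K W : ℕ} (h1 : (1 : ℝ) ≤ K) (h2 : (K : ℝ) ≤ Real.log ((b : ℝ) ^ K) ^ 2) :
    (K : ℝ) ^ W ≤ Real.log ((b : ℝ) ^ K) ^ (2 * W) := by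
  rw [pow_mul]
  exact pow_le_pow_left₀ (by linarith) h2 W

theorem dig_one (b : ℕ) (hb : 2 ≤ b) (c : ℝ) (hc : 0 < c) (hc1 : c ≤ 1) (μ : ℝ) (hμ : 1 < μ) (hμc : min (3 / 2) (2 - c) < μ)
    (T W U : ℕ) : ∃ K₀ : ℕ, ∀ K : ℕ, K₀ ≤ K → ∀ w : ℕ → ℕ → ℝ, Dig b (1 - (b : ℝ) ^ (-c)) w →
      (∀ B : Finset ℕ, (∀ x ∈ B, x < b ^ K ∧ ∃ t : ℤ, Near ((K : ℝ) ^ W) x t ∧ ¬ Good μ ((K : ℝ) ^ T) t) →
        ∑ x ∈ B, P b w 0 K x ≤ ((K : ℝ) ^ U)⁻¹) ∧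
      ∀ {Ω : Type} [MeasurableSpace Ω] (Q : Measure Ω) [IsProbabilityMeasure Q] (X : Ω → ℕ), Measurable X →
        (∀ n, n < b ^ K → Q.real {ω | X ω = n} = P b w 0 K n) →
        Q {ω | ∃ t : ℤ, Near ((K : ℝ) ^ W) (X ω) t ∧ ¬ Good μ ((K : ℝ) ^ T) t} ≤ ENNReal.ofReal ((K : ℝ) ^ U)⁻¹ := by
  have hb1 : (1 : ℝ) ≤ b := by exact_mod_cast (by omega : 1 ≤ b)
  have hμc' : 2 - c < μ ∨ 3 / 2 < μ := by
    rcases min_lt_iff.1 hμc with h | h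
    · exact Or.inr h
    · exact Or.inl h
  obtain ⟨X₀, h1⟩ := one_event c c c (3 * b) hc hc1 hc hc1 (by linarith) μ hμ hμc' (2 * T) (2 * W) (2 * U)
  obtain ⟨K₀, h2⟩ := log_pow_ge b hb X₀
  refine ⟨K₀, fun K hK w hw => ?_⟩
  obtain ⟨g1, g2, g3, g4⟩ := h2 K hK
  have hT := tm_dig b hb c hc hc1 w hw K
  have hprob := dig_prob (by omega) hw K
  have hU : (Real.log ((b : ℝ) ^ K) ^ (2 * U))⁻¹ ≤ ((K : ℝ) ^ U)⁻¹ := inv_anti₀ (by positivity) (conv g3 g4)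
  refine ⟨fun B hB => ?_, ?_⟩
  · have h3 := h1 (dig b w K) (fun z => z) measurable_id ((b : ℝ) ^ K) g1 (by rw [Measure.map_id']; exact hT)
      (by rw [Measure.map_id']; exact hT.toPt) ((K : ℝ) ^ W) ((K : ℝ) ^ T) (conv g3 g4) (conv g3 g4)
    have h4 := sum_le_dig hw K B {z | ∃ t : ℤ, Near ((K : ℝ) ^ W) z t ∧ ¬ Good μ ((K : ℝ) ^ T) t} fun x hx => ⟨(hB x hx).1, (hB x hx).2⟩
    refine h4.trans (le_trans ?_ hU)
    rw [measureReal_def]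
    exact ENNReal.toReal_le_of_le_ofReal (inv_nonneg.2 (by rw [pow_mul]; positivity)) h3
  · intro Ω _ Q _ X hX hlaw
    have hcast : Measurable fun n : ℕ => (n : ℝ) := measurable_from_top
    have hmap := map_eq_dig (by omega) hw K Q X hX hlaw
    have h3 := h1 Q (fun ω => ((X ω : ℕ) : ℝ)) (hcast.comp hX) ((b : ℝ) ^ K) g1 (by rw [hmap]; exact hT) (by rw [hmap]; exact hT.toPt)
      ((K : ℝ) ^ W) ((K : ℝ) ^ T) (conv g3 g4) (conv g3 g4)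
    exact h3.trans (ENNReal.ofReal_le_ofReal hU)

theorem dig_three (b : ℕ) (hb : 2 ≤ b) (c : ℝ) (hc : 1 / 2 < c) (hc1 : c ≤ 1) (μ : ℝ) (hμ : 4 - 2 * c < μ)
    (W U : ℕ) : ∃ K₀ : ℕ, ∀ K : ℕ, K₀ ≤ K → ∀ w : Fin 3 → ℕ → ℕ → ℝ, (∀ l, Dig b (1 - (b : ℝ) ^ (-c)) (w l)) →
      (∀ B : Finset (Fin 3 → ℕ), (∀ x ∈ B, (∀ l, x l < b ^ K) ∧
        ∃ t : Fin 3 → ℤ, (∀ l, Near ((K : ℝ) ^ W) (x l) (t l)) ∧ ¬ Good3 μ t) →
        ∑ x ∈ B, ∏ l, P b (w l) 0 K (x l) ≤ ((K : ℝ) ^ U)⁻¹) ∧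
      ∀ {Ω : Type} [MeasurableSpace Ω] (Q : Measure Ω) [IsProbabilityMeasure Q] (X : Fin 3 → Ω → ℕ), (∀ l, Measurable (X l)) →
        (∀ l l', l ≠ l' → IndepFun (X l) (X l') Q) →
        (∀ l n, n < b ^ K → Q.real {ω | X l ω = n} = P b (w l) 0 K n) →
        Q {ω | ∃ t : Fin 3 → ℤ, (∀ l, Near ((K : ℝ) ^ W) (X l ω) (t l)) ∧ ¬ Good3 μ t} ≤ ENNReal.ofReal ((K : ℝ) ^ U)⁻¹ := by
  have hb1 : (1 : ℝ) ≤ b := by exact_mod_cast (by omega : 1 ≤ b)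
  have hc0 : 0 < c := by linarith
  obtain ⟨X₀, h1⟩ := three_event c c c (3 * b) hc0 hc1 hc hc1 hc1 (by linarith) μ (by linarith) (Or.inl hμ) (2 * W) (2 * U)
  obtain ⟨K₀, h2⟩ := log_pow_ge b hb X₀
  refine ⟨K₀, fun K hK w hw => ?_⟩
  obtain ⟨g1, g2, g3, g4⟩ := h2 K hK
  have hT := fun l => tm_dig b hb c hc0 hc1 (w l) (hw l) K
  have hprob := fun l => dig_prob (by omega) (hw l) K
  have hU : (Real.log ((b : ℝ) ^ K) ^ (2 * U))⁻¹ ≤ ((K : ℝ) ^ U)⁻¹ := inv_anti₀ (by positivity) (conv g3 g4)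
  refine ⟨fun B hB => ?_, ?_⟩
  · have hev : ∀ l, (Measure.pi fun l => dig b (w l) K).map (fun ω : Fin 3 → ℝ => ω l) = dig b (w l) K := by
      intro l
      exact (measurePreserving_eval (fun l : Fin 3 => dig b (w l) K) l).map_eq
    have h3 := h1 (Measure.pi fun l => dig b (w l) K) (fun l ω => ω l) (fun l => measurable_pi_apply l)
      (fun l l' hll => (iIndepFun_pi (μ := fun l : Fin 3 => dig b (w l) K) (X := fun _ x => x) (fun l => aemeasurable_id)).indepFun hll)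
      ((b : ℝ) ^ K) g1 (fun l => by rw [hev l]; exact hT l) (fun l => by rw [hev l]; exact (hT l).toPt) ((K : ℝ) ^ W) (conv g3 g4)
    have h4 := sum_le_pi (by omega) hw K B {ω | ∃ t : Fin 3 → ℤ, (∀ l, Near ((K : ℝ) ^ W) (ω l) (t l)) ∧ ¬ Good3 μ t}
      fun x hx => ⟨(hB x hx).1, (hB x hx).2⟩
    refine h4.trans (le_trans ?_ hU)
    rw [measureReal_def]
    exact ENNReal.toReal_le_of_le_ofReal (inv_nonneg.2 (by rw [pow_mul]; positivity)) h3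
  · intro Ω _ Q _ X hX hind hlaw
    have hcast : Measurable fun n : ℕ => (n : ℝ) := measurable_from_top
    have hmap := fun l => map_eq_dig (by omega) (hw l) K Q (X l) (hX l) (hlaw l)
    have h3 := h1 Q (fun l ω => ((X l ω : ℕ) : ℝ)) (fun l => hcast.comp (hX l))
      (fun l l' hll => (hind l l' hll).comp (φ := fun n : ℕ => (n : ℝ)) (ψ := fun n : ℕ => (n : ℝ)) hcast hcast)
      ((b : ℝ) ^ K) g1 (fun l => by rw [hmap l]; exact hT l) (fun l => by rw [hmap l]; exact (hT l).toPt)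
      ((K : ℝ) ^ W) (conv g3 g4)
    exact h3.trans (ENNReal.ofReal_le_ofReal hU)

lemma summable_sq : Summable fun K : ℕ => ((K : ℝ) ^ 2)⁻¹ := by
  simp

/-- a countable set of exponents is enough -/
lemma ex_exp {m μ : ℝ} (h : m < μ) : ∃ n : ℕ, m + 1 / ((n : ℝ) + 1) < μ := by
  obtain ⟨n, hn⟩ := exists_nat_one_div_lt (show 0 < μ - m by linarith)
  exact ⟨n, by linarith⟩

theorem dig_one_ae (b : ℕ) (hb : 2 ≤ b) (c : ℝ) (hc : 0 < c) (hc1 : c ≤ 1) {Ω : Type} [MeasurableSpace Ω] (Q : Measure Ω)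
    [IsProbabilityMeasure Q] (X : ℕ → Ω → ℕ) (hX : ∀ K, Measurable (X K)) (w : ℕ → ℕ → ℕ → ℝ)
    (hw : ∀ K, Dig b (1 - (b : ℝ) ^ (-c)) (w K)) (hlaw : ∀ K n, n < b ^ K → Q.real {ω | X K ω = n} = P b (w K) 0 K n) :
    ∀ᵐ ω ∂Q, ∀ μ : ℝ, 1 < μ → min (3 / 2) (2 - c) < μ → ∀ T W : ℕ, ∀ᶠ K : ℕ in atTop, ∀ t : ℤ,
      Near ((K : ℝ) ^ W) (X K ω) t → Good μ ((K : ℝ) ^ T) t := by
  obtain ⟨m, hm⟩ : ∃ m : ℝ, m = max 1 (min (3 / 2) (2 - c)) := ⟨_, rfl⟩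
  have h1 : ∀ᵐ ω ∂Q, ∀ n T W : ℕ, ∀ᶠ K : ℕ in atTop, ω ∉ {ω | ∃ t : ℤ, Near ((K : ℝ) ^ W) (X K ω) t ∧
      ¬ Good (m + 1 / ((n : ℝ) + 1)) ((K : ℝ) ^ T) t} := by
    rw [ae_all_iff]
    intro n
    rw [ae_all_iff]
    intro T
    rw [ae_all_iff]
    intro W
    have hn : 0 < 1 / ((n : ℝ) + 1) := by positivity
    have hm1 : 1 ≤ m := by rw [hm]; exact le_max_left _ _
    have hm2 : min (3 / 2) (2 - c) ≤ m := by rw [hm]; exact le_max_right _ _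
    obtain ⟨K₀, h2⟩ := dig_one b hb c hc hc1 (m + 1 / ((n : ℝ) + 1)) (by linarith) (by linarith) T W 2
    refine ae_of_ev Q _ (fun K => ((K : ℝ) ^ 2)⁻¹) ?_ summable_sq
    filter_upwards [eventually_ge_atTop K₀] with K hK
    exact (h2 K hK (w K) (hw K)).2 Q (X K) (hX K) (hlaw K)
  filter_upwards [h1] with ω hω μ hμ hμc T W
  have h3 : m < μ := by rw [hm]; exact max_lt hμ hμc
  obtain ⟨n, hn⟩ := ex_exp h3
  filter_upwards [hω n T W] with K hK t ht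
  by_contra hbad
  exact hK ⟨t, ht, fun hgood => hbad (hgood.mono hn.le)⟩

theorem dig_three_ae (b : ℕ) (hb : 2 ≤ b) (c : ℝ) (hc : 1 / 2 < c) (hc1 : c ≤ 1) {Ω : Type} [MeasurableSpace Ω] (Q : Measure Ω)
    [IsProbabilityMeasure Q] (X : Fin 3 → ℕ → Ω → ℕ) (hX : ∀ l K, Measurable (X l K))
    (hind : ∀ K l l', l ≠ l' → IndepFun (X l K) (X l' K) Q) (w : Fin 3 → ℕ → ℕ → ℕ → ℝ)
    (hw : ∀ l K, Dig b (1 - (b : ℝ) ^ (-c)) (w l K)) (hlaw : ∀ l K n, n < b ^ K → Q.real {ω | X l K ω = n} = P b (w l K) 0 K n) :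
    ∀ᵐ ω ∂Q, ∀ μ : ℝ, 4 - 2 * c < μ → ∀ W : ℕ, ∀ᶠ K : ℕ in atTop, ∀ t : Fin 3 → ℤ,
      (∀ l, Near ((K : ℝ) ^ W) (X l K ω) (t l)) → Good3 μ t := by
  have h1 : ∀ᵐ ω ∂Q, ∀ n W : ℕ, ∀ᶠ K : ℕ in atTop, ω ∉ {ω | ∃ t : Fin 3 → ℤ, (∀ l, Near ((K : ℝ) ^ W) (X l K ω) (t l)) ∧
      ¬ Good3 (4 - 2 * c + 1 / ((n : ℝ) + 1)) t} := by
    rw [ae_all_iff]
    intro n
    rw [ae_all_iff]
    intro W
    have hn : 0 < 1 / ((n : ℝ) + 1) := by positivity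
    obtain ⟨K₀, h2⟩ := dig_three b hb c hc hc1 (4 - 2 * c + 1 / ((n : ℝ) + 1)) (by linarith) W 2
    refine ae_of_ev Q _ (fun K => ((K : ℝ) ^ 2)⁻¹) ?_ summable_sq
    filter_upwards [eventually_ge_atTop K₀] with K hK
    exact (h2 K hK (fun l => w l K) (fun l => hw l K)).2 Q (fun l => X l K) (fun l => hX l K) (fun l l' hll => hind K l l' hll)
      (fun l => hlaw l K)
  filter_upwards [h1] with ω hω μ hμ W
  obtain ⟨n, hn⟩ := ex_exp hμ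
  filter_upwards [hω n W] with K hK t ht
  by_contra hbad
  exact hK ⟨t, ht, fun hgood => hbad (hgood.mono hn.le)⟩

end Pool.Agent.HP25.PS
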