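import Pool.Agent.HP25.PS.E

set_option autoImplicit false

/-! Zilber-Pink without atypical intersections for translates given by integers which are separated by large primes. -/

namespace Pool.Agent.HP25.PS

open Pool.Agent.Results.MP_defd1c_ag.MixedTranslates (DimLE NoAtypical translate Independent Spread)

/-- The criterion of `MixedTranslates` for vectors of separated integers. -/
theorem crit :
    ∃ (M₀ : ∀ n k : ℕ, ℕ → Set (Fin n ⊕ Fin k → ℂ) → ℕ)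
      (R : ∀ n k : ℕ, ℕ → Set (Fin n ⊕ Fin k → ℂ) → MvPolynomial (Fin n) ℂ),
      (∀ n k m V, R n k m V ≠ 0) ∧
        ∀ (n k m : ℕ) (V : Set (Fin n ⊕ Fin k → ℂ)), DimLE m V →
          ∀ β δ ρ : Fin n → ℂ, (∀ i, β i ≠ δ i) → (∀ i, ρ i ≠ 0) →
            (∀ s : Fin n → ℂ, (∀ i, s i = β i ∨ s i = δ i) → MvPolynomial.eval s (R n k m V) ≠ 0) →
              ∀ Γ : Finset ℂ, ∃ D : ℕ, ∀ M : ℕ, M₀ n k m V ≤ M → ∀ t : Fin M → ℤ, Sep D t →
                ∀ e : Fin M → Fin n ⊕ Fin k → ℕ, Independent e →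
                  NoAtypical Γ m (translate V β δ ρ (fun i => ∏ l : Fin M, (t l).natAbs ^ e l i)) := by
  classical
  have h : ∀ (n k m : ℕ) (V : Set (Fin n ⊕ Fin k → ℂ)), ∃ (L : ℕ) (R : MvPolynomial (Fin n) ℂ), R ≠ 0 ∧ (DimLE m V →
      ∀ β δ ρ : Fin n → ℂ, (∀ i, β i ≠ δ i) → (∀ i, ρ i ≠ 0) →
      (∀ s : Fin n → ℂ, (∀ i, s i = β i ∨ s i = δ i) → MvPolynomial.eval s R ≠ 0) →
      ∀ Γ : Finset ℂ, ∃ D : ℕ, (∀ c : Fin n ⊕ Fin k → ℕ, Spread L D c → NoAtypical Γ m (translate V β δ ρ c))) := by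
    intro n k m V
    by_cases hV : DimLE m V
    · obtain ⟨L, R, hR, h⟩ := Pool.Agent.Results.MP_defd1c_ag.MixedTranslates.result n k m V hV
      refine ⟨L, R, hR, fun _ β δ ρ h1 h2 h3 Γ => ?_⟩
      obtain ⟨D, hD, -, -⟩ := h β δ ρ h1 h2 h3 Γ
      exact ⟨D, hD⟩
    · exact ⟨0, 1, one_ne_zero, fun h => absurd h hV⟩
  choose L R hR hmain using h
  refine ⟨fun n k m V => max (L n k m V) 2, R, hR, fun n k m V hV β δ ρ h1 h2 h3 Γ => ?_⟩
  obtain ⟨D, hD⟩ := hmain n k m V hV β δ ρ h1 h2 h3 Γ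
  refine ⟨D, fun M hM t ht e he => hD _ ?_⟩
  exact spread_of_sep ((le_max_left _ _).trans hM) ((le_max_right _ _).trans hM) he ht

end Pool.Agent.HP25.PS
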